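import Pool.Agent.Helper183_Collar.Outer

set_option autoImplicit false

namespace Pool.Agent.Helper183.Collar

open Set Filter Topology Module

/-- The oriented area form. -/
def dt (a b : ℂ) : ℝ := a.re * b.im - a.im * b.re

lemma dt_add_left (a b c : ℂ) : dt (a + b) c = dt a c + dt b c := by
  simp only [dt, Complex.add_re, Complex.add_im]; ring

lemma dt_add_right (a b c : ℂ) : dt a (b + c) = dt a b + dt a c := by
  simp only [dt, Complex.add_re, Complex.add_im]; ring

lemma dt_sub_left (a b c : ℂ) : dt (a - b) c = dt a c - dt b c := by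
  simp only [dt, Complex.sub_re, Complex.sub_im]; ring

lemma dt_sub_right (a b c : ℂ) : dt a (b - c) = dt a b - dt a c := by
  simp only [dt, Complex.sub_re, Complex.sub_im]; ring

lemma dt_neg_left (a b : ℂ) : dt (-a) b = - dt a b := by
  simp only [dt, Complex.neg_re, Complex.neg_im]; ring

lemma dt_neg_right (a b : ℂ) : dt a (-b) = - dt a b := by
  simp only [dt, Complex.neg_re, Complex.neg_im]; ring

lemma dt_smul_left (r : ℝ) (a b : ℂ) : dt (r • a) b = r * dt a b := by
  simp only [dt, Complex.real_smul, Complex.mul_re, Complex.mul_im, Complex.ofReal_re,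
    Complex.ofReal_im]
  ring

lemma dt_smul_right (r : ℝ) (a b : ℂ) : dt a (r • b) = r * dt a b := by
  simp only [dt, Complex.real_smul, Complex.mul_re, Complex.mul_im, Complex.ofReal_re,
    Complex.ofReal_im]
  ring

lemma dt_self (a : ℂ) : dt a a = 0 := by simp only [dt]; ring

lemma dt_swap (a b : ℂ) : dt b a = - dt a b := by simp only [dt]; ring

lemma dt_zero_left (a : ℂ) : dt 0 a = 0 := by simp [dt]

lemma dt_zero_right (a : ℂ) : dt a 0 = 0 := by simp [dt]

lemma dt_cont (a : ℂ) : Continuous (fun b => dt a b) := by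
  unfold dt; fun_prop

/-- Two independent directions determine a vector. -/
lemma dt_ext {a b x : ℂ} (h : dt a b ≠ 0) (h1 : dt a x = 0) (h2 : dt b x = 0) : x = 0 := by
  simp only [dt] at *
  have e1 : (a.re * b.im - a.im * b.re) * x.re = 0 := by linear_combination b.re * h1 - a.re * h2
  have e2 : (a.re * b.im - a.im * b.re) * x.im = 0 := by linear_combination b.im * h1 - a.im * h2
  apply Complex.ext
  · simpa [h] using e1
  · simpa [h] using e2

/-- An affine functional on space. -/
def mkF (e : ℂ) (r c : ℝ) : ℂ × ℝ →ᵃ[ℝ] ℝ where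
  toFun p := dt e p.1 + r * p.2 + c
  linear :=
    { toFun := fun p => dt e p.1 + r * p.2
      map_add' := fun p q => by
        simp only [Prod.fst_add, Prod.snd_add, dt_add_right]; ring
      map_smul' := fun t p => by
        simp only [Prod.smul_fst, Prod.smul_snd, dt_smul_right, smul_eq_mul, RingHom.id_apply]
        ring }
  map_vadd' p q := by
    simp only [vadd_eq_add, Prod.fst_add, Prod.snd_add, dt_add_right, LinearMap.coe_mk,
      AddHom.coe_mk]
    ring

lemma mkF_apply (e : ℂ) (r c : ℝ) (p : ℂ × ℝ) : mkF e r c p = dt e p.1 + r * p.2 + c := rfl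

lemma mkF_linear (e : ℂ) (r c : ℝ) (p : ℂ × ℝ) :
    (mkF e r c).linear p = dt e p.1 + r * p.2 := rfl

/-- Edge opposite to a vertex. -/
def edge (u : Fin 3 → ℂ) (k : Fin 3) : ℂ := u (k + 2) - u (k + 1)

/-- Twice the oriented area. -/
def area (u : Fin 3 → ℂ) : ℝ := dt (u 1 - u 0) (u 2 - u 0)

lemma edge_dt (u : Fin 3 → ℂ) (k j : Fin 3) :
    dt (edge u k) (u j - u (k + 1)) = if j = k then area u else 0 := by
  fin_cases k <;> fin_cases j <;> simp [edge, area, dt] <;> ring

lemma edge_dt_edge (u : Fin 3 → ℂ) (k : Fin 3) :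
    dt (edge u k) (edge u (k + 1)) = area u := by
  fin_cases k <;> simp [edge, area, dt] <;> ring

lemma edge_indep (u : Fin 3 → ℂ) (h : 0 < area u) {j k : Fin 3} (hjk : j ≠ k) :
    dt (edge u j) (edge u k) ≠ 0 := by
  rcases Tunnel.cases3 j k with e | e | e
  · exact absurd e.symm hjk
  · rw [e, edge_dt_edge]; exact h.ne'
  · have : j = k + 1 := by subst e; fin_cases j <;> rfl
    rw [this, dt_swap, edge_dt_edge]
    exact neg_ne_zero.2 h.ne'

lemma third : ∀ j k : Fin 3, j ≠ k → ∃ m : Fin 3, m ≠ j ∧ m ≠ k := by decide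

/-- A bar: three lines through one point or parallel. -/
structure Bar where
  u : Fin 3 → ℂ
  o : ℂ
  v : ℂ
  α : ℝ
  β : ℝ

namespace Bar

variable (b : Bar)

/-- scale at a level -/
def σ (s : ℝ) : ℝ := b.α + b.β * s

/-- position of a line at a level -/
noncomputable def P (k : Fin 3) (s : ℝ) : ℂ := b.o + s • b.v + b.σ s • b.u k

/-- velocity of a line -/
noncomputable def vel (k : Fin 3) : ℂ := b.v + b.β • b.u k

lemma P_add (k : Fin 3) (s t : ℝ) : b.P k t = b.P k s + (t - s) • b.vel k := by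
  simp only [P, vel, σ]; module

lemma P_sub (j k : Fin 3) (s : ℝ) : b.P j s - b.P k s = b.σ s • (b.u j - b.u k) := by
  simp only [P]; module

/-- side functionals -/
noncomputable def L (k : Fin 3) : ℂ × ℝ →ᵃ[ℝ] ℝ :=
  mkF (edge b.u k) (-dt (edge b.u k) (b.vel (k + 1)))
    (-dt (edge b.u k) (b.o + b.α • b.u (k + 1)))

lemma L_apply (k : Fin 3) (y : ℂ) (s : ℝ) :
    b.L k (y, s) = dt (edge b.u k) (y - b.P (k + 1) s) := by
  simp only [L, mkF_apply, P, vel, σ, dt_sub_right, dt_add_right, dt_smul_right]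
  ring

lemma L_linear (k : Fin 3) (y : ℂ) (s : ℝ) :
    (b.L k).linear (y, s) = dt (edge b.u k) (y - s • b.vel (k + 1)) := by
  simp only [L, mkF_linear, dt_sub_right, dt_smul_right]
  ring

lemma L_P (k j : Fin 3) (s : ℝ) :
    b.L k (b.P j s, s) = if j = k then b.σ s * area b.u else 0 := by
  rw [L_apply, P_sub, dt_smul_right, edge_dt]
  split_ifs <;> simp

lemma vel_dt (k m : Fin 3) (hm : m ≠ k) :
    dt (edge b.u k) (b.vel m) = dt (edge b.u k) (b.vel (k + 1)) := by
  have h := edge_dt b.u k m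
  rw [if_neg hm, dt_sub_right] at h
  simp only [vel, dt_add_right, dt_smul_right]
  have : dt (edge b.u k) (b.u m) = dt (edge b.u k) (b.u (k + 1)) := by linarith
  rw [this]

/-- Two side functionals and a transversal functional separate points. -/
lemma inj (hA : 0 < area b.u) (l : ℂ × ℝ →ᵃ[ℝ] ℝ) (hl : ∀ m, l.linear (b.vel m, 1) ≠ 0)
    {j k : Fin 3} (hjk : j ≠ k) {p q : ℂ × ℝ} (h1 : b.L j p = b.L j q)
    (h2 : b.L k p = b.L k q) (h3 : l p = l q) : p = q := by
  obtain ⟨m, hmj, hmk⟩ := third j k hjk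
  obtain ⟨y, t⟩ := p
  obtain ⟨y', t'⟩ := q
  have e : ∀ f : ℂ × ℝ →ᵃ[ℝ] ℝ, f (y, t) = f (y', t') → f.linear (y - y', t - t') = 0 := by
    intro f hf
    have := f.linearMap_vsub (y, t) (y', t')
    rw [hf, vsub_self] at this
    exact this
  have f1 := e _ h1
  have f2 := e _ h2
  have f3 := e _ h3
  rw [L_linear, dt_sub_right, dt_smul_right, ← b.vel_dt j m hmj, ← dt_smul_right,
    ← dt_sub_right] at f1
  rw [L_linear, dt_sub_right, dt_smul_right, ← b.vel_dt k m hmk, ← dt_smul_right,
    ← dt_sub_right] at f2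
  have hy := dt_ext (edge_indep b.u hA hjk) f1 f2
  have hv : (y - y', t - t') = (t - t') • ((b.vel m, 1) : ℂ × ℝ) := by
    rw [Prod.smul_mk, smul_eq_mul, mul_one, ← sub_eq_zero.1 hy]
  rw [hv, map_smul, smul_eq_mul] at f3
  rcases mul_eq_zero.1 f3 with h | h
  · rw [h, zero_smul] at hv
    have h5 := congrArg Prod.fst hv
    simp only [Prod.fst_zero] at h5
    rw [sub_eq_zero.1 h5, sub_eq_zero.1 h]
  · exact absurd h (hl m)

/-- Positivity of a functional on a section. -/
lemma section_nonneg (hA : 0 < area b.u) {s : ℝ} (hs : 0 < b.σ s) {y : ℂ}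
    (hL : ∀ j, 0 ≤ b.L j (y, s)) (l : ℂ × ℝ →ᵃ[ℝ] ℝ) (hl : ∀ j, 0 ≤ l (b.P j s, s)) :
    0 ≤ l (y, s) := by
  set c := b.σ s * area b.u with hc
  have hc0 : 0 < c := mul_pos hs hA
  have hsum : b.L 0 (y, s) / c + b.L 1 (y, s) / c + b.L 2 (y, s) / c = 1 := by
    rw [← add_div, ← add_div, div_eq_one_iff_eq hc0.ne', hc]
    simp only [L_apply, P, edge, area, dt]
    simp
    ring
  have hmul : c • y = b.L 0 (y, s) • b.P 0 s + b.L 1 (y, s) • b.P 1 s
      + b.L 2 (y, s) • b.P 2 s := by
    rw [hc]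
    simp only [L_apply, P, edge, area, dt]
    apply Complex.ext
    · simp
      ring
    · simp
      ring
  have hp : ((y, s) : ℂ × ℝ) = (b.L 0 (y, s) / c) • (b.P 0 s, s) +
      (b.L 1 (y, s) / c) • (b.P 1 s, s) + (b.L 2 (y, s) / c) • (b.P 2 s, s) := by
    refine Prod.ext ?_ ?_
    · show y = (b.L 0 (y, s) / c) • b.P 0 s + (b.L 1 (y, s) / c) • b.P 1 s
        + (b.L 2 (y, s) / c) • b.P 2 s
      have e1 : y = c⁻¹ • (c • y) := by rw [smul_smul, inv_mul_cancel₀ hc0.ne', one_smul]
      have h5 : ∀ t : ℝ, t / c = c⁻¹ * t := fun t => by field_simp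
      have e2 : c⁻¹ • (c • y) = (b.L 0 (y, s) / c) • b.P 0 s + (b.L 1 (y, s) / c) • b.P 1 s
          + (b.L 2 (y, s) / c) • b.P 2 s := by
        rw [hmul, smul_add, smul_add, smul_smul, smul_smul, smul_smul, h5, h5, h5]
      exact e1.trans e2
    · show s = (b.L 0 (y, s) / c) * s + (b.L 1 (y, s) / c) * s + (b.L 2 (y, s) / c) * s
      rw [← add_mul, ← add_mul, hsum, one_mul]
  rw [hp, aff_comb3 l _ _ _ _ _ _ hsum]
  have := fun j => div_nonneg (hL j) hc0.le
  have h0 := mul_nonneg (this 0) (hl 0)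
  have h1 := mul_nonneg (this 1) (hl 1)
  have h2 := mul_nonneg (this 2) (hl 2)
  linarith

lemma dirs (hA : 0 < area b.u) (u : ℂ) (hu : u ≠ 0) : ∃ k, (b.L k).linear (u, 0) < 0 := by
  by_contra hc
  push Not at hc
  have h0 := hc 0
  have h1 := hc 1
  have h2 := hc 2
  rw [L_linear, zero_smul, sub_zero] at h0 h1 h2
  have hs : dt (edge b.u 0) u + dt (edge b.u 1) u + dt (edge b.u 2) u = 0 := by
    simp only [edge, dt]; simp; ring
  have e0 : dt (edge b.u 0) u = 0 := by linarith
  have e1 : dt (edge b.u 1) u = 0 := by linarith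
  exact hu (dt_ext (edge_indep b.u hA (by decide)) e0 e1)

lemma σ_pos {s t r : ℝ} (hs : 0 < b.σ s) (ht : 0 < b.σ t) (h1 : s ≤ r) (h2 : r ≤ t) :
    0 < b.σ r := by
  simp only [σ] at *
  rcases h1.eq_or_lt with h | h
  · subst h; exact hs
  · have hst : s < t := lt_of_lt_of_le h h2
    have : (t - s) * (b.α + b.β * r)
        = (t - r) * (b.α + b.β * s) + (r - s) * (b.α + b.β * t) := by ring
    have h3 : 0 < (t - s) * (b.α + b.β * r) := by
      rw [this]
      have := mul_nonneg (sub_nonneg.2 h2) hs.le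
      have := mul_pos (sub_pos.2 h) ht
      linarith
    exact (pos_iff_pos_of_mul_pos h3).1 (by linarith)

end Bar

/-- The functional of a window with base point `x`, base edge `E`, apex `z`, base level `s`
and apex level `s + h`. -/
noncomputable def wF (x E z : ℂ) (s h : ℝ) : ℂ × ℝ →ᵃ[ℝ] ℝ :=
  mkF ((-h) • E) (dt E (z - x)) (-s * dt E (z - x) + h * dt E x)

lemma wF_apply (x E z : ℂ) (s h : ℝ) (y : ℂ) (t : ℝ) :
    wF x E z s h (y, t) = (t - s) * dt E (z - x) - h * dt E (y - x) := by
  simp only [wF, mkF_apply, dt_smul_left, dt_sub_right]; ring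

lemma wF_linear (x E z : ℂ) (s h : ℝ) (y : ℂ) (t : ℝ) :
    (wF x E z s h).linear (y, t) = t * dt E (z - x) - h * dt E y := by
  simp only [wF, mkF_linear, dt_smul_left]; ring

lemma levF_linear (a : ℝ) (y : ℂ) (t : ℝ) : (levF a).linear (y, t) = t := by
  simp [levF]

namespace Bar

variable (b : Bar)

/-- slope of the window functional along the lines of a bar -/
def slope (k : Fin 3) (s h : ℝ) (j : Fin 3) : ℝ :=
  if j = k then b.σ s * b.σ s * area b.u else b.σ s * b.σ (s + h) * area b.u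

lemma slope_pos (hA : 0 < area b.u) {s h : ℝ} (h1 : 0 < b.σ s) (h2 : 0 < b.σ (s + h))
    (k j : Fin 3) : 0 < b.slope k s h j := by
  unfold slope
  split_ifs <;> positivity

lemma win_linear (k j : Fin 3) (s h : ℝ) :
    (wF (b.P (k + 1) s) (b.P (k + 2) s - b.P (k + 1) s) (b.P k (s + h)) s h).linear
      (b.vel j, 1) = b.slope k s h j := by
  have hE : b.P (k + 2) s - b.P (k + 1) s = b.σ s • edge b.u k := by
    rw [P_sub]; rfl
  rw [wF_linear, hE, dt_smul_left, dt_smul_left]
  have e1 : dt (edge b.u k) (b.P k (s + h) - b.P (k + 1) s)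
      = b.σ (s + h) * area b.u + h * dt (edge b.u k) (b.vel (k + 1)) := by
    have : b.P k (s + h) - b.P (k + 1) s
        = (b.P k (s + h) - b.P (k + 1) (s + h)) + h • b.vel (k + 1) := by
      rw [b.P_add (k + 1) s (s + h)]; module
    rw [this, dt_add_right, P_sub, dt_smul_right, edge_dt, if_pos rfl, dt_smul_right]
  rw [e1]
  by_cases hj : j = k
  · subst hj
    rw [slope, if_pos rfl]
    have e2 : dt (edge b.u j) (b.vel j) = b.β * area b.u + dt (edge b.u j) (b.vel (j + 1)) := by
      have := edge_dt b.u j j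
      rw [if_pos rfl, dt_sub_right] at this
      simp only [vel, dt_add_right, dt_smul_right]
      rw [← this]; ring
    rw [e2]
    simp only [σ]; ring
  · rw [slope, if_neg hj, b.vel_dt k j hj]
    ring

lemma win_P (k j : Fin 3) (s h t : ℝ) :
    wF (b.P (k + 1) s) (b.P (k + 2) s - b.P (k + 1) s) (b.P k (s + h)) s h (b.P j t, t)
      = (t - (if j = k then s + h else s)) * b.slope k s h j := by
  set l := wF (b.P (k + 1) s) (b.P (k + 2) s - b.P (k + 1) s) (b.P k (s + h)) s h with hl
  have hz : ∀ r, l (b.P j r, r) = 0 → l (b.P j t, t) = (t - r) * b.slope k s h j := by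
    intro r hr
    have e : ((b.P j t, t) : ℂ × ℝ) = (t - r) • ((b.vel j, 1) : ℂ × ℝ) +ᵥ (b.P j r, r) := by
      refine Prod.ext ?_ ?_
      · show b.P j t = (t - r) • b.vel j + b.P j r
        rw [b.P_add j r t]; abel
      · show t = (t - r) * 1 + r
        ring
    rw [e, l.map_vadd, hr, map_smul, hl, b.win_linear, vadd_eq_add, smul_eq_mul, add_zero]
  split_ifs with hj
  · subst hj
    apply hz
    rw [hl, wF_apply]; ring
  · apply hz
    rw [hl, wF_apply, sub_self, zero_mul, zero_sub]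
    rcases Tunnel.cases3 k j with e | e | e
    · exact absurd e hj
    · subst e; rw [sub_self, dt_zero_right]; simp
    · subst e; rw [dt_self]; simp

end Bar

end Pool.Agent.Helper183.Collar
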