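import Pool.Agent.Helper183_Collar.Bar

set_option autoImplicit false

namespace Pool.Agent.Helper183.Collar

open Set Filter Topology Module

/-- A sequence of bars; window `i + 1` has its base (the vertices other than `k i`) at level
`s i` and its apex (vertex `k i`) at level `s i + h i`. -/
structure BarChain (n : ℕ) where
  bar : ℕ → Bar
  k : ℕ → Fin 3
  s : ℕ → ℝ
  h : ℕ → ℝ
  bot : ℝ
  top : ℝ
  n1 : 1 ≤ n
  apos : ∀ i ≤ n, 0 < area (bar i).u
  base : ∀ i < n, ∀ j, j ≠ k i → (bar (i + 1)).P j (s i) = (bar i).P j (s i)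
  tip : ∀ i < n, (bar (i + 1)).P (k i) (s i + h i) = (bar i).P (k i) (s i + h i)
  σlo : ∀ i < n, 0 < (bar i).σ (s i) ∧ 0 < (bar i).σ (s i + h i)
  σhi : ∀ i < n, 0 < (bar (i + 1)).σ (s i) ∧ 0 < (bar (i + 1)).σ (s i + h i)
  σbot : 0 < (bar 0).σ bot
  σtop : 0 < (bar n).σ top
  lbot : bot < min (s 0) (s 0 + h 0)
  lmid : ∀ i, i + 1 < n → max (s i) (s i + h i) < min (s (i + 1)) (s (i + 1) + h (i + 1))
  ltop : ∀ i, i + 1 = n → max (s i) (s i + h i) < top
  apex : ∀ i < n, ∃ d, ∀ j, j ≠ k i →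
    0 < dt (edge (bar i).u j) d ∧ 0 < dt (edge (bar (i + 1)).u j) d
  ncop : ∀ i < n, ∀ j,
    dt (edge (bar i).u j) ((bar (i + 1)).vel (j + 1) - (bar i).vel (j + 1)) ≠ 0

namespace BarChain

variable {n : ℕ} (C : BarChain n)

/-- level of a corner -/
noncomputable def lv : ℕ → Fin 3 → ℝ
  | 0, _ => C.bot
  | i + 1, j => if i < n then (if j = C.k i then C.s i + C.h i else C.s i) else C.top

/-- lowest level of a window -/
noncomputable def m : ℕ → ℝ
  | 0 => C.bot
  | i + 1 => if i < n then min (C.s i) (C.s i + C.h i) else C.top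

/-- highest level of a window -/
noncomputable def M : ℕ → ℝ
  | 0 => C.bot
  | i + 1 => if i < n then max (C.s i) (C.s i + C.h i) else C.top

/-- corners -/
noncomputable def w : ℕ → Fin 3 → ℂ × ℝ
  | 0, j => ((C.bar 0).P j C.bot, C.bot)
  | i + 1, j => ((C.bar i).P j (C.lv (i + 1) j), C.lv (i + 1) j)

/-- window functionals -/
noncomputable def om : ℕ → (ℂ × ℝ →ᵃ[ℝ] ℝ)
  | 0 => levF C.bot
  | i + 1 => if i < n then wF ((C.bar i).P (C.k i + 1) (C.s i))
      ((C.bar i).P (C.k i + 2) (C.s i) - (C.bar i).P (C.k i + 1) (C.s i))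
      ((C.bar i).P (C.k i) (C.s i + C.h i)) (C.s i) (C.h i) else levF C.top

lemma lv_mem (i : ℕ) (j : Fin 3) : C.m i ≤ C.lv i j ∧ C.lv i j ≤ C.M i := by
  cases i with
  | zero => exact ⟨le_rfl, le_rfl⟩
  | succ i =>
    simp only [m, M, lv]
    split_ifs
    · exact ⟨min_le_right _ _, le_max_right _ _⟩
    · exact ⟨min_le_left _ _, le_max_left _ _⟩
    · exact ⟨le_rfl, le_rfl⟩

lemma m_eq (i : ℕ) : ∃ j, C.m i = C.lv i j := by
  cases i with
  | zero => exact ⟨0, rfl⟩
  | succ i =>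
    simp only [m, lv]
    split_ifs with h
    · rcases le_total (C.s i) (C.s i + C.h i) with h' | h'
      · refine ⟨C.k i + 1, ?_⟩
        rw [if_neg (Tunnel.ne1 _), min_eq_left h']
      · refine ⟨C.k i, ?_⟩
        rw [if_pos rfl, min_eq_right h']
    · exact ⟨0, rfl⟩

lemma M_eq (i : ℕ) : ∃ j, C.M i = C.lv i j := by
  cases i with
  | zero => exact ⟨0, rfl⟩
  | succ i =>
    simp only [M, lv]
    split_ifs with h
    · rcases le_total (C.s i) (C.s i + C.h i) with h' | h'
      · refine ⟨C.k i, ?_⟩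
        rw [if_pos rfl, max_eq_right h']
      · refine ⟨C.k i + 1, ?_⟩
        rw [if_neg (Tunnel.ne1 _), max_eq_left h']
    · exact ⟨0, rfl⟩

lemma mM {i : ℕ} (hi : i ≤ n) : C.M i < C.m (i + 1) := by
  cases i with
  | zero =>
    simp only [m, M]
    rw [if_pos (by have := C.n1; omega)]
    exact C.lbot
  | succ i =>
    simp only [m, M]
    rw [if_pos (by omega)]
    split_ifs with h
    · exact C.lmid i h
    · exact C.ltop i (by omega)

lemma w_hi (i : ℕ) (j : Fin 3) :
    C.w (i + 1) j = ((C.bar i).P j (C.lv (i + 1) j), C.lv (i + 1) j) := rfl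

lemma P_lv {i : ℕ} (hi : i < n) (j : Fin 3) :
    (C.bar (i + 1)).P j (C.lv (i + 1) j) = (C.bar i).P j (C.lv (i + 1) j) := by
  simp only [lv, if_pos hi]
  split_ifs with h
  · subst h; exact C.tip i hi
  · exact C.base i hi j h

lemma w_lo {i : ℕ} (hi : i ≤ n) (j : Fin 3) :
    C.w i j = ((C.bar i).P j (C.lv i j), C.lv i j) := by
  cases i with
  | zero => rfl
  | succ i => rw [w_hi, C.P_lv (by omega)]

lemma σ_lo {i : ℕ} (hi : i ≤ n) (j : Fin 3) : 0 < (C.bar i).σ (C.lv i j) := by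
  cases i with
  | zero => exact C.σbot
  | succ i =>
    simp only [lv, if_pos (show i < n by omega)]
    split_ifs
    · exact (C.σhi i (by omega)).2
    · exact (C.σhi i (by omega)).1

lemma σ_hi {i : ℕ} (hi : i ≤ n) (j : Fin 3) : 0 < (C.bar i).σ (C.lv (i + 1) j) := by
  simp only [lv]
  split_ifs with h h'
  · exact (C.σlo i h).2
  · exact (C.σlo i h).1
  · have : i = n := by omega
    subst this
    exact C.σtop

lemma σ_mid {i : ℕ} (hi : i ≤ n) {s : ℝ} (h1 : C.m i ≤ s) (h2 : s ≤ C.M (i + 1)) :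
    0 < (C.bar i).σ s := by
  obtain ⟨j, hj⟩ := C.m_eq i
  obtain ⟨j', hj'⟩ := C.M_eq (i + 1)
  exact Bar.σ_pos _ (hj ▸ C.σ_lo hi j) (hj' ▸ C.σ_hi hi j') h1 h2

lemma slope_hi {i : ℕ} (hi : i ≤ n) : ∃ sl : Fin 3 → ℝ, (∀ j, 0 < sl j) ∧
    (∀ j t, C.om (i + 1) ((C.bar i).P j t, t) = (t - C.lv (i + 1) j) * sl j) ∧
    ∀ j, (C.om (i + 1)).linear ((C.bar i).vel j, 1) = sl j := by
  by_cases h : i < n
  · refine ⟨(C.bar i).slope (C.k i) (C.s i) (C.h i), fun j => ?_, fun j t => ?_, fun j => ?_⟩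
    · exact Bar.slope_pos _ (C.apos i hi) (C.σlo i h).1 (C.σlo i h).2 _ _
    · simp only [om, lv, if_pos h]
      exact Bar.win_P _ _ _ _ _ _
    · simp only [om, if_pos h]
      exact Bar.win_linear _ _ _ _ _
  · refine ⟨fun _ => 1, fun j => one_pos, fun j t => ?_, fun j => ?_⟩
    · simp only [om, lv, if_neg h]
      rw [levF_apply, mul_one]
    · simp only [om, if_neg h]
      rw [levF_linear]

lemma slope_lo {i : ℕ} (hi : i ≤ n) : ∃ sl : Fin 3 → ℝ, (∀ j, 0 < sl j) ∧
    (∀ j t, C.om i ((C.bar i).P j t, t) = (t - C.lv i j) * sl j) ∧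
    ∀ j, (C.om i).linear ((C.bar i).vel j, 1) = sl j := by
  cases i with
  | zero =>
    refine ⟨fun _ => 1, fun j => one_pos, fun j t => ?_, fun j => ?_⟩
    · simp only [om, lv]
      rw [levF_apply, mul_one]
    · simp only [om]
      rw [levF_linear]
  | succ i =>
    have h : i < n := by omega
    have e1 := C.base i h _ (Tunnel.ne1 (C.k i))
    have e2 := C.base i h _ (Tunnel.ne2 (C.k i))
    have e3 := C.tip i h
    refine ⟨(C.bar (i + 1)).slope (C.k i) (C.s i) (C.h i), fun j => ?_, fun j t => ?_,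
      fun j => ?_⟩
    · exact Bar.slope_pos _ (C.apos _ hi) (C.σhi i h).1 (C.σhi i h).2 _ _
    · simp only [om, lv, if_pos h]
      rw [← e1, ← e2, ← e3]
      exact Bar.win_P _ _ _ _ _ _
    · simp only [om, if_pos h]
      rw [← e1, ← e2, ← e3]
      exact Bar.win_linear _ _ _ _ _

/-- A point inside both bars at every level of a window. -/
lemma window_point {i : ℕ} (hi : i < n) {t : ℝ} (h1 : C.m (i + 1) ≤ t) (h2 : t ≤ C.M (i + 1)) :
    ∃ y : ℂ, ∀ j, 0 < (C.bar i).L j (y, t) ∧ 0 < (C.bar (i + 1)).L j (y, t) := by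
  simp only [m, M, if_pos hi] at h1 h2
  set K := C.k i with hK
  set s := C.s i with hs
  set h := C.h i with hh
  have σ1 := C.σlo i hi
  have σ2 := C.σhi i hi
  rw [← hs, ← hh] at σ1 σ2
  have A1 := C.apos i hi.le
  have A2 := C.apos (i + 1) hi
  have b1 := C.base i hi _ (Tunnel.ne1 (C.k i))
  have b2 := C.base i hi _ (Tunnel.ne2 (C.k i))
  have b3 := C.tip i hi
  rw [← hK, ← hs] at b1 b2
  rw [← hK, ← hs, ← hh] at b3
  -- the base node
  obtain ⟨y0, hy0⟩ : ∃ y : ℂ, ∀ j, 0 < (C.bar i).L j (y, s) ∧ 0 < (C.bar (i + 1)).L j (y, s) := by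
    set E := (C.bar i).P (K + 2) s - (C.bar i).P (K + 1) s with hE
    have hE1 : E = (C.bar i).σ s • edge (C.bar i).u K := by rw [hE, Bar.P_sub]; rfl
    have hE2 : E = (C.bar (i + 1)).σ s • edge (C.bar (i + 1)).u K := by
      rw [hE, ← b1, ← b2, Bar.P_sub]; rfl
    have hE0 : E ≠ 0 := by
      intro h0
      rw [hE1] at h0
      have h1 : edge (C.bar i).u K = 0 := by
        rcases smul_eq_zero.1 h0 with h | h
        · exact absurd h σ1.1.ne'
        · exact h
      have := edge_dt_edge (C.bar i).u K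
      rw [h1, dt_zero_left] at this
      linarith
    have hrot : 0 < dt E (Complex.I * E) := by
      have : dt E (Complex.I * E) = E.re * E.re + E.im * E.im := by simp [dt]
      rw [this]
      have h3 : 0 < Complex.normSq E := Complex.normSq_pos.2 hE0
      rwa [Complex.normSq_apply] at h3
    -- both bars are treated in the same way
    have key : ∀ b : Bar, 0 < area b.u → 0 < b.σ s → b.P (K + 1) s = (C.bar i).P (K + 1) s →
        b.P (K + 2) s = (C.bar i).P (K + 2) s → E = b.σ s • edge b.u K →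
        ∀ᶠ τ in 𝓝[>] (0 : ℝ), ∀ j, 0 < b.L j ((1 / 2 : ℝ) • ((C.bar i).P (K + 1) s +
          (C.bar i).P (K + 2) s) + τ • (Complex.I * E), s) := by
      intro b hb hσ p1 p2 hEb
      rw [← p1, ← p2]
      rw [eventually_all]
      intro j
      have hlin : ∀ τ : ℝ, b.L j ((1 / 2 : ℝ) • (b.P (K + 1) s + b.P (K + 2) s)
          + τ • (Complex.I * E), s) =
          (1 / 2) * (b.L j (b.P (K + 1) s, s) + b.L j (b.P (K + 2) s, s))
            + τ * dt (edge b.u j) (Complex.I * E) := by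
        intro τ
        simp only [Bar.L_apply, dt_sub_right, dt_add_right, dt_smul_right]
        ring
      simp only [hlin, Bar.L_P]
      by_cases hj : j = K
      · subst hj
        rw [if_neg (Tunnel.ne1 _), if_neg (Tunnel.ne2 _)]
        have h4 : 0 < dt (edge b.u K) (Complex.I * E) := by
          rw [hEb, dt_smul_left] at hrot
          rw [hEb]
          exact (pos_iff_pos_of_mul_pos hrot).1 hσ
        filter_upwards [self_mem_nhdsWithin] with τ hτ
        have := mul_pos (show (0 : ℝ) < τ from hτ) h4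
        linarith
      · have h5 : 0 < (1 / 2 : ℝ) * ((if K + 1 = j then b.σ s * area b.u else 0) +
            if K + 2 = j then b.σ s * area b.u else 0) := by
          have := mul_pos hσ hb
          rcases Tunnel.cases3 K j with e | e | e
          · exact absurd e hj
          · subst e; rw [if_pos rfl]; split_ifs <;> linarith
          · subst e; rw [if_pos rfl]; split_ifs <;> linarith
        have hcont : Tendsto (fun τ : ℝ => (1 / 2 : ℝ) * ((if K + 1 = j then b.σ s * area b.u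
            else 0) + if K + 2 = j then b.σ s * area b.u else 0)
            + τ * dt (edge b.u j) (Complex.I * E)) (𝓝[>] 0)
            (𝓝 ((1 / 2 : ℝ) * ((if K + 1 = j then b.σ s * area b.u
            else 0) + if K + 2 = j then b.σ s * area b.u else 0)
            + 0 * dt (edge b.u j) (Complex.I * E))) :=
          (tendsto_const_nhds.add (tendsto_id.mul_const _)).mono_left nhdsWithin_le_nhds
        rw [zero_mul, add_zero] at hcont
        exact hcont.eventually_const_lt h5
    obtain ⟨τ, h6, h7⟩ := ((key (C.bar i) A1 σ1.1 rfl rfl hE1).and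
      (key (C.bar (i + 1)) A2 σ2.1 b1 b2 hE2)).exists
    exact ⟨_, fun j => ⟨h6 j, h7 j⟩⟩
  -- the apex node
  obtain ⟨y1, hy1⟩ : ∃ y : ℂ, ∀ j, 0 < (C.bar i).L j (y, s + h) ∧
      0 < (C.bar (i + 1)).L j (y, s + h) := by
    obtain ⟨d, hd⟩ := C.apex i hi
    have key : ∀ b : Bar, 0 < area b.u → 0 < b.σ (s + h) →
        b.P K (s + h) = (C.bar i).P K (s + h) → (∀ j, j ≠ K → 0 < dt (edge b.u j) d) →
        ∀ᶠ τ in 𝓝[>] (0 : ℝ), ∀ j, 0 < b.L j ((C.bar i).P K (s + h) + τ • d, s + h) := by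
      intro b hb hσ p1 hdb
      rw [← p1, eventually_all]
      intro j
      have hlin : ∀ τ : ℝ, b.L j (b.P K (s + h) + τ • d, s + h) =
          b.L j (b.P K (s + h), s + h) + τ * dt (edge b.u j) d := by
        intro τ
        simp only [Bar.L_apply, dt_sub_right, dt_add_right, dt_smul_right]
        ring
      simp only [hlin, Bar.L_P]
      by_cases hj : j = K
      · rw [if_pos hj.symm]
        have h5 := mul_pos hσ hb
        have hcont : Tendsto (fun τ : ℝ => b.σ (s + h) * area b.u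
            + τ * dt (edge b.u j) d) (𝓝[>] 0)
            (𝓝 (b.σ (s + h) * area b.u + 0 * dt (edge b.u j) d)) :=
          (tendsto_const_nhds.add (tendsto_id.mul_const _)).mono_left nhdsWithin_le_nhds
        rw [zero_mul, add_zero] at hcont
        exact hcont.eventually_const_lt h5
      · rw [if_neg (Ne.symm hj)]
        filter_upwards [self_mem_nhdsWithin] with τ hτ
        have := mul_pos (show (0 : ℝ) < τ from hτ) (hdb j hj)
        linarith
    obtain ⟨τ, h6, h7⟩ := ((key (C.bar i) A1 σ1.2 rfl (fun j hj => (hd j hj).1)).and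
      (key (C.bar (i + 1)) A2 σ2.2 b3 (fun j hj => (hd j hj).2))).exists
    exact ⟨_, fun j => ⟨h6 j, h7 j⟩⟩
  -- interpolate
  have hseg : t ∈ segment ℝ s (s + h) := by
    rw [segment_eq_uIcc]
    exact ⟨h1, h2⟩
  obtain ⟨α, β, hα, hβ, hαβ, hst⟩ := hseg
  refine ⟨α • y0 + β • y1, fun j => ?_⟩
  have hpt : ((α • y0 + β • y1, t) : ℂ × ℝ) = α • (y0, s) + β • (y1, s + h) := by
    rw [← hst]; rfl
  have pos : ∀ a b : ℝ, 0 < a → 0 < b → 0 < α * a + β * b := by
    intro a b ha hb
    rcases hα.eq_or_lt with h0 | h0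
    · have : β = 1 := by linarith
      rw [← h0, this]; linarith
    · have := mul_pos h0 ha
      have := mul_nonneg hβ hb.le
      linarith
  rw [hpt, aff_comb _ _ _ _ _ hαβ, aff_comb _ _ _ _ _ hαβ]
  exact ⟨pos _ _ (hy0 j).1 (hy1 j).1, pos _ _ (hy0 j).2 (hy1 j).2⟩

end BarChain

end Pool.Agent.Helper183.Collar
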