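import Pool.Agent.Helper183_Collar.BarChain

set_option autoImplicit false

namespace Pool.Agent.Helper183.Collar

open Set Filter Topology Module

namespace BarChain

variable {n : ℕ} (C : BarChain n)

lemma mleM (i : ℕ) : C.m i ≤ C.M i := (C.lv_mem i 0).1.trans (C.lv_mem i 0).2

lemma M_lt_m {i j : ℕ} (hij : i < j) (hj : j ≤ n + 1) : C.M i < C.m j := by
  induction j with
  | zero => omega
  | succ j ih =>
    rcases Nat.lt_succ_iff_lt_or_eq.1 hij with h | h
    · have h1 := ih h (by omega)
      have h2 := C.mleM j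
      have h3 := C.mM (i := j) (by omega)
      linarith
    · subst h; exact C.mM (by omega)

lemma M_mono {i j : ℕ} (hij : i ≤ j) (hj : j ≤ n + 1) : C.M i ≤ C.M j := by
  rcases hij.eq_or_lt with h | h
  · rw [h]
  · exact (C.M_lt_m h hj).le.trans (C.mleM j)

/-- the points of level `s` inside all active bars -/
def core (s : ℝ) : Set ℂ :=
  {y | ∀ i ≤ n, C.m i ≤ s → s ≤ C.M (i + 1) → ∀ k, 0 < (C.bar i).L k (y, s)}

lemma core_convex (s : ℝ) : Convex ℝ (C.core s) := by
  intro x hx y hy a b ha hb hab i hi h1 h2 k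
  have hpt : ((a • x + b • y, s) : ℂ × ℝ) = a • (x, s) + b • (y, s) := by
    refine Prod.ext rfl ?_
    show s = a * s + b * s
    rw [← add_mul, hab, one_mul]
  rw [hpt, aff_comb _ _ _ _ _ hab]
  have e1 := hx i hi h1 h2 k
  have e2 := hy i hi h1 h2 k
  rcases ha.eq_or_lt with h0 | h0
  · have : b = 1 := by linarith
    rw [← h0, this]; linarith
  · have := mul_pos h0 e1
    have := mul_nonneg hb e2.le
    linarith

lemma core_nonempty (s : ℝ) : (C.core s).Nonempty := by
  by_cases hw : ∃ i < n, C.m (i + 1) ≤ s ∧ s ≤ C.M (i + 1)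
  · obtain ⟨i, hi, h1, h2⟩ := hw
    obtain ⟨y, hy⟩ := C.window_point hi h1 h2
    refine ⟨y, fun j hj h3 h4 k => ?_⟩
    rcases lt_trichotomy j i with h | h | h
    · have := C.M_lt_m (i := j + 1) (j := i + 1) (by omega) (by omega)
      linarith
    · subst h; exact (hy k).1
    · rcases Nat.lt_or_ge (i + 1) j with h' | h'
      · have := C.M_lt_m (i := i + 1) (j := j) h' (by omega)
        linarith
      · have : j = i + 1 := by omega
        subst this
        exact (hy k).2
  · push Not at hw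
    by_cases ha : ∃ i ≤ n, C.m i ≤ s ∧ s ≤ C.M (i + 1)
    · obtain ⟨i, hi, h1, h2⟩ := ha
      refine ⟨(1 / 3 : ℝ) • ((C.bar i).P 0 s + (C.bar i).P 1 s + (C.bar i).P 2 s),
        fun j hj h3 h4 k => ?_⟩
      have hij : j = i := by
        rcases lt_trichotomy j i with h | h | h
        · obtain ⟨i, rfl⟩ : ∃ i', i = i' + 1 := ⟨i - 1, by omega⟩
          have e1 := hw i (by omega) h1
          have e2 := C.M_mono (i := j + 1) (j := i + 1) (by omega) (by omega)
          linarith
        · exact h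
        · obtain ⟨j, rfl⟩ : ∃ j', j = j' + 1 := ⟨j - 1, by omega⟩
          have e1 := hw j (by omega) h3
          have e2 := C.M_mono (i := i + 1) (j := j + 1) (by omega) (by omega)
          linarith
      subst hij
      have hσ := C.σ_mid hj h3 h4
      have hpos := mul_pos hσ (C.apos j hj)
      have hlin : (C.bar j).L k ((1 / 3 : ℝ) • ((C.bar j).P 0 s + (C.bar j).P 1 s
          + (C.bar j).P 2 s), s) = (1 / 3) * ((C.bar j).L k ((C.bar j).P 0 s, s)
          + (C.bar j).L k ((C.bar j).P 1 s, s) + (C.bar j).L k ((C.bar j).P 2 s, s)) := by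
        simp only [Bar.L_apply, dt_sub_right, dt_add_right, dt_smul_right]
        ring
      rw [hlin]
      simp only [Bar.L_P]
      fin_cases k
      · rw [if_pos (by rfl), if_neg (by decide), if_neg (by decide)]; linarith
      · rw [if_neg (by decide), if_pos (by rfl), if_neg (by decide)]; linarith
      · rw [if_neg (by decide), if_neg (by decide), if_pos (by rfl)]; linarith
    · push Not at ha
      refine ⟨0, fun j hj h3 h4 k => ?_⟩
      have := ha j hj h3
      linarith

lemma core_local (s : ℝ) : ∃ c, ∀ᶠ t in 𝓝 s, c ∈ C.core t := by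
  obtain ⟨y, hy⟩ := C.core_nonempty s
  refine ⟨y, ?_⟩
  have key : ∀ i ∈ Finset.range (n + 1), ∀ᶠ t in 𝓝 s, C.m i ≤ t → t ≤ C.M (i + 1) →
      ∀ k, 0 < (C.bar i).L k (y, t) := by
    intro i hi
    have hi' : i ≤ n := by rw [Finset.mem_range] at hi; omega
    by_cases h1 : C.m i ≤ s
    · by_cases h2 : s ≤ C.M (i + 1)
      · have : ∀ᶠ t in 𝓝 s, ∀ k, 0 < (C.bar i).L k (y, t) := by
          rw [eventually_all]
          intro k
          have hc : Continuous (fun t : ℝ => (C.bar i).L k (y, t)) := by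
            simp only [Bar.L, mkF_apply]
            fun_prop
          exact hc.continuousAt.tendsto.eventually_const_lt (hy i hi' h1 h2 k)
        exact this.mono (fun t ht _ _ => ht)
      · push Not at h2
        filter_upwards [lt_mem_nhds h2] with t ht _ h3
        linarith
    · push Not at h1
      filter_upwards [gt_mem_nhds h1] with t ht h3 _
      linarith
  have := (Filter.eventually_all_finset (Finset.range (n + 1))).2 key
  filter_upwards [this] with t ht i hi h1 h2 k
  exact ht i (by rw [Finset.mem_range]; omega) h1 h2 k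

/-- The tunnel of a chain of bars. -/
theorem exists_tunnel : ∃ T : Tunnel n, T.w = C.w ∧ T.m = C.m ∧ T.M = C.M := by
  obtain ⟨g, hg⟩ := exists_continuous_forall_mem_convex_of_local_const C.core_convex C.core_local
  have hlt : ∀ {i} (_ : i ≤ n) (j l), C.lv i j < C.lv (i + 1) l := by
    intro i hi j l
    exact lt_of_le_of_lt (C.lv_mem i j).2 (lt_of_lt_of_le (C.mM hi) (C.lv_mem (i + 1) l).1)
  refine ⟨{
    w := C.w
    L := fun i k => (C.bar i).L k
    ω := C.om
    m := C.m
    M := C.M
    c := g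
    L0 := ?_
    Lpos := ?_
    ω0 := ?_
    ωpos := ?_
    ωneg := ?_
    lev := ?_
    mM := fun i hi => C.mM hi
    m0 := rfl
    mn := ?_
    injlo := ?_
    injhi := ?_
    dirs := ?_
    lo := ?_
    hi := ?_
    cc := g.continuous
    cpos := ?_
    ncop := ?_ }, rfl, rfl, rfl⟩
  · intro i hi k j hj
    constructor
    · rw [C.w_lo hi, Bar.L_P, if_neg hj]
    · rw [C.w_hi, Bar.L_P, if_neg hj]
  · intro i hi k
    constructor
    · rw [C.w_lo hi, Bar.L_P, if_pos rfl]
      exact mul_pos (C.σ_lo hi k) (C.apos i hi)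
    · rw [C.w_hi, Bar.L_P, if_pos rfl]
      exact mul_pos (C.σ_hi hi k) (C.apos i hi)
  · intro i hi k
    rcases Nat.lt_or_ge n i with h | h
    · have : i = n + 1 := by omega
      subst this
      obtain ⟨sl, _, h2, _⟩ := C.slope_hi (i := n) le_rfl
      rw [C.w_hi, h2, sub_self, zero_mul]
    · obtain ⟨sl, _, h2, _⟩ := C.slope_lo h
      rw [C.w_lo h, h2, sub_self, zero_mul]
  · intro i hi k
    obtain ⟨sl, h1, h2, _⟩ := C.slope_lo hi
    rw [C.w_hi, h2]
    exact mul_pos (sub_pos.2 (hlt hi _ _)) (h1 k)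
  · intro i hi k
    obtain ⟨sl, h1, h2, _⟩ := C.slope_hi hi
    rw [C.w_lo hi, h2]
    exact mul_neg_of_neg_of_pos (sub_neg.2 (hlt hi _ _)) (h1 k)
  · intro i hi k
    rcases Nat.lt_or_ge n i with h | h
    · have : i = n + 1 := by omega
      subst this
      rw [C.w_hi]
      exact C.lv_mem _ _
    · rw [C.w_lo h]
      exact C.lv_mem _ _
  · simp [m, M]
  · intro i hi j k hjk p q h1 h2 h3
    obtain ⟨sl, e1, _, e3⟩ := C.slope_lo hi
    exact (C.bar i).inj (C.apos i hi) _ (fun m => by rw [e3]; exact (e1 m).ne') hjk h1 h2 h3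
  · intro i hi j k hjk p q h1 h2 h3
    obtain ⟨sl, e1, _, e3⟩ := C.slope_hi hi
    exact (C.bar i).inj (C.apos i hi) _ (fun m => by rw [e3]; exact (e1 m).ne') hjk h1 h2 h3
  · intro i hi u hu
    exact (C.bar i).dirs (C.apos i hi) u hu
  · rintro i hi ⟨y, s⟩ h1 h2 h3
    obtain ⟨sl, e1, e2, _⟩ := C.slope_lo hi
    refine (C.bar i).section_nonneg (C.apos i hi) (C.σ_mid hi ((C.mleM i).trans h1) h2) h3 _ ?_
    intro j
    rw [e2]
    exact mul_nonneg (sub_nonneg.2 ((C.lv_mem i j).2.trans h1)) (e1 j).le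
  · rintro i hi ⟨y, s⟩ h1 h2 h3
    obtain ⟨sl, e1, e2, _⟩ := C.slope_hi hi
    have := (C.bar i).section_nonneg (C.apos i hi)
      (C.σ_mid hi h1 (h2.trans (C.mleM (i + 1)))) h3 (-C.om (i + 1)) (by
        intro j
        show 0 ≤ - (C.om (i + 1) ((C.bar i).P j s, s))
        rw [e2]
        have h4 : s ≤ C.lv (i + 1) j := le_trans h2 (C.lv_mem (i + 1) j).1
        have := mul_nonneg (sub_nonneg.2 h4) (e1 j).le
        linarith)
    have h5 : (-C.om (i + 1)) (y, s) = - C.om (i + 1) (y, s) := rfl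
    rw [h5] at this
    linarith
  · intro i hi s h1 h2 k
    exact hg s i hi h1 h2 k
  · intro i hi k
    rw [C.w_hi, Bar.L_apply]
    set t := C.lv (i + 1 + 1) (k + 1) with ht
    set t0 := C.lv (i + 1) (k + 1) with ht0
    have hlt' : t0 < t := hlt (i := i + 1) (by omega) _ _
    have e : (C.bar (i + 1)).P (k + 1) t - (C.bar i).P (k + 1) t
        = (t - t0) • ((C.bar (i + 1)).vel (k + 1) - (C.bar i).vel (k + 1)) := by
      rw [Bar.P_add _ _ t0 t, Bar.P_add _ _ t0 t, ht0, C.P_lv hi]
      module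
    rw [e, dt_smul_right]
    exact mul_ne_zero (sub_pos.2 hlt').ne' (C.ncop i hi k)

end BarChain

end Pool.Agent.Helper183.Collar
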