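import Pool.Agent.Helper183_Collar.Defs

set_option autoImplicit false

namespace Pool.Agent.Helper183.Collar

open Set Module

section conv

variable {E : Type*} [AddCommGroup E] [Module ℝ E]

/-- An affine functional takes the expected value on a two point combination. -/
lemma aff_comb (l : E →ᵃ[ℝ] ℝ) (x y : E) (a b : ℝ) (h : a + b = 1) :
    l (a • x + b • y) = a * l x + b * l y := by
  have := Convex.combo_affine_apply (f := l) (x := x) (y := y) h
  simpa [smul_eq_mul] using this

lemma aff_nonneg_of_mem (l : E →ᵃ[ℝ] ℝ) (S : Set E) (h : ∀ x ∈ S, 0 ≤ l x) :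
    ∀ x ∈ convexHull ℝ S, 0 ≤ l x := by
  have hc : Convex ℝ {x | 0 ≤ l x} := by
    intro x hx y hy a b ha hb hab
    simp only [mem_setOf_eq] at *
    rw [aff_comb l x y a b hab]
    positivity
  exact fun x hx => convexHull_min h hc hx

lemma aff_pos_of_mem (l : E →ᵃ[ℝ] ℝ) (S : Set E) (h : ∀ x ∈ S, 0 < l x) :
    ∀ x ∈ convexHull ℝ S, 0 < l x := by
  have hc : Convex ℝ {x | 0 < l x} := by
    intro x hx y hy a b ha hb hab
    simp only [mem_setOf_eq] at *
    rw [aff_comb l x y a b hab]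
    rcases ha.eq_or_lt with h0 | h0
    · subst h0
      have : b = 1 := by linarith
      subst this; simpa using hy
    · have := mul_pos h0 hx
      have := mul_nonneg hb hy.le
      linarith
  exact fun x hx => convexHull_min h hc hx

lemma aff_eq_of_mem (l : E →ᵃ[ℝ] ℝ) (S : Set E) (h : ∀ x ∈ S, l x = 0) :
    ∀ x ∈ convexHull ℝ S, l x = 0 := by
  have hc : Convex ℝ {x | l x = 0} := by
    intro x hx y hy a b ha hb hab
    simp only [mem_setOf_eq] at *
    rw [aff_comb l x y a b hab, hx, hy]; simp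
  exact fun x hx => convexHull_min h hc hx

/-- A point of the hull on which a nonnegative functional vanishes is in the hull of the
zero points. -/
lemma mem_hull_zero (l : E →ᵃ[ℝ] ℝ) (S : Set E) (h : ∀ x ∈ S, 0 ≤ l x) {p : E}
    (hp : p ∈ convexHull ℝ S) (h0 : l p = 0) : p ∈ convexHull ℝ {x ∈ S | l x = 0} := by
  have hc : Convex ℝ {x | 0 ≤ l x ∧ (l x = 0 → x ∈ convexHull ℝ {x ∈ S | l x = 0})} := by
    intro x hx y hy a b ha hb hab
    simp only [mem_setOf_eq] at *
    rw [aff_comb l x y a b hab]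
    refine ⟨by nlinarith [mul_nonneg ha hx.1, mul_nonneg hb hy.1], fun h0 => ?_⟩
    rcases ha.eq_or_lt with ha0 | ha0
    · subst ha0
      have : b = 1 := by linarith
      subst this
      simp only [zero_mul, one_mul, zero_add] at h0
      simpa using hy.2 h0
    rcases hb.eq_or_lt with hb0 | hb0
    · subst hb0
      have : a = 1 := by linarith
      subst this
      simp only [zero_mul, one_mul, add_zero] at h0
      simpa using hx.2 h0
    have h1 := mul_nonneg ha hx.1
    have h2 := mul_nonneg hb hy.1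
    have h3 : a * l x = 0 := by linarith
    have h4 : b * l y = 0 := by linarith
    have h5 : l x = 0 := by
      rcases mul_eq_zero.1 h3 with h | h
      · linarith
      · exact h
    have h6 : l y = 0 := by
      rcases mul_eq_zero.1 h4 with h | h
      · linarith
      · exact h
    exact (convex_convexHull ℝ _) (hx.2 h5) (hy.2 h6) ha hb hab
  have hS : S ⊆ {x | 0 ≤ l x ∧ (l x = 0 → x ∈ convexHull ℝ {x ∈ S | l x = 0})} := by
    intro x hx
    exact ⟨h x hx, fun h0 => subset_convexHull ℝ _ ⟨hx, h0⟩⟩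
  exact (convexHull_min hS hc hp).2 h0

variable {V : Type*}

/-- Version for images. -/
lemma mem_hull_zero_image (l : E →ᵃ[ℝ] ℝ) (x : V → E) (S T : Set V) (h : ∀ v ∈ S, 0 ≤ l (x v))
    (hT : ∀ v ∈ S, l (x v) = 0 → v ∈ T) {p : E}
    (hp : p ∈ convexHull ℝ (x '' S)) (h0 : l p = 0) : p ∈ convexHull ℝ (x '' (S ∩ T)) := by
  have h1 : ∀ y ∈ x '' S, 0 ≤ l y := by rintro _ ⟨v, hv, rfl⟩; exact h v hv
  have h2 := mem_hull_zero l (x '' S) h1 hp h0
  refine convexHull_mono ?_ h2
  rintro _ ⟨⟨v, hv, rfl⟩, hv0⟩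
  exact ⟨v, ⟨hv, hT v hv hv0⟩, rfl⟩

/-- Intersection of two hulls separated (weakly) by a functional: `l` vanishes on the hull of
`x '' S`, is nonnegative on `x '' T` and its zeros in `T` lie in `S`. -/
lemma hull_inter_of_sep (l : E →ᵃ[ℝ] ℝ) (x : V → E) (S T : Set V)
    (hS : ∀ v ∈ S, l (x v) = 0) (hT : ∀ v ∈ T, 0 ≤ l (x v))
    (hz : ∀ v ∈ T, l (x v) = 0 → v ∈ S) :
    convexHull ℝ (x '' S) ∩ convexHull ℝ (x '' T) = convexHull ℝ (x '' (S ∩ T)) := by
  apply Subset.antisymm
  · rintro p ⟨hp1, hp2⟩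
    have h0 : l p = 0 := by
      apply aff_eq_of_mem l (x '' S) _ p hp1
      rintro _ ⟨v, hv, rfl⟩; exact hS v hv
    have := mem_hull_zero_image l x T S hT hz hp2 h0
    rwa [inter_comm]
  · intro p hp
    exact ⟨convexHull_mono (image_mono inter_subset_left) hp,
      convexHull_mono (image_mono inter_subset_right) hp⟩

end conv

section defs

variable {V : Type*} [DecidableEq V]
variable {E : Type*} [NormedAddCommGroup E] [NormedSpace ℝ E]

/-- The combinatorial part of a realization. -/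
def Complex (F : Finset (Finset V)) (x : V → E) : Prop :=
  Function.Injective x ∧
  (∀ i : V, ∃ f ∈ F, i ∈ f) ∧
  (∀ f ∈ F, 3 ≤ f.card ∧ finrank ℝ (vectorSpan ℝ (x '' (f : Set V))) = 2 ∧
    ∀ i ∈ f, x i ∉ convexHull ℝ (x '' ((f : Set V) \ {i}))) ∧
  (∀ f ∈ F, ∀ g ∈ F, f ≠ g →
    convexHull ℝ (x '' (f : Set V)) ∩ convexHull ℝ (x '' (g : Set V))
      = convexHull ℝ (x '' ((f ∩ g : Finset V) : Set V)) ∧
    (f ∩ g).card ≤ 2 ∧
    ((f ∩ g).card = 2 →
      finrank ℝ (vectorSpan ℝ (x '' ((f : Set V) ∪ (g : Set V)))) = 3))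

end defs

end Pool.Agent.Helper183.Collar
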