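import Pool.Agent.Helper183_Collar.Combin2

set_option autoImplicit false
set_option linter.unusedSectionVars false

namespace Pool.Agent.Helper183.Collar

open Set Module

namespace Drilled

variable {V : Type*} [Fintype V] [DecidableEq V] {n : ℕ} {T : Tunnel n}
    {X : V → ℂ × ℝ} {F : Finset (Finset V)} {a b : Fin 3 → V} (D : Drilled T X F a b)

include D

/-- What we have to show for a pair of faces. -/
def Good (T : Tunnel n) (X : V → ℂ × ℝ) (f g : Finset (V ⊕ (Fin n × Fin 3))) : Prop :=
  convexHull ℝ (place T X '' (f : Set _)) ∩ convexHull ℝ (place T X '' (g : Set _))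
      = convexHull ℝ (place T X '' ((f ∩ g : Finset _) : Set _)) ∧
    (f ∩ g).card ≤ 2 ∧
    ((f ∩ g).card = 2 →
      finrank ℝ (vectorSpan ℝ (place T X '' ((f : Set _) ∪ (g : Set _)))) = 3)

omit D in
lemma Good.symm {f g : Finset (V ⊕ (Fin n × Fin 3))} (h : Good T X f g) : Good T X g f := by
  obtain ⟨h1, h2, h3⟩ := h
  refine ⟨?_, ?_, ?_⟩
  · rw [inter_comm, Finset.inter_comm]; exact h1
  · rw [Finset.inter_comm]; exact h2
  · rw [Finset.inter_comm, union_comm]; exact h3

lemma good_outer {f g : Finset V} (hf : f ∈ F) (hg : g ∈ F) (hne : f ≠ g) :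
    Good T X (f.image Sum.inl) (g.image Sum.inl) := by
  refine ⟨D.outer_sep hf _, ?_, fun _ => ?_⟩
  · rw [← Finset.image_inter _ _ Sum.inl_injective,
      Finset.card_image_of_injective _ Sum.inl_injective]
    exact D.poly.card_inter finrank_CR hf hg hne
  · obtain ⟨v, hv, hv'⟩ := Finset.not_subset.1 (D.poly.not_subset hg hf hne.symm)
    refine D.outer_rank hf (v := Sum.inl v) ?_ ?_
    · simpa using hv
    · simpa using hv'

lemma good_outer_quad {f : Finset V} (hf : f ∈ F) {i : ℕ} (hi : i ≤ n) (k : Fin 3) :
    Good T X (f.image Sum.inl) (quad a b n i k) := by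
  have hn := D.n1
  refine ⟨D.outer_sep hf _, ?_, fun _ => ?_⟩
  · rcases Nat.eq_zero_or_pos i with h0 | h0
    · subst h0
      have : f.image Sum.inl ∩ quad a b n 0 k ⊆ {node a b n 0 (k + 1), node a b n 0 (k + 2)} := by
        intro v hv
        rw [Finset.mem_inter] at hv
        obtain ⟨j, hj, h | h⟩ := mem_quad.1 hv.2
        · rcases Tunnel.cases3 k j with e | e | e
          · exact absurd e hj
          · subst e; simp [h]
          · subst e; simp [h]
        · obtain ⟨q, hq⟩ := node_inr (a := a) (b := b) (n := n) (i := 0 + 1) le_rfl (by omega) j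
          rw [hq] at h
          subst h
          simp at hv
      exact (Finset.card_le_card this).trans Finset.card_le_two
    · have : f.image Sum.inl ∩ quad a b n i k ⊆
          {node a b n (i + 1) (k + 1), node a b n (i + 1) (k + 2)} := by
        intro v hv
        rw [Finset.mem_inter] at hv
        obtain ⟨j, hj, h | h⟩ := mem_quad.1 hv.2
        · obtain ⟨q, hq⟩ := node_inr (a := a) (b := b) (n := n) (i := i) h0 (by omega) j
          rw [hq] at h
          subst h
          simp at hv
        · rcases Tunnel.cases3 k j with e | e | e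
          · exact absurd e hj
          · subst e; simp [h]
          · subst e; simp [h]
      exact (Finset.card_le_card this).trans Finset.card_le_two
  · rcases Nat.eq_zero_or_pos i with h0 | h0
    · subst h0
      obtain ⟨q, hq⟩ := node_inr (a := a) (b := b) (n := n) (i := 0 + 1) le_rfl (by omega) (k + 1)
      refine D.outer_rank hf (v := Sum.inr q) ?_ (by simp)
      rw [← hq]
      exact mem_quad.2 ⟨k + 1, Tunnel.ne1 k, Or.inr rfl⟩
    · obtain ⟨q, hq⟩ := node_inr (a := a) (b := b) (n := n) (i := i) h0 (by omega) (k + 1)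
      refine D.outer_rank hf (v := Sum.inr q) ?_ (by simp)
      rw [← hq]
      exact mem_quad.2 ⟨k + 1, Tunnel.ne1 k, Or.inl rfl⟩

lemma quad_nonneg {i : ℕ} (hi : i ≤ n) (k l : Fin 3) {v : V ⊕ (Fin n × Fin 3)}
    (hv : v ∈ quad a b n i l) : 0 ≤ T.L i k (place T X v) ∧
      (T.L i k (place T X v) = 0 → v ∈ quad a b n i k) := by
  obtain ⟨j, hj, h | h⟩ := mem_quad.1 hv
  · rw [h, D.place_node (by omega)]
    by_cases hjk : j = k
    · subst hjk
      have := (T.Lpos i hi j).1
      exact ⟨this.le, fun h => absurd h this.ne'⟩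
    · refine ⟨(T.L0 i hi k j hjk).1.ge, fun _ => mem_quad.2 ⟨j, hjk, Or.inl rfl⟩⟩
  · rw [h, D.place_node (by omega)]
    by_cases hjk : j = k
    · subst hjk
      have := (T.Lpos i hi j).2
      exact ⟨this.le, fun h => absurd h this.ne'⟩
    · refine ⟨(T.L0 i hi k j hjk).2.ge, fun _ => mem_quad.2 ⟨j, hjk, Or.inr rfl⟩⟩

lemma good_same {i : ℕ} (hi : i ≤ n) {k l : Fin 3} (hkl : k ≠ l) :
    Good T X (quad a b n i k) (quad a b n i l) := by
  refine ⟨?_, ?_, fun _ => ?_⟩
  · rw [Finset.coe_inter]
    apply hull_inter_of_sep (T.L i k)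
    · intro v hv; exact D.quad_vanish hi k (by exact_mod_cast hv)
    · intro v hv; exact (D.quad_nonneg hi k l (by exact_mod_cast hv)).1
    · intro v hv h; exact_mod_cast (D.quad_nonneg hi k l (by exact_mod_cast hv)).2 h
  · obtain ⟨m, hm⟩ : ∃ m : Fin 3, ∀ j, j ≠ k → j ≠ l → j = m := by
      revert hkl; revert k l; decide
    have : quad a b n i k ∩ quad a b n i l ⊆ {node a b n i m, node a b n (i + 1) m} := by
      intro v hv
      rw [Finset.mem_inter] at hv
      obtain ⟨j, hj, h⟩ := mem_quad.1 hv.1
      obtain ⟨j', hj', h'⟩ := mem_quad.1 hv.2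
      rcases h with h | h <;> rcases h' with h' | h'
      · have e := (D.node_inj (by omega) (by omega) (h.symm.trans h')).2
        subst e
        have := hm j hj hj'
        subst this
        simp [h]
      · have e := (D.node_inj (by omega) (by omega) (h.symm.trans h')).1
        omega
      · have e := (D.node_inj (by omega) (by omega) (h.symm.trans h')).1
        omega
      · have e := (D.node_inj (by omega) (by omega) (h.symm.trans h')).2
        subst e
        have := hm j hj hj'
        subst this
        simp [h]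
    exact (Finset.card_le_card this).trans Finset.card_le_two
  · refine rank_succ finrank_CR (D.quad_finrank hi k) (T.L i k) ?_
      (image_mono subset_union_left) (p := T.w i k) ⟨node a b n i k, Or.inr ?_, ?_⟩
      (T.Lpos i hi k).1.ne'
    · rintro _ ⟨v, hv, rfl⟩; exact D.quad_vanish hi k (by exact_mod_cast hv)
    · exact_mod_cast mem_quad.2 ⟨k, hkl, Or.inl rfl⟩
    · exact D.place_node (by omega) _

lemma good_adj {i : ℕ} (hi : i < n) (k l : Fin 3) :
    Good T X (quad a b n i k) (quad a b n (i + 1) l) := by
  refine ⟨?_, ?_, fun h2 => ?_⟩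
  · apply Subset.antisymm
    · rintro p ⟨hp, hq⟩
      have h1 : T.ω (i + 1) p ≤ 0 := by
        rw [D.quad_hull hi.le] at hp
        exact T.face_ωhi hi.le hp
      have h2 : 0 ≤ T.ω (i + 1) p := by
        rw [D.quad_hull hi] at hq
        exact T.face_ωlo hi hq
      have h0 : T.ω (i + 1) p = 0 := le_antisymm h1 h2
      have hp' : p ∈ convexHull ℝ (place T X '' ((quad a b n i k : Set _) ∩
          {v | ∃ j, j ≠ k ∧ v = node a b n (i + 1) j})) := by
        apply mem_hull_zero_image (-T.ω (i + 1)) _ _ _ _ _ hp
        · show - T.ω (i + 1) p = 0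
          rw [h0, neg_zero]
        · intro v hv
          show 0 ≤ - T.ω (i + 1) (place T X v)
          obtain ⟨j, hj, h | h⟩ := mem_quad.1 (by exact_mod_cast hv : v ∈ quad a b n i k)
          · rw [h, D.place_node (by omega)]
            linarith [T.ωneg i hi.le j]
          · rw [h, D.place_node (by omega), T.ω0 (i + 1) (by omega), neg_zero]
        · intro v hv
          show - T.ω (i + 1) (place T X v) = 0 → _
          obtain ⟨j, hj, h | h⟩ := mem_quad.1 (by exact_mod_cast hv : v ∈ quad a b n i k)
          · rw [h, D.place_node (by omega)]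
            intro hc
            linarith [T.ωneg i hi.le j]
          · intro _; exact ⟨j, hj, h⟩
      have hq' : p ∈ convexHull ℝ (place T X '' ((quad a b n (i + 1) l : Set _) ∩
          {v | ∃ j, j ≠ l ∧ v = node a b n (i + 1) j})) := by
        apply mem_hull_zero_image (T.ω (i + 1)) _ _ _ _ _ hq h0
        · intro v hv
          obtain ⟨j, hj, h | h⟩ := mem_quad.1 (by exact_mod_cast hv : v ∈ quad a b n (i + 1) l)
          · rw [h, D.place_node (by omega), T.ω0 (i + 1) (by omega)]
          · rw [h, D.place_node (by omega)]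
            exact (T.ωpos (i + 1) hi j).le
        · intro v hv
          obtain ⟨j, hj, h | h⟩ := mem_quad.1 (by exact_mod_cast hv : v ∈ quad a b n (i + 1) l)
          · intro _; exact ⟨j, hj, h⟩
          · rw [h, D.place_node (by omega)]
            intro hc
            exact absurd hc (T.ωpos (i + 1) hi j).ne'
      have hsep := hull_inter_of_sep (T.L i k) (place T X)
        ((quad a b n i k : Set _) ∩ {v | ∃ j, j ≠ k ∧ v = node a b n (i + 1) j})
        ((quad a b n (i + 1) l : Set _) ∩ {v | ∃ j, j ≠ l ∧ v = node a b n (i + 1) j})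
        (fun v hv => D.quad_vanish hi.le k (by exact_mod_cast hv.1))
        (by
          rintro v ⟨_, j, hj, rfl⟩
          rw [D.place_node (by omega)]
          exact T.L_nonneg_w' hi.le k j)
        (by
          rintro v ⟨_, j, hj, rfl⟩
          rw [D.place_node (by omega)]
          intro hc
          have hjk : j ≠ k := by
            rintro rfl
            exact absurd hc (T.Lpos i hi.le j).2.ne'
          refine ⟨?_, j, hjk, rfl⟩
          exact_mod_cast mem_quad.2 ⟨j, hjk, Or.inr rfl⟩)
      have := hsep.le ⟨hp', hq'⟩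
      refine convexHull_mono (image_mono ?_) this
      rintro v ⟨⟨h1, _⟩, ⟨h2, _⟩⟩
      rw [Finset.coe_inter]
      exact ⟨h1, h2⟩
    · intro p hp
      rw [Finset.coe_inter] at hp
      exact ⟨convexHull_mono (image_mono inter_subset_left) hp,
        convexHull_mono (image_mono inter_subset_right) hp⟩
  · have : quad a b n i k ∩ quad a b n (i + 1) l ⊆
        {node a b n (i + 1) (k + 1), node a b n (i + 1) (k + 2)} := by
      intro v hv
      rw [Finset.mem_inter] at hv
      obtain ⟨j, hj, h⟩ := mem_quad.1 hv.1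
      obtain ⟨j', hj', h'⟩ := mem_quad.1 hv.2
      rcases h with h | h
      · rcases h' with h' | h'
        · have e := (D.node_inj (by omega) (by omega) (h.symm.trans h')).1
          omega
        · have e := (D.node_inj (by omega) (by omega) (h.symm.trans h')).1
          omega
      · rcases Tunnel.cases3 k j with e | e | e
        · exact absurd e hj
        · subst e; simp [h]
        · subst e; simp [h]
    exact (Finset.card_le_card this).trans Finset.card_le_two
  · -- the two faces span space
    refine rank_succ finrank_CR (D.quad_finrank hi.le k) (T.L i k) ?_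
      (image_mono subset_union_left)
      (p := if k = l then T.w (i + 2) (k + 1) else T.w (i + 1) k) ?_ ?_
    · rintro _ ⟨v, hv, rfl⟩; exact D.quad_vanish hi.le k (by exact_mod_cast hv)
    · split_ifs with hkl
      · subst hkl
        refine ⟨node a b n (i + 2) (k + 1), Or.inr ?_, D.place_node (by omega) _⟩
        exact_mod_cast mem_quad.2 ⟨k + 1, Tunnel.ne1 k, Or.inr rfl⟩
      · refine ⟨node a b n (i + 1) k, Or.inr ?_, D.place_node (by omega) _⟩
        exact_mod_cast mem_quad.2 ⟨k, hkl, Or.inl rfl⟩
    · split_ifs with hkl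
      · exact T.ncop i hi k
      · exact (T.Lpos i hi.le k).2.ne'

lemma good_far {i j : ℕ} (hij : i + 1 < j) (hj : j ≤ n) (k l : Fin 3) :
    Good T X (quad a b n i k) (quad a b n j l) := by
  have hemp : quad a b n i k ∩ quad a b n j l = ∅ := by
    rw [← Finset.not_nonempty_iff_eq_empty]
    rintro ⟨v, hv⟩
    rw [Finset.mem_inter] at hv
    obtain ⟨m, hm, h⟩ := mem_quad.1 hv.1
    obtain ⟨m', hm', h'⟩ := mem_quad.1 hv.2
    rcases h with h | h <;> rcases h' with h' | h' <;>
    · have e := (D.node_inj (by omega) (by omega) (h.symm.trans h')).1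
      omega
  refine ⟨?_, ?_, ?_⟩
  · rw [hemp, Finset.coe_empty, image_empty, convexHull_empty]
    rw [← Set.not_nonempty_iff_eq_empty]
    rintro ⟨p, hp, hq⟩
    rw [D.quad_hull (by omega)] at hp
    rw [D.quad_hull hj] at hq
    have h1 := T.face_lev (by omega) hp
    have h2 := T.face_lev hj hq
    have h3 := T.M_lt_m hij (by omega)
    linarith [h1.2, h2.1]
  · rw [hemp]; simp
  · rw [hemp]; simp

lemma good_quad {i j : ℕ} (hi : i ≤ n) (hj : j ≤ n) (k l : Fin 3)
    (hne : ¬ (i = j ∧ k = l)) : Good T X (quad a b n i k) (quad a b n j l) := by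
  rcases lt_trichotomy i j with h | h | h
  · rcases Nat.lt_or_ge (i + 1) j with h' | h'
    · exact D.good_far h' hj k l
    · have : j = i + 1 := by omega
      subst this
      exact D.good_adj (by omega) k l
  · subst h
    exact D.good_same hi (fun h => hne ⟨rfl, h⟩)
  · rcases Nat.lt_or_ge (j + 1) i with h' | h'
    · exact (D.good_far h' hi l k).symm
    · have : i = j + 1 := by omega
      subst this
      exact (D.good_adj (by omega) l k).symm

lemma place_inj : Function.Injective (place T X) := by
  have key : ∀ q v, place T X (Sum.inr q) ≠ X v := by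
    intro q v h
    have h1 := D.inr_int q
    rw [h] at h1
    obtain ⟨f, hf, hv⟩ := D.poly.cover v
    have : X v ∈ frontier (convexHull ℝ (range X)) := by
      rw [D.poly.bdry]
      exact mem_surf.2 ⟨f, hf, subset_convexHull ℝ _ ⟨v, hv, rfl⟩⟩
    exact this.2 h1
  rintro (v | q) (v' | q') h
  · rw [D.poly.inj h]
  · exact absurd h.symm (key q' v)
  · exact absurd h (key q v')
  · have h1 := q.1.2
    have h2 := q'.1.2
    have := T.w_inj (i := q.1 + 1) (j := q'.1 + 1) (by omega) (by omega) h
    have e1 : q.1 = q'.1 := Fin.ext (by omega)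
    rw [Prod.ext e1 this.2]

/-- The combinatorial conditions for the collared map. -/
theorem complex : Complex (collar F a b n) (place T X) := by
  refine ⟨D.place_inj, ?_, ?_, ?_⟩
  · rintro (v | q)
    · by_cases hb : ∃ k, v = b k
      · obtain ⟨k, rfl⟩ := hb
        refine ⟨quad a b n 0 (k + 1), mem_collar.2 (Or.inr ⟨0, by omega, _, rfl⟩), ?_⟩
        exact mem_quad.2 ⟨k, (Tunnel.ne1 k).symm, Or.inl rfl⟩
      by_cases ha : ∃ k, v = a k
      · obtain ⟨k, rfl⟩ := ha
        refine ⟨quad a b n n (k + 1), mem_collar.2 (Or.inr ⟨n, le_rfl, _, rfl⟩), ?_⟩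
        refine mem_quad.2 ⟨k, (Tunnel.ne1 k).symm, Or.inr ?_⟩
        simp [node]
      · obtain ⟨f, hf, hv⟩ := D.poly.cover v
        refine ⟨f.image Sum.inl, mem_collar.2 (Or.inl ⟨f, mem_outerF.2 ⟨hf, ?_, ?_⟩, rfl⟩), ?_⟩
        · rintro rfl
          simp only [Finset.mem_image, Finset.mem_univ, true_and] at hv
          obtain ⟨k, hk⟩ := hv
          exact ha ⟨k, hk.symm⟩
        · rintro rfl
          simp only [Finset.mem_image, Finset.mem_univ, true_and] at hv
          obtain ⟨k, hk⟩ := hv
          exact hb ⟨k, hk.symm⟩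
        · simpa using hv
    · have hq := q.1.2
      refine ⟨quad a b n (q.1 + 1) (q.2 + 1), mem_collar.2 (Or.inr ⟨_, by omega, _, rfl⟩), ?_⟩
      refine mem_quad.2 ⟨q.2, (Tunnel.ne1 _).symm, Or.inl ?_⟩
      simp [node]
  · intro g hg
    rcases mem_collar.1 hg with ⟨f, hf, rfl⟩ | ⟨i, hi, k, rfl⟩
    · have hfF := (mem_outerF.1 hf).1
      have hr := D.poly.rank f hfF
      refine ⟨?_, ?_, ?_⟩
      · rw [Finset.card_image_of_injective _ Sum.inl_injective]
        by_contra hc
        push Not at hc
        have h1 : finrank ℝ (vectorSpan ℝ (X '' (f : Set V))) ≤ 1 := by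
          have h2 : f.card ≤ 2 := by omega
          rcases f.eq_empty_or_nonempty with h | h
          · subst h
            rw [Finset.coe_empty, image_empty, vectorSpan_empty]; simp
          · have := finrank_vectorSpan_image_finset_le ℝ X f (n := f.card - 1)
              (by have := h.card_pos; omega)
            rw [Finset.coe_image] at this
            omega
        omega
      · rw [place_image_inl]; exact hr
      · intro v hv
        obtain ⟨u, hu, rfl⟩ := Finset.mem_image.1 hv
        intro hc
        apply D.poly.vert u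
        refine convexHull_mono ?_ hc
        rintro _ ⟨v', ⟨hv', hne⟩, rfl⟩
        obtain ⟨u', hu', rfl⟩ := Finset.mem_image.1 (by exact_mod_cast hv' :
          v' ∈ f.image Sum.inl)
        refine ⟨u', ?_, rfl⟩
        intro h
        apply hne
        rw [mem_singleton_iff] at h
        rw [h]; rfl
    · exact ⟨D.quad_card hi k, D.quad_finrank hi k, fun v hv => D.quad_vert hi k hv⟩
  · intro g hg h hh hne
    rcases mem_collar.1 hg with ⟨f, hf, rfl⟩ | ⟨i, hi, k, rfl⟩ <;>
    rcases mem_collar.1 hh with ⟨f', hf', rfl⟩ | ⟨j, hj, l, rfl⟩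
    · exact D.good_outer (mem_outerF.1 hf).1 (mem_outerF.1 hf').1 (fun e => hne (by rw [e]))
    · exact D.good_outer_quad (mem_outerF.1 hf).1 hj l
    · exact (D.good_outer_quad (mem_outerF.1 hf').1 hi k).symm
    · exact D.good_quad hi hj k l (fun e => hne (by rw [e.1, e.2]))

lemma surf_eq : surf (collar F a b n) (place T X) = surf (outerF F a b) X ∪ T.inner := by
  ext p
  rw [mem_surf, mem_union, mem_surf, T.mem_inner]
  constructor
  · rintro ⟨g, hg, hp⟩
    rcases mem_collar.1 hg with ⟨f, hf, rfl⟩ | ⟨i, hi, k, rfl⟩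
    · left
      rw [place_image_inl] at hp
      exact ⟨f, hf, hp⟩
    · right
      rw [D.quad_hull hi] at hp
      exact ⟨i, hi, k, hp⟩
  · rintro (⟨f, hf, hp⟩ | ⟨i, hi, k, hp⟩)
    · refine ⟨f.image Sum.inl, mem_collar.2 (Or.inl ⟨f, hf, rfl⟩), ?_⟩
      rw [place_image_inl]; exact hp
    · refine ⟨quad a b n i k, mem_collar.2 (Or.inr ⟨i, hi, k, rfl⟩), ?_⟩
      rw [D.quad_hull hi]; exact hp

/-- The collared map is realized as an unknotted torus. -/
theorem collar_unknotted : Complex (collar F a b n) (place T X) ∧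
    ∃ H : (ℂ × ℝ) ≃ₜ (ℂ × ℝ), H '' surf (collar F a b n) (place T X) = roundTorus := by
  refine ⟨D.complex, ?_⟩
  rw [D.surf_eq]
  exact D.unknotted

end Drilled

end Pool.Agent.Helper183.Collar
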