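import Pool.Agent.Helper183_Collar.Outer2

set_option autoImplicit false

namespace Pool.Agent.Helper183.Collar

open Set Filter Topology Module

section

variable {V : Type*} [DecidableEq V]
variable {E E' : Type*} [NormedAddCommGroup E] [NormedSpace ℝ E] [FiniteDimensional ℝ E]
  [NormedAddCommGroup E'] [NormedSpace ℝ E'] [FiniteDimensional ℝ E']

lemma hull_map (e : E ≃ᵃ[ℝ] E') (S : Set E) :
    convexHull ℝ (e '' S) = e '' convexHull ℝ S :=
  ((e : E →ᵃ[ℝ] E').image_convexHull S).symm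

lemma hull_map_comp (e : E ≃ᵃ[ℝ] E') (x : V → E) (S : Set V) :
    convexHull ℝ ((e ∘ x) '' S) = e '' convexHull ℝ (x '' S) := by
  rw [image_comp, hull_map]

lemma finrank_map (e : E ≃ᵃ[ℝ] E') (x : V → E) (S : Set V) :
    finrank ℝ (vectorSpan ℝ ((e ∘ x) '' S)) = finrank ℝ (vectorSpan ℝ (x '' S)) := by
  rw [image_comp]
  have h := (e : E →ᵃ[ℝ] E').vectorSpan_image_eq_submodule_map (s := x '' S)
  have h' : vectorSpan ℝ (e '' (x '' S)) = Submodule.map (e.linear : E →ₗ[ℝ] E')
      (vectorSpan ℝ (x '' S)) := h.symm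
  rw [h']
  exact LinearEquiv.finrank_map_eq e.linear _

lemma surf_map (e : E ≃ᵃ[ℝ] E') (F : Finset (Finset V)) (x : V → E) :
    surf F (e ∘ x) = e '' surf F x := by
  ext p
  rw [mem_surf]
  constructor
  · rintro ⟨f, hf, h⟩
    rw [hull_map_comp] at h
    obtain ⟨q, hq, rfl⟩ := h
    exact ⟨q, mem_surf.2 ⟨f, hf, hq⟩, rfl⟩
  · rintro ⟨q, hq, rfl⟩
    obtain ⟨f, hf, h⟩ := mem_surf.1 hq
    refine ⟨f, hf, ?_⟩
    rw [hull_map_comp]
    exact ⟨q, h, rfl⟩

lemma frontier_map (e : E ≃ᵃ[ℝ] E') (S : Set E) : frontier (e '' S) = e '' frontier S :=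
  (e.toHomeomorphOfFiniteDimensional.image_frontier S).symm

lemma interior_map (e : E ≃ᵃ[ℝ] E') (S : Set E) : interior (e '' S) = e '' interior S :=
  (e.toHomeomorphOfFiniteDimensional.image_interior S).symm

lemma IsPolytope.map (e : E ≃ᵃ[ℝ] E') {x : V → E} {F : Finset (Finset V)}
    (h : IsPolytope x F) : IsPolytope (e ∘ x) F where
  vert v hv := by
    rw [hull_map_comp] at hv
    obtain ⟨q, hq, he⟩ := hv
    rw [e.injective he] at hq
    exact h.vert v hq
  cover := h.cover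
  facet f hf := by
    obtain ⟨l, h1, h2⟩ := h.facet f hf
    refine ⟨l.comp (e.symm : E' →ᵃ[ℝ] E), ?_, ?_⟩
    · intro v hv
      simpa using h1 v hv
    · intro v hv
      simpa using h2 v hv
  rank f hf := by rw [finrank_map]; exact h.rank f hf
  bdry := by
    rw [range_comp, hull_map, frontier_map, h.bdry, surf_map]
  int := by
    rw [range_comp, hull_map, interior_map]
    exact h.int.image _

lemma Complex.map (e : E ≃ᵃ[ℝ] E') {x : V → E} {F : Finset (Finset V)}
    (h : Complex F x) : Complex F (e ∘ x) := by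
  obtain ⟨h1, h2, h3, h4⟩ := h
  refine ⟨e.injective.comp h1, h2, ?_, ?_⟩
  · intro f hf
    obtain ⟨a1, a2, a3⟩ := h3 f hf
    refine ⟨a1, by rw [finrank_map]; exact a2, fun i hi hc => ?_⟩
    rw [hull_map_comp] at hc
    obtain ⟨q, hq, he⟩ := hc
    rw [e.injective he] at hq
    exact a3 i hi hq
  · intro f hf g hg hne
    obtain ⟨a1, a2, a3⟩ := h4 f hf g hg hne
    refine ⟨?_, a2, fun hc => ?_⟩
    · rw [hull_map_comp, hull_map_comp, hull_map_comp, ← image_inter e.injective, a1]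
    · rw [finrank_map]; exact a3 hc

end

end Pool.Agent.Helper183.Collar
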