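import Pool.Agent.Helper183_Collar.Raw
import Pool.Agent.Helper183_Collar.Transfer
import Pool.Agent.Helper183_Collar.Combin3

set_option autoImplicit false

namespace Pool.Agent.Helper183.Collar

open Set Filter Topology Module

/-- The affine map of space used for the closing. -/
noncomputable def psiE (Λ H K : ℝ) (hΛ : Λ ≠ 0) (hH : H ≠ 0) (f g : ℂ) :
    (ℂ × ℝ) ≃ᵃ[ℝ] (ℂ × ℝ) where
  toFun p := (Λ • p.1 + f + p.2 • g, -K + p.2 * H)
  invFun p := (Λ⁻¹ • (p.1 - f - ((p.2 + K) / H) • g), (p.2 + K) / H)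
  left_inv p := by
    refine Prod.ext ?_ ?_
    · show Λ⁻¹ • (Λ • p.1 + f + p.2 • g - f - ((-K + p.2 * H + K) / H) • g) = p.1
      have : (-K + p.2 * H + K) / H = p.2 := by field_simp; ring
      rw [this]
      have e : Λ • p.1 + f + p.2 • g - f - p.2 • g = Λ • p.1 := by abel
      rw [e, smul_smul, inv_mul_cancel₀ hΛ, one_smul]
    · show (-K + p.2 * H + K) / H = p.2
      field_simp; ring
  right_inv p := by
    refine Prod.ext ?_ ?_
    · show Λ • (Λ⁻¹ • (p.1 - f - ((p.2 + K) / H) • g)) + f + ((p.2 + K) / H) • g = p.1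
      rw [smul_smul, mul_inv_cancel₀ hΛ, one_smul]; abel
    · show -K + (p.2 + K) / H * H = p.2
      field_simp; ring
  linear :=
    { toFun := fun p => (Λ • p.1 + p.2 • g, p.2 * H)
      map_add' := fun p q => by
        refine Prod.ext ?_ ?_
        · show Λ • (p.1 + q.1) + (p.2 + q.2) • g = Λ • p.1 + p.2 • g + (Λ • q.1 + q.2 • g)
          module
        · show (p.2 + q.2) * H = p.2 * H + q.2 * H
          ring
      map_smul' := fun t p => by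
        refine Prod.ext ?_ ?_
        · show Λ • (t • p.1) + (t * p.2) • g = t • (Λ • p.1 + p.2 • g)
          module
        · show t * p.2 * H = t * (p.2 * H)
          ring
      invFun := fun p => (Λ⁻¹ • (p.1 - (p.2 / H) • g), p.2 / H)
      left_inv := fun p => by
        refine Prod.ext ?_ ?_
        · show Λ⁻¹ • (Λ • p.1 + p.2 • g - ((p.2 * H) / H) • g) = p.1
          rw [mul_div_cancel_right₀ _ hH]
          have e : Λ • p.1 + p.2 • g - p.2 • g = Λ • p.1 := by abel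
          rw [e, smul_smul, inv_mul_cancel₀ hΛ, one_smul]
        · show (p.2 * H) / H = p.2
          exact mul_div_cancel_right₀ _ hH
      right_inv := fun p => by
        refine Prod.ext ?_ ?_
        · show Λ • (Λ⁻¹ • (p.1 - (p.2 / H) • g)) + (p.2 / H) • g = p.1
          rw [smul_smul, mul_inv_cancel₀ hΛ, one_smul]; abel
        · show p.2 / H * H = p.2
          field_simp }
  map_vadd' p q := by
    refine Prod.ext ?_ ?_
    · show Λ • (q.1 + p.1) + f + (q.2 + p.2) • g = (Λ • q.1 + q.2 • g) + (Λ • p.1 + f + p.2 • g)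
      module
    · show -K + (q.2 + p.2) * H = q.2 * H + (-K + p.2 * H)
      ring

lemma psiE_apply (Λ H K : ℝ) (hΛ : Λ ≠ 0) (hH : H ≠ 0) (f g : ℂ) (y : ℂ) (t : ℝ) :
    psiE Λ H K hΛ hH f g (y, t) = (Λ • y + f + t • g, -K + t * H) := rfl

section lim

variable (k : ℕ → Fin 3) (u : ℕ → Fin 3 → ℂ) (r : ℕ) (w0 θ : ℕ → ℝ) (G μ : ℝ)

lemma cont_Vv (i : ℕ) : Continuous (fun ε : ℝ => Vv k u (fun j => w0 j + ε * θ j) i) := by
  unfold Vv
  apply Continuous.neg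
  apply continuous_finset_sum
  intro j _
  fun_prop

lemma cont_off (i : ℕ) : Continuous (fun ε : ℝ => off k u (fun j => w0 j + ε * θ j) G i) := by
  unfold off
  have h : Continuous (fun ε : ℝ => ∑ j ∈ Finset.range i,
      Vv k u (fun j => w0 j + ε * θ j) (j + 1)) :=
    continuous_finset_sum _ (fun j _ => cont_Vv k u w0 θ (j + 1))
  exact h.const_smul G

lemma cont_bet (i : ℕ) : Continuous (fun ε : ℝ => bet r (ε ^ 2 - ε) (ε / μ - ε ^ 2) i) := by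
  unfold bet
  split_ifs <;> fun_prop

lemma bet_zero (i : ℕ) : bet r ((0 : ℝ) ^ 2 - 0) (0 / μ - (0 : ℝ) ^ 2) i = 0 := by
  unfold bet
  split_ifs <;> simp

/-- the pull back of a point of the block to the original polytope -/
noncomputable def pull (B0 A' t0 z : ℂ) (ε : ℝ) (offr : ℂ) (H0 : ℝ) (y : ℂ) (t : ℝ) : ℂ × ℝ :=
  (ε • y + (1 - (1 + ε ^ 2 * t) / (2 + ε ^ 2 * H0)) • ((1 - ε) • B0)
    + ((1 + ε ^ 2 * t) / (2 + ε ^ 2 * H0)) • (z + (1 - μ * ε) • A' - ε • (offr + t0)),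
    (1 + ε ^ 2 * t) / (2 + ε ^ 2 * H0))

lemma pull_spec (B0 A' t0 z : ℂ) {ε : ℝ} (hε : 0 < ε) (offr : ℂ) {H0 : ℝ} (hH0 : 0 ≤ H0)
    (y : ℂ) (t : ℝ) (h1 : ε⁻¹ ≠ 0) (h2 : 2 * (ε ^ 2)⁻¹ + H0 ≠ 0) :
    psiE ε⁻¹ (2 * (ε ^ 2)⁻¹ + H0) (ε ^ 2)⁻¹ h1 h2 ((1 - ε⁻¹) • B0)
      ((offr + t0 - ε⁻¹ • z - (ε⁻¹ - μ) • A') - (1 - ε⁻¹) • B0)
      (pull μ B0 A' t0 z ε offr H0 y t) = (y, t) := by
  have hε' := hε.ne'
  have hpos : 0 < 2 + ε ^ 2 * H0 := by positivity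
  rw [pull, psiE_apply]
  set τ := (1 + ε ^ 2 * t) / (2 + ε ^ 2 * H0) with hτ
  refine Prod.ext ?_ ?_
  · show ε⁻¹ • (ε • y + (1 - τ) • ((1 - ε) • B0) + τ • (z + (1 - μ * ε) • A' - ε • (offr + t0)))
      + (1 - ε⁻¹) • B0 + τ • ((offr + t0 - ε⁻¹ • z - (ε⁻¹ - μ) • A') - (1 - ε⁻¹) • B0) = y
    have e1 : ε⁻¹ • (ε • y + (1 - τ) • ((1 - ε) • B0)
        + τ • (z + (1 - μ * ε) • A' - ε • (offr + t0)))
        = (ε⁻¹ * ε) • y + ((1 - τ) * (ε⁻¹ - ε⁻¹ * ε)) • B0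
          + τ • (ε⁻¹ • z + (ε⁻¹ - μ * (ε⁻¹ * ε)) • A' - (ε⁻¹ * ε) • (offr + t0)) := by
      module
    rw [e1, inv_mul_cancel₀ hε']
    module
  · show -(ε ^ 2)⁻¹ + τ * (2 * (ε ^ 2)⁻¹ + H0) = t
    rw [hτ]
    field_simp
    ring

lemma pull_lim (B0 A' t0 o : ℂ) (offr y : ℝ → ℂ) (H0 : ℝ) (t : ℝ → ℝ)
    (ho : ContinuousAt offr 0) (hy : ContinuousAt y 0) (ht : ContinuousAt t 0) :
    Tendsto (fun ε : ℝ => pull μ B0 A' t0 ((2 : ℝ) • o - B0 - A') ε (offr ε) H0 (y ε) (t ε))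
      (𝓝 0) (𝓝 (o, 1 / 2)) := by
  have h : ContinuousAt (fun ε : ℝ =>
      pull μ B0 A' t0 ((2 : ℝ) • o - B0 - A') ε (offr ε) H0 (y ε) (t ε)) 0 := by
    have hden : ContinuousAt (fun ε : ℝ => (1 + ε ^ 2 * t ε) / (2 + ε ^ 2 * H0)) 0 := by
      apply ContinuousAt.div
      · fun_prop
      · fun_prop
      · norm_num
    unfold pull
    apply ContinuousAt.prodMk
    · fun_prop
    · exact hden
  have e : pull μ B0 A' t0 ((2 : ℝ) • o - B0 - A') 0 (offr 0) H0 (y 0) (t 0) = (o, 1 / 2) := by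
    have e3 : (1 + (0 : ℝ) ^ 2 * t 0) / (2 + (0 : ℝ) ^ 2 * H0) = 1 / 2 := by norm_num
    unfold pull
    rw [e3]
    refine Prod.ext ?_ rfl
    show (0 : ℝ) • y 0 + (1 - (1 / 2 : ℝ)) • ((1 - (0 : ℝ)) • B0) + (1 / 2 : ℝ) •
      ((2 : ℝ) • o - B0 - A' + (1 - μ * 0) • A' - (0 : ℝ) • (offr 0 + t0)) = o
    module
  have := h.tendsto
  rwa [e] at this

end lim

end Pool.Agent.Helper183.Collar
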