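import Pool.Agent.Helper183_Collar.Closing

set_option autoImplicit false

namespace Pool.Agent.Helper183.Collar

open Set Filter Topology Module

/-- An interior point on the middle level. -/
lemma exists_mid {V : Type*} [Fintype V] {X : V → ℂ × ℝ}
    (hint : (interior (convexHull ℝ (range X))).Nonempty) {va vb : V} (ha : (X va).2 = 1)
    (hb : (X vb).2 = 0) (lev : ∀ v, 0 ≤ (X v).2 ∧ (X v).2 ≤ 1) :
    ∃ o : ℂ, ((o, 1 / 2) : ℂ × ℝ) ∈ interior (convexHull ℝ (range X)) := by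
  obtain ⟨⟨y, t⟩, hp⟩ := hint
  have hcv := convex_convexHull ℝ (range X)
  have hmem : ((y, t) : ℂ × ℝ) ∈ {p : ℂ × ℝ | 0 ≤ p.2 ∧ p.2 ≤ 1} := by
    refine convexHull_min ?_ (Tunnel.convex_lev 0 1) (interior_subset hp)
    rintro _ ⟨v, rfl⟩; exact lev v
  have h0 : 0 ≤ t := hmem.1
  have h1 : t ≤ 1 := hmem.2
  have hXa : X va ∈ convexHull ℝ (range X) := subset_convexHull ℝ _ ⟨va, rfl⟩
  have hXb : X vb ∈ convexHull ℝ (range X) := subset_convexHull ℝ _ ⟨vb, rfl⟩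
  rcases le_total t (1 / 2) with h | h
  · -- combine with the top
    have h2 : 0 < 1 - t := by linarith
    set l := (1 / 2 - t) / (1 - t) with hl
    have hl0 : 0 ≤ l := div_nonneg (by linarith) h2.le
    have hl1 : l < 1 := by rw [hl, div_lt_one h2]; linarith
    have := hcv.combo_interior_self_mem_interior hp hXa (a := 1 - l) (b := l) (by linarith) hl0
      (by ring)
    refine ⟨(1 - l) • y + l • (X va).1, ?_⟩
    convert this using 1
    refine Prod.ext rfl ?_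
    show (1 / 2 : ℝ) = (1 - l) * t + l * (X va).2
    rw [ha, hl]; field_simp; ring
  · have h2 : 0 < t := by linarith
    set l := (t - 1 / 2) / t with hl
    have hl0 : 0 ≤ l := div_nonneg (by linarith) h2.le
    have hl1 : l < 1 := by rw [hl, div_lt_one h2]; linarith
    have := hcv.combo_interior_self_mem_interior hp hXb (a := 1 - l) (b := l) (by linarith) hl0
      (by ring)
    refine ⟨(1 - l) • y + l • (X vb).1, ?_⟩
    convert this using 1
    refine Prod.ext rfl ?_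
    show (1 / 2 : ℝ) = (1 - l) * t + l * (X vb).2
    rw [hb, hl]; field_simp; ring

/-- For small `ε` the data are admissible. -/
lemma ready_eventually {k : ℕ → Fin 3} {u : ℕ → Fin 3 → ℂ} {r : ℕ} (hr : 2 ≤ r) {w0 θ : ℕ → ℝ}
    (step : ∀ i < r, Step (k i) (u i) (u (i + 1))) (hw : ∀ i < r, w0 i ≠ 0) {G μ : ℝ}
    (hG : ∀ i < r, |(w0 i)⁻¹| < G / 2) (hμ : 0 < μ) :
    ∀ᶠ ε in 𝓝[>] (0 : ℝ), Ready k u r (fun j => w0 j + ε * θ j) G (ε ^ 2 - ε) (ε / μ - ε ^ 2)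
      (-(ε ^ 2)⁻¹) (((r - 1 : ℕ) : ℝ) * G + (ε ^ 2)⁻¹) := by
  have hpos : ∀ᶠ ε in 𝓝[>] (0 : ℝ), 0 < ε := self_mem_nhdsWithin
  have hle : 𝓝[>] (0 : ℝ) ≤ 𝓝 0 := nhdsWithin_le_nhds
  have cω : ∀ i, Continuous (fun ε : ℝ => w0 i + ε * θ i) := fun i => by fun_prop
  have e1 : ∀ᶠ ε in 𝓝[>] (0 : ℝ), ∀ i ∈ Finset.range r, w0 i + ε * θ i ≠ 0 := by
    rw [Filter.eventually_all_finset]
    intro i hi
    rw [Finset.mem_range] at hi
    apply hle
    have := (cω i).continuousAt (x := 0)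
    apply this.eventually_ne
    simpa using hw i hi
  have cinv : ∀ i < r, ContinuousAt (fun ε : ℝ => (w0 i + ε * θ i)⁻¹) 0 := by
    intro i hi
    apply ((cω i).continuousAt).inv₀
    simpa using hw i hi
  have e2 : ∀ᶠ ε in 𝓝[>] (0 : ℝ), ∀ i ∈ Finset.range r, |(w0 i + ε * θ i)⁻¹| < G / 2 := by
    rw [Filter.eventually_all_finset]
    intro i hi
    rw [Finset.mem_range] at hi
    apply hle
    have := (cinv i hi).abs
    apply this.tendsto.eventually_lt_const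
    simpa using hG i hi
  have e3 : ∀ᶠ ε in 𝓝[>] (0 : ℝ), 0 < 1 + (ε ^ 2 - ε) * (w0 0 + ε * θ 0)⁻¹ := by
    apply hle
    have h := cinv 0 (by omega)
    have : ContinuousAt (fun ε : ℝ => 1 + (ε ^ 2 - ε) * (w0 0 + ε * θ 0)⁻¹) 0 := by fun_prop
    apply this.tendsto.eventually_const_lt
    norm_num
  have e4 : ∀ᶠ ε in 𝓝[>] (0 : ℝ),
      0 < 1 + (ε / μ - ε ^ 2) * (w0 (r - 1) + ε * θ (r - 1))⁻¹ := by
    apply hle
    have h := cinv (r - 1) (by omega)
    have : ContinuousAt (fun ε : ℝ => 1 + (ε / μ - ε ^ 2) *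
      (w0 (r - 1) + ε * θ (r - 1))⁻¹) 0 := by fun_prop
    apply this.tendsto.eventually_const_lt
    norm_num
  have hG0 : 0 < G / 2 := lt_of_le_of_lt (abs_nonneg _) (hG 0 (by omega))
  have e5 : ∀ᶠ ε in 𝓝[>] (0 : ℝ), G / 2 < (ε ^ 2)⁻¹ := by
    have h1 : ∀ᶠ ε in 𝓝[>] (0 : ℝ), ε ^ 2 < (G / 2)⁻¹ := by
      apply hle
      have : ContinuousAt (fun ε : ℝ => ε ^ 2) 0 := by fun_prop
      apply this.tendsto.eventually_lt_const
      have := inv_pos.2 hG0
      simpa using this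
    filter_upwards [h1, hpos] with ε h2 h3
    rw [lt_inv_comm₀ hG0 (by positivity)]
    exact h2
  have e6 : ∀ᶠ ε in 𝓝[>] (0 : ℝ), ∀ i ∈ Finset.range r, ∀ j : Fin 3,
      dt (edge (u i) j) ((rbar k u r (fun j => w0 j + ε * θ j) G (ε ^ 2 - ε) (ε / μ - ε ^ 2)
        (i + 1)).vel (j + 1) - (rbar k u r (fun j => w0 j + ε * θ j) G (ε ^ 2 - ε)
        (ε / μ - ε ^ 2) i).vel (j + 1)) ≠ 0 := by
    rw [Filter.eventually_all_finset]
    intro i hi
    rw [Finset.mem_range] at hi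
    rw [eventually_all]
    intro j
    apply hle
    simp only [rbar_vel]
    have c1 := cont_Vv k u w0 θ i
    have c2 := cont_Vv k u w0 θ (i + 1)
    have c3 := cont_bet r μ i
    have c4 := cont_bet r μ (i + 1)
    have hc : Continuous (fun ε : ℝ => dt (edge (u i) j)
      (Vv k u (fun j => w0 j + ε * θ j) (i + 1) + bet r (ε ^ 2 - ε) (ε / μ - ε ^ 2) (i + 1) •
        (u (i + 1) (j + 1) - u (i + 1) (k (i + 1 - 1)))
        - (Vv k u (fun j => w0 j + ε * θ j) i + bet r (ε ^ 2 - ε) (ε / μ - ε ^ 2) i •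
        (u i (j + 1) - u i (k (i - 1)))))) := by
      apply (dt_cont _).comp
      fun_prop
    apply hc.continuousAt.eventually_ne
    rw [bet_zero, bet_zero, zero_smul, zero_smul, add_zero, add_zero, Vv_succ]
    have h5 : Vv k u (fun j => w0 j + (0 : ℝ) * θ j) i - (w0 i + 0 * θ i) • Wv k u i -
        Vv k u (fun j => w0 j + (0 : ℝ) * θ j) i = (-(w0 i)) • (u (i + 1) (k i) - u i (k i)) := by
      rw [Wv]; module
    rw [h5, dt_smul_right]
    exact mul_ne_zero (neg_ne_zero.2 (hw i hi)) ((step i hi).gen j)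
  filter_upwards [hpos, e1, e2, e3, e4, e5, e6] with ε h0 h1 h2 h3 h4 h5 h6
  have hε2 : 0 < ε ^ 2 := by positivity
  refine ⟨hr, step, fun i hi => h1 i (Finset.mem_range.2 hi),
    fun i hi => h2 i (Finset.mem_range.2 hi), h3, h4, ?_, ?_, by linarith, by linarith,
    fun i hi => h6 i (Finset.mem_range.2 hi)⟩
  · have : 1 + (ε ^ 2 - ε) * -(ε ^ 2)⁻¹ = ε⁻¹ := by field_simp; ring
    rw [this]; positivity
  · have : 1 + (ε / μ - ε ^ 2) * (((r - 1 : ℕ) : ℝ) * G + (ε ^ 2)⁻¹ - ((r - 1 : ℕ) : ℝ) * G)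
        = (ε * μ)⁻¹ := by field_simp; ring
    rw [this]; positivity

/-- Closing up: a chain of moves gives a tunnel in a suitable affine image of the polytope. -/
theorem closing {V : Type*} [Fintype V] [DecidableEq V] {X : V → ℂ × ℝ} {F : Finset (Finset V)}
    {a b : Fin 3 → V} (hP : IsPolytope X F) (ainj : Function.Injective a)
    (binj : Function.Injective b)
    (hA : Finset.univ.image a ∈ F) (hB : Finset.univ.image b ∈ F)
    {A B : Fin 3 → ℂ} (hXa : ∀ j, X (a j) = (A j, 1)) (hXb : ∀ j, X (b j) = (B j, 0))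
    (lev : ∀ v, 0 ≤ (X v).2 ∧ (X v).2 ≤ 1)
    (lev0 : ∀ v, (X v).2 = 0 → ∃ j, v = b j) (lev1 : ∀ v, (X v).2 = 1 → ∃ j, v = a j)
    {r : ℕ} (hr : 2 ≤ r) (hc : Chain r B A) :
    ∃ (e : (ℂ × ℝ) ≃ᵃ[ℝ] (ℂ × ℝ)) (T : Tunnel r), Drilled T (e ∘ X) F a b := by
  obtain ⟨o, ho⟩ := exists_mid hP.int (va := a 0) (vb := b 0) (by rw [hXa]) (by rw [hXb]) lev
  obtain ⟨k, u, u0, ⟨μ, hμ, t0, ur⟩, step, full⟩ := hc
  set z : ℂ := (2 : ℝ) • o - B (k 0) - A (k (r - 1)) with hz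
  obtain ⟨w0, hw0, sum0⟩ := full 0
  obtain ⟨θ, -, sumθ⟩ := full z
  obtain ⟨G, hG⟩ : ∃ G : ℝ, ∀ i < r, |(w0 i)⁻¹| < G / 2 := by
    refine ⟨2 * (1 + ∑ i ∈ Finset.range r, |(w0 i)⁻¹|), fun i hi => ?_⟩
    have := Finset.single_le_sum (f := fun i => |(w0 i)⁻¹|) (s := Finset.range r)
      (fun j _ => abs_nonneg _) (Finset.mem_range.2 hi)
    linarith
  have hG0 : 0 < G / 2 := lt_of_le_of_lt (abs_nonneg _) (hG 0 (by omega))
  have hready := ready_eventually hr (θ := θ) step hw0 hG hμ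
  set H0 : ℝ := ((r - 1 : ℕ) : ℝ) * G with hH0
  have hH00 : 0 ≤ H0 := by
    rw [hH0]
    have : (0 : ℝ) ≤ ((r - 1 : ℕ) : ℝ) := Nat.cast_nonneg _
    nlinarith
  -- the block points converge to the middle point
  have hint : ∀ᶠ ε in 𝓝[>] (0 : ℝ), ∀ i ∈ Finset.range r, ∀ j : Fin 3,
      pull μ (B (k 0)) (A (k (r - 1))) t0 z ε (off k u (fun j => w0 j + ε * θ j) G (r - 1)) H0
        (off k u (fun j => w0 j + ε * θ j) G i + u i j + (if j = k i then
          (w0 i + ε * θ i)⁻¹ • Vv k u (fun j => w0 j + ε * θ j) i else 0))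
        ((i : ℝ) * G + if j = k i then (w0 i + ε * θ i)⁻¹ else 0)
        ∈ interior (convexHull ℝ (range X)) := by
    rw [Filter.eventually_all_finset]
    intro i hi
    rw [Finset.mem_range] at hi
    rw [eventually_all]
    intro j
    apply nhdsWithin_le_nhds
    have cinv : ContinuousAt (fun ε : ℝ => (w0 i + ε * θ i)⁻¹) 0 := by
      apply ContinuousAt.inv₀ (by fun_prop)
      simpa using hw0 i hi
    have c1 := (cont_Vv k u w0 θ i).continuousAt (x := 0)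
    have c2 := (cont_off k u w0 θ G i).continuousAt (x := 0)
    have hl := pull_lim μ (B (k 0)) (A (k (r - 1))) t0 o
      (fun ε => off k u (fun j => w0 j + ε * θ j) G (r - 1))
      (fun ε => off k u (fun j => w0 j + ε * θ j) G i + u i j + (if j = k i then
          (w0 i + ε * θ i)⁻¹ • Vv k u (fun j => w0 j + ε * θ j) i else 0)) H0
      (fun ε => (i : ℝ) * G + if j = k i then (w0 i + ε * θ i)⁻¹ else 0)
      (cont_off k u w0 θ G (r - 1)).continuousAt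
      (by split_ifs <;> fun_prop) (by split_ifs <;> fun_prop)
    exact hl.eventually (isOpen_interior.mem_nhds ho)
  obtain ⟨ε, hR, hI, hε⟩ := (hready.and (hint.and
    (self_mem_nhdsWithin : ∀ᶠ ε in 𝓝[>] (0 : ℝ), ε ∈ Ioi (0 : ℝ)))).exists
  have hε : 0 < ε := hε
  set om : ℕ → ℝ := fun j => w0 j + ε * θ j with hom
  obtain ⟨T, hTw, hTm, hTM⟩ := hR.chain.exists_tunnel
  have n1 : ε⁻¹ ≠ 0 := inv_ne_zero hε.ne'
  have hH : 0 < 2 * (ε ^ 2)⁻¹ + H0 := by positivity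
  set f : ℂ := (1 - ε⁻¹) • B (k 0) with hf
  set fg : ℂ := off k u om G (r - 1) + t0 - ε⁻¹ • z - (ε⁻¹ - μ) • A (k (r - 1)) with hfg
  set e := psiE ε⁻¹ (2 * (ε ^ 2)⁻¹ + H0) (ε ^ 2)⁻¹ n1 hH.ne' f (fg - f) with he
  have hT0 : T.m 0 = -(ε ^ 2)⁻¹ := by rw [hTm]; rfl
  have hT1 : T.M (r + 1) = H0 + (ε ^ 2)⁻¹ := by
    rw [hTM]
    simp only [BarChain.M, lt_irrefl, if_false]
    rfl
  have hlev : ∀ v, (e (X v)).2 = -(ε ^ 2)⁻¹ + (X v).2 * (2 * (ε ^ 2)⁻¹ + H0) := fun v => rfl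
  -- the final velocity
  have hVr : Vv k u om r = (-ε) • z := by
    have h1 : ∑ j ∈ Finset.range r, om j • Wv k u j
        = ∑ j ∈ Finset.range r, w0 j • (u (j + 1) (k j) - u j (k j))
          + ε • ∑ j ∈ Finset.range r, θ j • (u (j + 1) (k j) - u j (k j)) := by
      rw [Finset.smul_sum, ← Finset.sum_add_distrib]
      apply Finset.sum_congr rfl
      intro j _
      simp only [hom, Wv]
      module
    rw [Vv, h1, sum0, sumθ, zero_add, neg_smul]
  refine ⟨e, T, ?_⟩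
  refine ⟨hP.map e, ainj, binj, hA, hB, by omega, ?_, ?_, ?_, ?_, ?_, ?_⟩
  · intro j
    rw [hTw, hR.w_bot, u0]
    show _ = e (X (b j))
    rw [hXb, he, psiE_apply]
    refine Prod.ext ?_ ?_
    · show B j + (-(ε ^ 2)⁻¹ * (ε ^ 2 - ε)) • (B j - B (k 0))
        = ε⁻¹ • B j + f + (0 : ℝ) • (fg - f)
      have h1 : -(ε ^ 2)⁻¹ * (ε ^ 2 - ε) = ε⁻¹ - 1 := by field_simp; ring
      rw [h1, hf]; module
    · show -(ε ^ 2)⁻¹ = -(ε ^ 2)⁻¹ + 0 * (2 * (ε ^ 2)⁻¹ + H0)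
      ring
  · intro j
    rw [hTw, hR.w_top, hVr, ur, ur]
    show _ = e (X (a j))
    rw [hXa, he, psiE_apply]
    refine Prod.ext ?_ ?_
    · show off k u om G (r - 1) + (μ • A j + t0) + (H0 + (ε ^ 2)⁻¹ - H0) •
        ((-ε) • z + (ε / μ - ε ^ 2) • (μ • A j + t0 - (μ • A (k (r - 1)) + t0)))
        = ε⁻¹ • A j + f + (1 : ℝ) • (fg - f)
      have h1 : (H0 + (ε ^ 2)⁻¹ - H0) • ((-ε) • z + (ε / μ - ε ^ 2) •
          (μ • A j + t0 - (μ • A (k (r - 1)) + t0)))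
          = (-((ε ^ 2)⁻¹ * ε)) • z + ((ε ^ 2)⁻¹ * (ε / μ - ε ^ 2) * μ) •
            (A j - A (k (r - 1))) := by module
      have h2 : (ε ^ 2)⁻¹ * ε = ε⁻¹ := by field_simp
      have h3 : (ε ^ 2)⁻¹ * (ε / μ - ε ^ 2) * μ = ε⁻¹ - μ := by field_simp
      rw [h1, h2, h3, hfg]
      module
    · show H0 + (ε ^ 2)⁻¹ = -(ε ^ 2)⁻¹ + 1 * (2 * (ε ^ 2)⁻¹ + H0)
      ring
  · intro v
    show T.m 0 ≤ (e (X v)).2 ∧ (e (X v)).2 ≤ T.M (r + 1)
    rw [hT0, hT1, hlev]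
    have := lev v
    constructor
    · nlinarith [this.1]
    · nlinarith [this.2]
  · intro v hv
    have hv : (e (X v)).2 = T.m 0 := hv
    rw [hT0, hlev] at hv
    apply lev0
    have : (X v).2 * (2 * (ε ^ 2)⁻¹ + H0) = 0 := by linarith
    rcases mul_eq_zero.1 this with h | h
    · exact h
    · exact absurd h hH.ne'
  · intro v hv
    have hv : (e (X v)).2 = T.M (r + 1) := hv
    rw [hT1, hlev] at hv
    apply lev1
    have : ((X v).2 - 1) * (2 * (ε ^ 2)⁻¹ + H0) = 0 := by linarith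
    rcases mul_eq_zero.1 this with h | h
    · linarith
    · exact absurd h hH.ne'
  · intro i hi1 hi2 j
    obtain ⟨i, rfl⟩ : ∃ i', i = i' + 1 := ⟨i - 1, by omega⟩
    rw [hTw, hR.w_mid (by omega), range_comp, hull_map, interior_map]
    refine ⟨_, hI i (Finset.mem_range.2 (by omega)) j, ?_⟩
    rw [he, hfg, hf]
    exact pull_spec μ (B (k 0)) (A (k (r - 1))) t0 z hε (off k u om G (r - 1)) hH00 _ _ n1 hH.ne'

end Pool.Agent.Helper183.Collar
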