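import Pool.Agent.Helper183_Collar.Outer2

set_option autoImplicit false

namespace Pool.Agent.Helper183.Collar

open Set Module

section defs

variable {V : Type*} [DecidableEq V]

lemma mem_quad {a b : Fin 3 → V} {n i : ℕ} {k : Fin 3} {v : V ⊕ (Fin n × Fin 3)} :
    v ∈ quad a b n i k ↔ ∃ j, j ≠ k ∧ (v = node a b n i j ∨ v = node a b n (i + 1) j) := by
  simp only [quad, Finset.mem_insert, Finset.mem_singleton]
  constructor
  · rintro (h | h | h | h)
    · exact ⟨_, Tunnel.ne1 k, Or.inl h⟩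
    · exact ⟨_, Tunnel.ne2 k, Or.inl h⟩
    · exact ⟨_, Tunnel.ne2 k, Or.inr h⟩
    · exact ⟨_, Tunnel.ne1 k, Or.inr h⟩
  · rintro ⟨j, hj, h⟩
    rcases Tunnel.cases3 k j with e | e | e
    · exact absurd e hj
    · subst e; tauto
    · subst e; tauto

lemma mem_collar {F : Finset (Finset V)} {a b : Fin 3 → V} {n : ℕ}
    {g : Finset (V ⊕ (Fin n × Fin 3))} :
    g ∈ collar F a b n ↔ (∃ f ∈ outerF F a b, g = f.image Sum.inl) ∨
      ∃ i ≤ n, ∃ k, g = quad a b n i k := by
  simp only [collar, Finset.mem_union, Finset.mem_image, Finset.mem_univ, true_and, outerF]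
  constructor
  · rintro (⟨f, hf, rfl⟩ | ⟨q, rfl⟩)
    · exact Or.inl ⟨f, hf, rfl⟩
    · exact Or.inr ⟨q.1, by omega, q.2, rfl⟩
  · rintro (⟨f, hf, rfl⟩ | ⟨i, hi, k, rfl⟩)
    · exact Or.inl ⟨f, hf, rfl⟩
    · exact Or.inr ⟨(⟨i, by omega⟩, k), rfl⟩

end defs

section rank

variable {E : Type*} [NormedAddCommGroup E] [NormedSpace ℝ E] [FiniteDimensional ℝ E]

/-- A flat set plus a point off the flat. -/
lemma rank_succ (hE : finrank ℝ E = 3) {S U : Set E} (hS : finrank ℝ (vectorSpan ℝ S) = 2)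
    (l : E →ᵃ[ℝ] ℝ) (h0 : ∀ x ∈ S, l x = 0) (hSU : S ⊆ U) {p : E} (hp : p ∈ U)
    (hl : l p ≠ 0) : finrank ℝ (vectorSpan ℝ U) = 3 := by
  have hne : S.Nonempty := by
    rw [nonempty_iff_ne_empty]
    rintro rfl
    rw [vectorSpan_empty] at hS
    simp at hS
  obtain ⟨q, hq⟩ := hne
  have hle : vectorSpan ℝ S ≤ vectorSpan ℝ U := vectorSpan_mono ℝ hSU
  have hker : vectorSpan ℝ S ≤ LinearMap.ker l.linear := by
    rw [vectorSpan_def, Submodule.span_le]
    rintro _ ⟨a, ha, b, hb, rfl⟩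
    show l.linear (a -ᵥ b) = 0
    rw [l.linearMap_vsub, h0 a ha, h0 b hb, vsub_self]
  have hlt : vectorSpan ℝ S < vectorSpan ℝ U := by
    refine lt_of_le_of_ne hle fun he => ?_
    have hmem : p -ᵥ q ∈ vectorSpan ℝ U := vsub_mem_vectorSpan ℝ hp (hSU hq)
    rw [← he] at hmem
    have h1 : l.linear (p -ᵥ q) = 0 := hker hmem
    rw [l.linearMap_vsub, h0 q hq] at h1
    apply hl
    simpa using h1
  have h1 := Submodule.finrank_lt_finrank_of_lt hlt
  have h2 := Submodule.finrank_le (vectorSpan ℝ U)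
  omega

/-- Rank two from functionals. -/
lemma rank_two (hE : finrank ℝ E = 3) {S : Set E} (l f g : E →ᵃ[ℝ] ℝ)
    (h0 : ∀ x ∈ S, l x = 0) {p q r s : E} (hp : p ∈ S) (hq : q ∈ S) (hr : r ∈ S)
    (hs : l s ≠ 0) (fp : f p = 0) (fq : f q = 0) (fr : f r ≠ 0) (gp : g p = 0) (gq : g q ≠ 0) :
    finrank ℝ (vectorSpan ℝ S) = 2 := by
  have hker : vectorSpan ℝ S ≤ LinearMap.ker l.linear := by
    rw [vectorSpan_def, Submodule.span_le]
    rintro _ ⟨a, ha, b, hb, rfl⟩
    show l.linear (a -ᵥ b) = 0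
    rw [l.linearMap_vsub, h0 a ha, h0 b hb, vsub_self]
  have hlt : LinearMap.ker l.linear < ⊤ := by
    rw [lt_top_iff_ne_top]
    intro ht
    have h1 : s -ᵥ p ∈ LinearMap.ker l.linear := by rw [ht]; trivial
    have h1 : l.linear (s -ᵥ p) = 0 := h1
    rw [l.linearMap_vsub, h0 p hp] at h1
    apply hs
    simpa using h1
  have hub : finrank ℝ (vectorSpan ℝ S) ≤ 2 := by
    have h1 := Submodule.finrank_lt_finrank_of_lt hlt
    have h2 := Submodule.finrank_mono hker
    rw [finrank_top, hE] at h1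
    omega
  have hli : LinearIndependent ℝ ![q -ᵥ p, r -ᵥ p] := by
    rw [LinearIndependent.pair_iff]
    intro c d hcd
    have e1 : f.linear (q -ᵥ p) = 0 := by rw [f.linearMap_vsub, fq, fp, vsub_self]
    have e2 : f.linear (r -ᵥ p) = f r := by rw [f.linearMap_vsub, fp, vsub_eq_sub, sub_zero]
    have e3 : g.linear (q -ᵥ p) = g q := by rw [g.linearMap_vsub, gp, vsub_eq_sub, sub_zero]
    have hf : f.linear (c • (q -ᵥ p) + d • (r -ᵥ p)) = 0 := by rw [hcd, map_zero]
    have hg : g.linear (c • (q -ᵥ p) + d • (r -ᵥ p)) = 0 := by rw [hcd, map_zero]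
    rw [map_add, map_smul, map_smul, e1, e2, smul_zero, zero_add, smul_eq_mul] at hf
    have hd : d = 0 := by
      rcases mul_eq_zero.1 hf with h | h
      · exact h
      · exact absurd h fr
    subst hd
    rw [map_add, map_smul, map_smul, e3, zero_smul, add_zero, smul_eq_mul] at hg
    rcases mul_eq_zero.1 hg with h | h
    · exact ⟨h, rfl⟩
    · exact absurd h gq
  have hlb : 2 ≤ finrank ℝ (vectorSpan ℝ S) := by
    have h1 : Submodule.span ℝ (range ![q -ᵥ p, r -ᵥ p]) ≤ vectorSpan ℝ S := by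
      rw [Submodule.span_le]
      rintro _ ⟨i, rfl⟩
      fin_cases i
      · exact vsub_mem_vectorSpan ℝ hq hp
      · exact vsub_mem_vectorSpan ℝ hr hp
    have h2 := Submodule.finrank_mono h1
    rw [finrank_span_eq_card hli] at h2
    simpa using h2
  omega

end rank

end Pool.Agent.Helper183.Collar
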