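import Pool.Agent.Helper183_Collar.Combin

set_option autoImplicit false
set_option linter.unusedSectionVars false

namespace Pool.Agent.Helper183.Collar

open Set Module

/-- The placement of all vertices. -/
def place {V : Type*} {n : ℕ} (T : Tunnel n) (X : V → ℂ × ℝ) : V ⊕ (Fin n × Fin 3) → ℂ × ℝ
  | Sum.inl v => X v
  | Sum.inr q => T.w (q.1 + 1) q.2

lemma finrank_CR : finrank ℝ (ℂ × ℝ) = 3 := by
  rw [Module.finrank_prod, Complex.finrank_real_complex, Module.finrank_self]

lemma Tunnel.w_inj {n : ℕ} (T : Tunnel n) {i j : ℕ} (hi : i ≤ n + 1) (hj : j ≤ n + 1)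
    {k l : Fin 3} (h : T.w i k = T.w j l) : i = j ∧ k = l := by
  have h1 := T.lev i hi k
  have h2 := T.lev j hj l
  rw [h] at h1
  rcases lt_trichotomy i j with h' | h' | h'
  · have := T.M_lt_m h' hj
    linarith [h1.2, h2.1]
  · subst h'
    refine ⟨rfl, ?_⟩
    by_contra hne
    rcases Nat.lt_or_ge n i with hn | hn
    · have : i = n + 1 := by omega
      subst this
      have e1 := (T.L0 n le_rfl l k hne).2
      have e2 := (T.Lpos n le_rfl l).2
      rw [h] at e1
      linarith
    · have e1 := (T.L0 i hn l k hne).1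
      have e2 := (T.Lpos i hn l).1
      rw [h] at e1
      linarith
  · have := T.M_lt_m h' hi
    linarith [h1.1, h2.2]

section poly

variable {V : Type*} [DecidableEq V]
variable {E : Type*} [NormedAddCommGroup E] [NormedSpace ℝ E] [FiniteDimensional ℝ E]

/-- Two facets share at most two vertices. -/
lemma IsPolytope.card_inter (hE : finrank ℝ E = 3) {x : V → E} {F : Finset (Finset V)}
    (h : IsPolytope x F) {f g : Finset V} (hf : f ∈ F) (hg : g ∈ F) (hne : f ≠ g) :
    (f ∩ g).card ≤ 2 := by
  by_contra hc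
  push Not at hc
  obtain ⟨u, hu, v, hv, w, hw, huv, huw, hvw⟩ := Finset.two_lt_card.1 hc
  have hle : vectorSpan ℝ (x '' ((f ∩ g : Finset V) : Set V)) ≤ vectorSpan ℝ (x '' (f : Set V)) :=
    vectorSpan_mono ℝ (image_mono (by exact_mod_cast Finset.inter_subset_left))
  have h2 : finrank ℝ (vectorSpan ℝ (x '' ((f ∩ g : Finset V) : Set V))) ≤ 2 := by
    have := Submodule.finrank_mono hle
    rwa [h.rank f hf] at this
  have h1 : finrank ℝ (vectorSpan ℝ (x '' ((f ∩ g : Finset V) : Set V))) ≤ 1 := by
    by_contra h3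
    have h4 : finrank ℝ (vectorSpan ℝ (x '' ((f ∩ g : Finset V) : Set V))) = 2 := by omega
    obtain ⟨l, l0, l1⟩ := h.facet g hg
    obtain ⟨z, hz, hzg⟩ := Finset.not_subset.1 (h.not_subset hf hg hne)
    have h5 := rank_succ hE h4 l (by
        rintro _ ⟨t, ht, rfl⟩
        exact l0 t (Finset.mem_of_mem_inter_right (by exact_mod_cast ht)))
      (U := x '' (f : Set V)) (image_mono (by exact_mod_cast Finset.inter_subset_left))
      ⟨z, hz, rfl⟩ (l1 z hzg).ne'
    rw [h.rank f hf] at h5
    omega
  have hcol : Collinear ℝ ({x u, x v, x w} : Set E) := by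
    rw [collinear_iff_finrank_le_one]
    refine (Submodule.finrank_mono (vectorSpan_mono ℝ ?_)).trans h1
    intro p hp
    simp only [mem_insert_iff, mem_singleton_iff] at hp
    rcases hp with e | e | e <;> subst e
    · exact ⟨u, by exact_mod_cast hu, rfl⟩
    · exact ⟨v, by exact_mod_cast hv, rfl⟩
    · exact ⟨w, by exact_mod_cast hw, rfl⟩
  have key : ∀ p q r : V, p ≠ q → r ≠ q → Wbtw ℝ (x p) (x q) (x r) → False := by
    intro p q r hpq hrq hw
    apply h.vert q
    have h6 : x q ∈ segment ℝ (x p) (x r) := hw.mem_segment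
    rw [← convexHull_pair] at h6
    refine convexHull_mono ?_ h6
    intro y hy
    simp only [mem_insert_iff, mem_singleton_iff] at hy
    rcases hy with e | e <;> subst e
    · exact ⟨p, by simpa using hpq, rfl⟩
    · exact ⟨r, by simpa using hrq, rfl⟩
  rcases hcol.wbtw_or_wbtw_or_wbtw with e | e | e
  · exact key u v w huv (Ne.symm hvw) e
  · exact key v w u hvw huw e
  · exact key w u v (Ne.symm huw) (Ne.symm huv) e

end poly

namespace Drilled

variable {V : Type*} [Fintype V] [DecidableEq V] {n : ℕ} {T : Tunnel n}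
    {X : V → ℂ × ℝ} {F : Finset (Finset V)} {a b : Fin 3 → V} (D : Drilled T X F a b)

include D

lemma place_node {i : ℕ} (hi : i ≤ n + 1) (k : Fin 3) :
    place T X (node a b n i k) = T.w i k := by
  cases i with
  | zero => exact (D.w0 k).symm
  | succ i =>
    by_cases h : i < n
    · simp [node, h, place]
    · have : i = n := by omega
      subst this
      simp [node, place, D.w1]

lemma node_inj {i j : ℕ} (hi : i ≤ n + 1) (hj : j ≤ n + 1) {k l : Fin 3}
    (h : node a b n i k = node a b n j l) : i = j ∧ k = l := by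
  apply T.w_inj hi hj
  rw [← D.place_node hi, ← D.place_node hj, h]

omit D in
lemma node_inr {i : ℕ} (h0 : 1 ≤ i) (hi : i ≤ n) (k : Fin 3) :
    ∃ q, node a b n i k = Sum.inr q := by
  obtain ⟨i, rfl⟩ : ∃ j, i = j + 1 := ⟨i - 1, by omega⟩
  have h : i < n := by omega
  exact ⟨(⟨i, h⟩, k), by simp [node, h]⟩

lemma inr_int (q : Fin n × Fin 3) :
    place T X (Sum.inr q) ∈ interior (convexHull ℝ (range X)) :=
  D.int _ (by omega) (by have := q.1.2; omega) _

/-- The facet functionals on all vertices. -/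
lemma facetL {f : Finset V} (hf : f ∈ F) : ∃ l : ℂ × ℝ →ᵃ[ℝ] ℝ, (∀ v ∈ f, l (X v) = 0) ∧
    (∀ v ∉ f, 0 < l (X v)) ∧ ∀ q, 0 < l (place T X (Sum.inr q)) := by
  obtain ⟨l, l0, l1⟩ := D.poly.facet f hf
  refine ⟨l, l0, l1, fun q => ?_⟩
  have hq := D.inr_int q
  have hnn : ∀ v ∈ (univ : Set V), 0 ≤ l (X v) := by
    intro v _
    by_cases hv : v ∈ f
    · rw [l0 v hv]
    · exact (l1 v hv).le
  have hmem : place T X (Sum.inr q) ∈ convexHull ℝ (X '' univ) := by
    rw [image_univ]; exact interior_subset hq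
  have h0 : 0 ≤ l (place T X (Sum.inr q)) := by
    apply aff_nonneg_of_mem l (X '' univ) _ _ hmem
    rintro _ ⟨v, hv, rfl⟩; exact hnn v hv
  refine lt_of_le_of_ne h0 fun he => ?_
  have h2 := mem_hull_zero_image l X univ (f : Set V) hnn (fun v _ hv => by
    by_contra hvf
    have := l1 v hvf
    linarith) hmem he.symm
  rw [univ_inter] at h2
  have h3 : place T X (Sum.inr q) ∈ frontier (convexHull ℝ (range X)) := by
    rw [D.poly.bdry]
    exact mem_surf.2 ⟨f, hf, h2⟩
  exact h3.2 hq

omit D in
lemma place_image_inl (f : Finset V) :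
    place T X '' ((f.image Sum.inl : Finset (V ⊕ (Fin n × Fin 3))) : Set _) = X '' (f : Set V) := by
  rw [Finset.coe_image, image_image]
  rfl

lemma outer_sep {f : Finset V} (hf : f ∈ F) (g : Finset (V ⊕ (Fin n × Fin 3))) :
    convexHull ℝ (place T X '' ((f.image Sum.inl : Finset (V ⊕ (Fin n × Fin 3))) : Set _)) ∩
      convexHull ℝ (place T X '' (g : Set _)) =
    convexHull ℝ (place T X ''
      ((f.image Sum.inl ∩ g : Finset (V ⊕ (Fin n × Fin 3))) : Set _)) := by
  obtain ⟨l, l0, l1, l2⟩ := D.facetL hf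
  rw [Finset.coe_inter]
  apply hull_inter_of_sep l
  · rintro v hv
    simp only [Finset.coe_image, mem_image, Finset.mem_coe] at hv
    obtain ⟨u, hu, rfl⟩ := hv
    exact l0 u hu
  · rintro (v | q) _
    · by_cases h : v ∈ f
      · exact (l0 v h).ge
      · exact (l1 v h).le
    · exact (l2 q).le
  · rintro (v | q) _ h
    · by_cases hv : v ∈ f
      · simpa using hv
      · exact absurd h (l1 v hv).ne'
    · exact absurd h (l2 q).ne'

lemma outer_rank {f : Finset V} (hf : f ∈ F) {g : Finset (V ⊕ (Fin n × Fin 3))}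
    {v : V ⊕ (Fin n × Fin 3)} (hv : v ∈ g) (hv' : v ∉ f.image Sum.inl) :
    finrank ℝ (vectorSpan ℝ (place T X ''
      (((f.image Sum.inl : Finset (V ⊕ (Fin n × Fin 3))) : Set _) ∪ (g : Set _)))) = 3 := by
  obtain ⟨l, l0, l1, l2⟩ := D.facetL hf
  refine rank_succ finrank_CR (S := X '' (f : Set V)) (D.poly.rank f hf) l ?_ ?_
    (p := place T X v) ⟨v, Or.inr hv, rfl⟩ ?_
  · rintro _ ⟨u, hu, rfl⟩; exact l0 u hu
  · rw [← place_image_inl (T := T)]
    exact image_mono subset_union_left
  · rcases v with v | q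
    · have : v ∉ f := by simpa using hv'
      exact (l1 v this).ne'
    · exact (l2 q).ne'

lemma quad_image {i : ℕ} (hi : i ≤ n) (k : Fin 3) :
    place T X '' (quad a b n i k : Set _) =
      {T.w i (k + 1), T.w i (k + 2), T.w (i + 1) (k + 2), T.w (i + 1) (k + 1)} := by
  simp only [quad, Finset.coe_insert, Finset.coe_singleton, image_insert_eq, image_singleton]
  rw [D.place_node (by omega), D.place_node (by omega), D.place_node (by omega),
    D.place_node (by omega)]

lemma quad_hull {i : ℕ} (hi : i ≤ n) (k : Fin 3) :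
    convexHull ℝ (place T X '' (quad a b n i k : Set _)) = T.face i k := by
  rw [D.quad_image hi]; rfl

lemma quad_vanish {i : ℕ} (hi : i ≤ n) (k : Fin 3) {v : V ⊕ (Fin n × Fin 3)}
    (hv : v ∈ quad a b n i k) : T.L i k (place T X v) = 0 := by
  obtain ⟨j, hj, h | h⟩ := mem_quad.1 hv
  · rw [h, D.place_node (by omega)]; exact (T.L0 i hi k j hj).1
  · rw [h, D.place_node (by omega)]; exact (T.L0 i hi k j hj).2

lemma quad_finrank {i : ℕ} (hi : i ≤ n) (k : Fin 3) :
    finrank ℝ (vectorSpan ℝ (place T X '' (quad a b n i k : Set _))) = 2 := by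
  have hm : ∀ v ∈ ({T.w i (k + 1), T.w i (k + 2), T.w (i + 1) (k + 2), T.w (i + 1) (k + 1)} :
      Set (ℂ × ℝ)), T.L i k v = 0 := by
    intro v hv
    simp only [mem_insert_iff, mem_singleton_iff] at hv
    rcases hv with h | h | h | h <;> subst h
    · exact (T.L0 i hi k _ (Tunnel.ne1 k)).1
    · exact (T.L0 i hi k _ (Tunnel.ne2 k)).1
    · exact (T.L0 i hi k _ (Tunnel.ne2 k)).2
    · exact (T.L0 i hi k _ (Tunnel.ne1 k)).2
  rw [D.quad_image hi]
  refine rank_two finrank_CR (T.L i k) (T.ω i) (T.L i (k + 1)) hm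
    (p := T.w i (k + 2)) (q := T.w i (k + 1)) (r := T.w (i + 1) (k + 2)) (s := T.w i k)
    (by simp) (by simp) (by simp) (T.Lpos i hi k).1.ne' (T.ω0 i (by omega) _)
    (T.ω0 i (by omega) _) (T.ωpos i hi _).ne' (T.L0 i hi _ _ (Tunnel.ne21 k)).1
    (T.Lpos i hi _).1.ne'

lemma quad_card {i : ℕ} (hi : i ≤ n) (k : Fin 3) : 3 ≤ (quad a b n i k).card := by
  have : ({node a b n i (k + 1), node a b n i (k + 2), node a b n (i + 1) (k + 2)} :
      Finset (V ⊕ (Fin n × Fin 3))) ⊆ quad a b n i k := by
    intro v hv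
    simp only [Finset.mem_insert, Finset.mem_singleton] at hv
    simp only [quad, Finset.mem_insert, Finset.mem_singleton]
    tauto
  refine le_trans ?_ (Finset.card_le_card this)
  rw [Finset.card_eq_three.2]
  refine ⟨_, _, _, ?_, ?_, ?_, rfl⟩
  · intro h
    exact Tunnel.ne12 k (D.node_inj (by omega) (by omega) h).2
  · intro h
    have := (D.node_inj (by omega) (by omega) h).1
    omega
  · intro h
    have := (D.node_inj (by omega) (by omega) h).1
    omega

/-- convex position of the corners of a quadrilateral -/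
lemma quad_vert {i : ℕ} (hi : i ≤ n) (k : Fin 3) {v : V ⊕ (Fin n × Fin 3)}
    (hv : v ∈ quad a b n i k) :
    place T X v ∉ convexHull ℝ (place T X '' ((quad a b n i k : Set _) \ {v})) := by
  obtain ⟨j, hj, hcase⟩ := mem_quad.1 hv
  have main : ∀ l : ℂ × ℝ →ᵃ[ℝ] ℝ, 0 < l (place T X v) →
      (∀ u ∈ quad a b n i k, u ≠ v → l (place T X u) ≤ 0) →
      place T X v ∉ convexHull ℝ (place T X '' ((quad a b n i k : Set _) \ {v})) := by
    intro l h1 h2 hc
    have : convexHull ℝ (place T X '' ((quad a b n i k : Set _) \ {v})) ⊆ {p | l p ≤ 0} := by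
      apply convexHull_min _ (Tunnel.convex_nonpos l)
      rintro _ ⟨u, ⟨hu, hu'⟩, rfl⟩
      exact h2 u hu hu'
    exact absurd (this hc) (not_le.2 h1)
  rcases hcase with h | h
  · -- lower corner
    have hv' : place T X v = T.w i j := by rw [h, D.place_node (by omega)]
    have hpos := T.ωpos i hi j
    have hL := T.Lpos i hi j
    set c := T.L i j (T.w (i + 1) j) / T.ω i (T.w (i + 1) j) with hc
    have hc0 : 0 < c := div_pos hL.2 hpos
    have hc1 : c * T.ω i (T.w (i + 1) j) = T.L i j (T.w (i + 1) j) := by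
      rw [hc]; field_simp
    have happ : ∀ p, (T.L i j - c • T.ω i) p = T.L i j p - c * T.ω i p := fun p => rfl
    apply main (T.L i j - c • T.ω i)
    · rw [happ, hv', T.ω0 i (by omega)]
      linarith [hL.1]
    · intro u hu hne
      rw [happ]
      obtain ⟨m, hm, e | e⟩ := mem_quad.1 hu
      · rw [e, D.place_node (by omega), T.ω0 i (by omega)]
        have hmj : m ≠ j := by
          rintro rfl
          exact hne (e.trans h.symm)
        rw [(T.L0 i hi j m hmj).1]; simp
      · rw [e, D.place_node (by omega)]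
        by_cases hmj : m = j
        · subst hmj; rw [hc1]; simp
        · rw [(T.L0 i hi j m hmj).2]
          have := T.ωpos i hi m
          nlinarith
  · have hv' : place T X v = T.w (i + 1) j := by rw [h, D.place_node (by omega)]
    have hpos := T.ωneg i hi j
    have hL := T.Lpos i hi j
    set c := T.L i j (T.w i j) / (- T.ω (i + 1) (T.w i j)) with hc
    have hc0 : 0 < c := div_pos hL.1 (by linarith)
    have hc1 : c * T.ω (i + 1) (T.w i j) = - T.L i j (T.w i j) := by
      rw [hc]; have := hpos.ne; field_simp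
    have happ : ∀ p, (T.L i j + c • T.ω (i + 1)) p = T.L i j p + c * T.ω (i + 1) p :=
      fun p => rfl
    apply main (T.L i j + c • T.ω (i + 1))
    · rw [happ, hv', T.ω0 (i + 1) (by omega)]
      linarith [hL.2]
    · intro u hu hne
      rw [happ]
      obtain ⟨m, hm, e | e⟩ := mem_quad.1 hu
      · rw [e, D.place_node (by omega)]
        by_cases hmj : m = j
        · subst hmj; rw [hc1]; simp
        · rw [(T.L0 i hi j m hmj).1]
          have := T.ωneg i hi m
          nlinarith
      · rw [e, D.place_node (by omega), T.ω0 (i + 1) (by omega)]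
        have hmj : m ≠ j := by
          rintro rfl
          exact hne (e.trans h.symm)
        rw [(T.L0 i hi j m hmj).2]; simp

end Drilled

end Pool.Agent.Helper183.Collar
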