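import Mathlib

set_option autoImplicit false

namespace Pool.Agent.Helper183.Collar

open Set Module

/-- Euclidean three-space. -/
abbrev E3 : Type := EuclideanSpace ℝ (Fin 3)

section general

variable {V : Type*} [DecidableEq V]
variable {E : Type*} [NormedAddCommGroup E] [NormedSpace ℝ E]

/-- The union of the faces of the family `F` of vertex sets when vertex `v` is placed at
`x v`. -/
def surf (F : Finset (Finset V)) (x : V → E) : Set E :=
  ⋃ f ∈ F, convexHull ℝ (x '' (f : Set V))

/-- The points `x v` are the vertices of a solid convex polytope in three-space, and `F` is the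
family of the vertex sets of its facets: every point is a vertex; every member of `F` is the set
of all vertices on some supporting plane and spans a plane; every vertex is on a member of `F`;
the boundary of the polytope is the union of the facets; and the polytope has interior points. -/
structure IsPolytope (x : V → E) (F : Finset (Finset V)) : Prop where
  vert : ∀ v, x v ∉ convexHull ℝ (x '' {v}ᶜ)
  cover : ∀ v, ∃ f ∈ F, v ∈ f
  facet : ∀ f ∈ F, ∃ l : E →ᵃ[ℝ] ℝ, (∀ v ∈ f, l (x v) = 0) ∧ ∀ v ∉ f, 0 < l (x v)
  rank : ∀ f ∈ F, finrank ℝ (vectorSpan ℝ (x '' (f : Set V))) = 2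
  bdry : frontier (convexHull ℝ (range x)) = surf F x
  int : (interior (convexHull ℝ (range x))).Nonempty

/-- The `k`-th corner of the `i`-th triangle of the collar, `0 ≤ i ≤ n + 1`: triangle `0` is `b`,
triangle `n + 1` is `a`, and the triangles `1, ..., n` in between consist of new vertices. -/
def node (a b : Fin 3 → V) (n : ℕ) : ℕ → Fin 3 → V ⊕ (Fin n × Fin 3)
  | 0, k => Sum.inl (b k)
  | i + 1, k => if h : i < n then Sum.inr (⟨i, h⟩, k) else Sum.inl (a k)

/-- The quadrilateral of the collar between the triangles `i` and `i + 1` opposite to the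
corners numbered `k`. -/
def quad (a b : Fin 3 → V) (n : ℕ) (i : ℕ) (k : Fin 3) : Finset (V ⊕ (Fin n × Fin 3)) :=
  {node a b n i (k + 1), node a b n i (k + 2), node a b n (i + 1) (k + 2),
    node a b n (i + 1) (k + 1)}

/-- The map obtained from `F` by removing the triangular faces `a` and `b` and inserting a collar
of `3 (n + 1)` quadrilaterals between them, corner `k` of `b` being joined to corner `k` of `a` by
a path through `n` new vertices. -/
def collar (F : Finset (Finset V)) (a b : Fin 3 → V) (n : ℕ) :
    Finset (Finset (V ⊕ (Fin n × Fin 3))) :=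
  ((F.erase (Finset.univ.image a)).erase (Finset.univ.image b)).image
      (fun f => f.image Sum.inl) ∪
    (Finset.univ : Finset (Fin (n + 1) × Fin 3)).image (fun q => quad a b n q.1 q.2)

end general

/-- Six times the signed volume of the tetrahedron `p q r s`. -/
noncomputable def signedVol (p q r s : E3) : ℝ :=
  Matrix.det (Matrix.of ![fun i => (q - p) i, fun i => (r - p) i, fun i => (s - p) i])

/-- `x` is a realization of the map with face family `F` as a toroidal polytope. These are
the conditions of the frozen statement. -/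
def Realizes {V : Type*} [DecidableEq V] (F : Finset (Finset V)) (x : V → E3) : Prop :=
  Function.Injective x ∧
  (∀ i : V, ∃ f ∈ F, i ∈ f) ∧
  (∀ f ∈ F, 3 ≤ f.card ∧ finrank ℝ (vectorSpan ℝ (x '' (f : Set V))) = 2 ∧
    ∀ i ∈ f, x i ∉ convexHull ℝ (x '' ((f : Set V) \ {i}))) ∧
  (∀ f ∈ F, ∀ g ∈ F, f ≠ g →
    convexHull ℝ (x '' (f : Set V)) ∩ convexHull ℝ (x '' (g : Set V))
      = convexHull ℝ (x '' ((f ∩ g : Finset V) : Set V)) ∧
    (f ∩ g).card ≤ 2 ∧
    ((f ∩ g).card = 2 →
      finrank ℝ (vectorSpan ℝ (x '' ((f : Set V) ∪ (g : Set V)))) = 3)) ∧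
  Nonempty (↥(surf F x) ≃ₜ (Circle × Circle))

/-- The set `S` is an unknotted torus: some homeomorphism of space carries it onto the round torus
of revolution. -/
def Unknotted (S : Set E3) : Prop :=
  ∃ h : E3 ≃ₜ E3, h '' S = {p | (Real.sqrt (p 0 ^ 2 + p 1 ^ 2) - 2) ^ 2 + p 2 ^ 2 = 1}

end Pool.Agent.Helper183.Collar
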