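import Pool.Agent.Helper183_Collar.Moves

set_option autoImplicit false

namespace Pool.Agent.Helper183.Collar

open Set Filter Topology Module

lemma Step.ne {k : Fin 3} {u v : Fin 3 → ℂ} (h : Step k u v) : v k - u k ≠ 0 := by
  intro h0
  apply h.gen k
  rw [h0, dt_zero_right]

/-- Six moves from three double moves. -/
lemma chain_six {B v1 v2 v3 A : Fin 3 → ℂ} {k1 k2 k3 : Fin 3} (h1 : Dbl k1 B v1)
    (h2 : Dbl k2 v1 v2) (h3 : Dbl k3 v2 v3) {t0 : ℂ} (hA : ∀ j, v3 j = A j + t0) :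
    Chain 6 B A := by
  obtain ⟨p1, s1, s2, -, -⟩ := h1 1 1 one_ne_zero one_ne_zero
  obtain ⟨p2, s3, s4, a21, -⟩ := h2 _ _ s1.ne s1.ne
  obtain ⟨p3, s5, s6, a31, a32⟩ := h3 _ _ s1.ne s3.ne
  have b12 : dt (p1 k1 - B k1) (p2 k2 - v1 k2) ≠ 0 := by
    rw [dt_swap]; exact neg_ne_zero.2 a21
  have b13 : dt (p1 k1 - B k1) (p3 k3 - v2 k3) ≠ 0 := by
    rw [dt_swap]; exact neg_ne_zero.2 a31
  have b23 : dt (p2 k2 - v1 k2) (p3 k3 - v2 k3) ≠ 0 := by
    rw [dt_swap]; exact neg_ne_zero.2 a32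
  let kk : ℕ → Fin 3 := fun i => match i with
    | 0 => k1
    | 1 => k1
    | 2 => k2
    | 3 => k2
    | _ => k3
  let uu : ℕ → Fin 3 → ℂ := fun i => match i with
    | 0 => B
    | 1 => p1
    | 2 => v1
    | 3 => p2
    | 4 => v2
    | 5 => p3
    | _ => v3
  refine ⟨kk, uu, rfl, ⟨1, one_pos, t0, fun j => ?_⟩, ?_, ?_⟩
  · rw [one_smul]; exact hA j
  · intro i hi
    interval_cases i
    · exact s1
    · exact s2
    · exact s3
    · exact s4
    · exact s5
    · exact s6
  · intro z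
    obtain ⟨x, y, t, hx, hy, ht, hxyt⟩ := three b12 b13 b23
      (z - (v1 k1 - p1 k1) - (v2 k2 - p2 k2) - (v3 k3 - p3 k3))
    let ww : ℕ → ℝ := fun i => match i with
      | 0 => x
      | 2 => y
      | 4 => t
      | _ => 1
    refine ⟨ww, ?_, ?_⟩
    · intro i hi
      interval_cases i
      · exact hx
      · exact one_ne_zero
      · exact hy
      · exact one_ne_zero
      · exact ht
      · exact one_ne_zero
    · simp only [Finset.sum_range_succ, Finset.sum_range_zero]
      show 0 + x • (p1 k1 - B k1) + (1 : ℝ) • (v1 k1 - p1 k1) + y • (p2 k2 - v1 k2)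
        + (1 : ℝ) • (v2 k2 - p2 k2) + t • (p3 k3 - v2 k3) + (1 : ℝ) • (v3 k3 - p3 k3) = z
      have : z = (x • (p1 k1 - B k1) + y • (p2 k2 - v1 k2) + t • (p3 k3 - v2 k3))
        + (v1 k1 - p1 k1) + (v2 k2 - p2 k2) + (v3 k3 - p3 k3) := by
        rw [hxyt]; ring
      rw [this]
      simp only [one_smul]
      ring

lemma sel {a b : ℂ} (ha : a ≠ 0) (hb : b ≠ 0) (h : (‖b‖ : ℝ) • a + (‖a‖ : ℝ) • b ≠ 0) :
    ∃ c, 0 < dt a c ∧ 0 < dt b c := by
  have hna := norm_pos_iff.2 ha
  have hnb := norm_pos_iff.2 hb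
  have sa : ‖a‖ ^ 2 = a.re * a.re + a.im * a.im := by
    rw [← Complex.normSq_eq_norm_sq, Complex.normSq_apply]
  have sb : ‖b‖ ^ 2 = b.re * b.re + b.im * b.im := by
    rw [← Complex.normSq_eq_norm_sq, Complex.normSq_apply]
  set x := (‖b‖ : ℝ) • a + (‖a‖ : ℝ) • b with hx
  have hxr : x.re = ‖b‖ * a.re + ‖a‖ * b.re := by simp [hx]
  have hxi : x.im = ‖b‖ * a.im + ‖a‖ * b.im := by simp [hx]
  have hxx : 0 < x.re * x.re + x.im * x.im := by
    have := Complex.normSq_pos.2 h
    rwa [Complex.normSq_apply] at this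
  set q := ‖a‖ * ‖b‖ + (a.re * b.re + a.im * b.im) with hq
  have e : x.re * x.re + x.im * x.im = 2 * (‖a‖ * ‖b‖) * q := by
    rw [hxr, hxi, hq]
    linear_combination (-‖b‖ ^ 2) * sa + (-‖a‖ ^ 2) * sb
  have hq0 : 0 < q := by
    rw [e] at hxx
    exact (pos_iff_pos_of_mul_pos hxx).1 (by positivity)
  have d1 : ∀ y : ℂ, dt y (Complex.I * x) = y.re * x.re + y.im * x.im := by
    intro y; simp [dt]
  refine ⟨Complex.I * x, ?_, ?_⟩
  · rw [d1, hxr, hxi]
    have : a.re * (‖b‖ * a.re + ‖a‖ * b.re) + a.im * (‖b‖ * a.im + ‖a‖ * b.im) = ‖a‖ * q := by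
      rw [hq]; linear_combination (-‖b‖) * sa
    rw [this]; positivity
  · rw [d1, hxr, hxi]
    have : b.re * (‖b‖ * a.re + ‖a‖ * b.re) + b.im * (‖b‖ * a.im + ‖a‖ * b.im) = ‖b‖ * q := by
      rw [hq]; linear_combination (-‖a‖) * sb
    rw [this]; positivity

lemma edge_ne {u : Fin 3 → ℂ} (hu : 0 < area u) (k : Fin 3) : edge u k ≠ 0 := by
  intro h
  have := edge_dt_edge u k
  rw [h, dt_zero_left] at this
  linarith

/-- Any two positively oriented triangles are joined by six vertex moves. -/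
theorem six {B A : Fin 3 → ℂ} (hB : 0 < area B) (hA : 0 < area A) : Chain 6 B A := by
  by_cases hcase : ∃ k, (‖edge A k‖ : ℝ) • edge B k + (‖edge B k‖ : ℝ) • edge A k ≠ 0
  · obtain ⟨k, hk⟩ := hcase
    obtain ⟨c, hc1, hc2⟩ := sel (edge_ne hB k) (edge_ne hA k) hk
    -- first double move
    let v1 : Fin 3 → ℂ := Function.update B k (B (k + 2) + c)
    have v1k : v1 k = B (k + 2) + c := by simp [v1]
    have v1f : ∀ j, j ≠ k → v1 j = B j := fun j hj => by simp [v1, Function.update, hj]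
    have e1 : edge v1 (k + 1) = c := by
      rw [edge1, v1k, v1f _ (Tunnel.ne2 k)]; ring
    have D1 := dbl hB k hc1 v1f v1k
    have a1 : 0 < area v1 := by
      obtain ⟨_, _, s2, _, _⟩ := D1 1 1 one_ne_zero one_ne_zero
      exact s2.pv
    -- second
    let v2 : Fin 3 → ℂ := Function.update v1 (k + 1) (v1 k + (- edge A k - c))
    have v2k : v2 (k + 1) = v1 (k + 1 + 2) + (- edge A k - c) := by simp [v2, f12]
    have v2f : ∀ j, j ≠ k + 1 → v2 j = v1 j := fun j hj => by simp [v2, Function.update, hj]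
    have D2 := dbl a1 (k + 1) (c := - edge A k - c) (by
      rw [e1, dt_sub_right, dt_neg_right, dt_self, dt_swap (edge A k) c]; linarith) v2f v2k
    have a2 : 0 < area v2 := by
      obtain ⟨_, _, s2, _, _⟩ := D2 1 1 one_ne_zero one_ne_zero
      exact s2.pv
    rw [f12] at v2k
    have v2kk : v2 k = v1 k := v2f _ (Tunnel.ne1 k).symm
    have v2k2 : v2 (k + 2) = v1 (k + 2) := v2f _ (Tunnel.ne21 k)
    have e2 : edge v2 k = edge A k := by
      rw [edge, v2k, v2k2, v1k, v1f _ (Tunnel.ne2 k)]; ring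
    -- third
    let v3 : Fin 3 → ℂ := Function.update v2 k (v2 (k + 2) + edge A (k + 1))
    have v3k : v3 k = v2 (k + 2) + edge A (k + 1) := by simp [v3]
    have v3f : ∀ j, j ≠ k → v3 j = v2 j := fun j hj => by simp [v3, Function.update, hj]
    have D3 := dbl a2 k (c := edge A (k + 1)) (by rw [e2, edge_dt_edge]; exact hA) v3f v3k
    refine chain_six D1 D2 D3 (t0 := v3 (k + 2) - A (k + 2)) ?_
    intro j
    rcases Tunnel.cases3 k j with e | e | e
    · subst e
      rw [v3k, v3f _ (Tunnel.ne2 j), edge1]; ring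
    · subst e
      have h1 : v2 (k + 2) - v2 (k + 1) = A (k + 2) - A (k + 1) := e2
      rw [v3f _ (Tunnel.ne2 k), v3f _ (Tunnel.ne1 k)]
      linear_combination (-1 : ℂ) * h1
    · subst e; ring
  · push Not at hcase
    -- opposite triangles
    have hk : (‖edge B 2‖ : ℝ) • edge B 0 + (‖edge B 0‖ : ℝ) • edge B 2 ≠ 0 := by
      intro h0
      have h1 : dt (edge B 2) ((‖edge B 2‖ : ℝ) • edge B 0 + (‖edge B 0‖ : ℝ) • edge B 2) = 0 := by
        rw [h0, dt_zero_right]
      rw [dt_add_right, dt_smul_right, dt_smul_right, dt_self, mul_zero, add_zero] at h1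
      have h2 : dt (edge B 2) (edge B 0) = area B := edge_dt_edge B 2
      rw [h2] at h1
      have := norm_pos_iff.2 (edge_ne hB 2)
      have := mul_pos this hB
      linarith
    obtain ⟨c, hc1, hc2⟩ := sel (edge_ne hB 0) (edge_ne hB 2) hk
    have hc3 : 0 < dt c (edge A 2) := by
      have h1 := hcase 2
      have h2 : dt c ((‖edge A 2‖ : ℝ) • edge B 2 + (‖edge B 2‖ : ℝ) • edge A 2) = 0 := by
        rw [h1, dt_zero_right]
      rw [dt_add_right, dt_smul_right, dt_smul_right, dt_swap (edge B 2) c] at h2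
      have n1 := norm_pos_iff.2 (edge_ne hB 2)
      have n2 := norm_pos_iff.2 (edge_ne hA 2)
      have n3 := mul_pos n2 hc2
      have n4 : 0 < ‖edge B 2‖ * dt c (edge A 2) := by linarith
      exact (pos_iff_pos_of_mul_pos n4).1 n1
    let v1 : Fin 3 → ℂ := ![B 2 + c, B 1, B 2]
    have D1 : Dbl 0 B v1 := dbl hB 0 hc1 (by
        intro j hj
        fin_cases j
        · exact absurd rfl hj
        · rfl
        · rfl) rfl
    have a1 : 0 < area v1 := by
      obtain ⟨_, _, s2, _, _⟩ := D1 1 1 one_ne_zero one_ne_zero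
      exact s2.pv
    have e1 : edge v1 1 = c := by
      show (B 2 + c) - B 2 = c
      ring
    let v2 : Fin 3 → ℂ := ![B 2 + c, B 2 + c + edge A 2, B 2]
    have D2 : Dbl 1 v1 v2 := dbl a1 1 (c := edge A 2) (by rw [e1]; exact hc3) (by
        intro j hj
        fin_cases j
        · rfl
        · exact absurd rfl hj
        · rfl) rfl
    have a2 : 0 < area v2 := by
      obtain ⟨_, _, s2, _, _⟩ := D2 1 1 one_ne_zero one_ne_zero
      exact s2.pv
    have e2 : edge v2 2 = edge A 2 := by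
      show (B 2 + c + edge A 2) - (B 2 + c) = edge A 2
      ring
    let v3 : Fin 3 → ℂ := ![B 2 + c, B 2 + c + edge A 2, B 2 + c + edge A 2 + edge A 0]
    have D3 : Dbl 2 v2 v3 := dbl a2 2 (c := edge A 0) (by
        rw [e2]
        have : dt (edge A 2) (edge A 0) = area A := edge_dt_edge A 2
        rw [this]; exact hA) (by
        intro j hj
        fin_cases j
        · rfl
        · rfl
        · exact absurd rfl hj) rfl
    refine chain_six D1 D2 D3 (t0 := B 2 + c - A 0) ?_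
    intro j
    fin_cases j
    · show B 2 + c = A 0 + (B 2 + c - A 0)
      ring
    · show B 2 + c + (A 1 - A 0) = A 1 + (B 2 + c - A 0)
      ring
    · show B 2 + c + (A 1 - A 0) + (A 2 - A 1) = A 2 + (B 2 + c - A 0)
      ring

/-- One more move can be added at the beginning. -/
lemma exists_step {B : Fin 3 → ℂ} (hB : 0 < area B) : ∃ B1, Step 0 B B1 := by
  refine ⟨![B 2 + (2 : ℝ) • edge B 1 + (1 / 2 : ℝ) • edge B 0, B 1, B 2],
    step_of hB 0 (ρ := 2) (p := 1 / 2) (by norm_num) (by norm_num) (by norm_num) (by norm_num)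
      (by norm_num) (by norm_num) ?_ rfl⟩
  intro j hj
  fin_cases j
  · exact absurd rfl hj
  · rfl
  · rfl

theorem chain_of_ge_six {r : ℕ} (hr : 6 ≤ r) {B A : Fin 3 → ℂ} (hB : 0 < area B)
    (hA : 0 < area A) : Chain r B A := by
  induction r, hr using Nat.le_induction generalizing B with
  | base => exact six hB hA
  | succ r hr ih =>
    obtain ⟨B1, hs⟩ := exists_step hB
    exact Chain.cons hs (ih hs.pv)

end Pool.Agent.Helper183.Collar
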