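import Pool.Agent.Helper183_Collar.Norm

set_option autoImplicit false
set_option linter.unusedSectionVars false

namespace Pool.Agent.Helper183.Collar

open Set Filter Topology Module

section

variable {V : Type*} [Fintype V] [DecidableEq V]

/-- orientation condition -/
def Opp (X : V → ℂ × ℝ) (a b : Fin 3 → V) : Prop :=
  vol (X (a 0)) (X (a 1)) (X (a 2)) (X (b 0)) * vol (X (b 0)) (X (b 1)) (X (b 2)) (X (a 0)) < 0

lemma Opp.equiv {X : V → ℂ × ℝ} {a b : Fin 3 → V} (h : Opp X a b)
    (e : (ℂ × ℝ) ≃ᵃ[ℝ] (ℂ × ℝ)) : Opp (e ∘ X) a b := by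
  obtain ⟨c, hc, hv⟩ := vol_equiv e
  unfold Opp at *
  simp only [Function.comp]
  rw [hv, hv]
  have : c * vol (X (a 0)) (X (a 1)) (X (a 2)) (X (b 0)) *
      (c * vol (X (b 0)) (X (b 1)) (X (b 2)) (X (a 0))) = (c * c) *
      (vol (X (a 0)) (X (a 1)) (X (a 2)) (X (b 0)) *
        vol (X (b 0)) (X (b 1)) (X (b 2)) (X (a 0))) := by ring
  rw [this]
  exact mul_neg_of_pos_of_neg (mul_self_pos.2 hc) h

lemma Opp.proj {X : V → ℂ × ℝ} {a b : Fin 3 → V} (h : Opp X a b) (hX : ∀ v, X v ∈ pos) :
    Opp (proj ∘ X) a b := by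
  unfold Opp at *
  simp only [Function.comp]
  rw [vol_proj (hX _) (hX _) (hX _) (hX _), vol_proj (hX _) (hX _) (hX _) (hX _)]
  have p0 : 0 < (X (a 0)).1.re := hX _
  have p1 : 0 < (X (a 1)).1.re := hX _
  have p2 : 0 < (X (a 2)).1.re := hX _
  have q0 : 0 < (X (b 0)).1.re := hX _
  have q1 : 0 < (X (b 1)).1.re := hX _
  have q2 : 0 < (X (b 2)).1.re := hX _
  rw [div_mul_div_comm, neg_mul_neg]
  exact div_neg_of_neg_of_pos h (by positivity)

/-- The normal form: the two facets on the levels one and zero. -/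
structure Normal (X : V → ℂ × ℝ) (F : Finset (Finset V)) (a b : Fin 3 → V)
    (A B : Fin 3 → ℂ) : Prop where
  poly : IsPolytope X F
  hXa : ∀ j, X (a j) = (A j, 1)
  hXb : ∀ j, X (b j) = (B j, 0)
  lev : ∀ v, 0 ≤ (X v).2 ∧ (X v).2 ≤ 1
  lev0 : ∀ v, (X v).2 = 0 → ∃ j, v = b j
  lev1 : ∀ v, (X v).2 = 1 → ∃ j, v = a j

lemma Normal.vols {X : V → ℂ × ℝ} {F : Finset (Finset V)} {a b : Fin 3 → V}
    {A B : Fin 3 → ℂ} (h : Normal X F a b A B) :
    vol (X (a 0)) (X (a 1)) (X (a 2)) (X (b 0)) = - area A ∧
    vol (X (b 0)) (X (b 1)) (X (b 2)) (X (a 0)) = area B := by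
  simp only [h.hXa, h.hXb]
  constructor
  · simp only [vol, vol3, area, Prod.fst_sub, Prod.snd_sub]; ring
  · simp only [vol, vol3, area, Prod.fst_sub, Prod.snd_sub]; ring

/-- Fix the orientation by a reflection. -/
lemma Normal.fix {X : V → ℂ × ℝ} {F : Finset (Finset V)} {a b : Fin 3 → V}
    {A B : Fin 3 → ℂ} (h : Normal X F a b A B) (ho : Opp X a b) :
    ∃ X' A' B', Normal (V := V) X' F a b A' B' ∧ 0 < area A' ∧ 0 < area B' := by
  obtain ⟨v1, v2⟩ := h.vols
  unfold Opp at ho
  rw [v1, v2] at ho
  have hpos : 0 < area A * area B := by linarith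
  rcases lt_trichotomy 0 (area A) with hA | hA | hA
  · exact ⟨X, A, B, h, hA, (pos_iff_pos_of_mul_pos hpos).1 hA⟩
  · rw [← hA] at hpos; simp at hpos
  · have hB : area B < 0 := (neg_iff_neg_of_mul_pos hpos).1 hA
    have ar : ∀ C : Fin 3 → ℂ, area (fun j => (⟨(C j).re, -(C j).im⟩ : ℂ)) = - area C := by
      intro C
      simp only [area, dt, Complex.sub_re, Complex.sub_im]; ring
    refine ⟨conjE ∘ X, fun j => ⟨(A j).re, -(A j).im⟩, fun j => ⟨(B j).re, -(B j).im⟩,
      ⟨h.poly.map conjE, ?_, ?_, ?_, ?_, ?_⟩, ?_, ?_⟩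
    · intro j
      show conjE (X (a j)) = _
      rw [h.hXa, conjE_apply]
    · intro j
      show conjE (X (b j)) = _
      rw [h.hXb, conjE_apply]
    · intro v; exact h.lev v
    · intro v; exact h.lev0 v
    · intro v; exact h.lev1 v
    · rw [ar]; linarith
    · rw [ar]; linarith

/-- Every polytope with two disjoint triangular facets can be brought into normal form. -/
theorem exists_normal {X : V → ℂ × ℝ} {F : Finset (Finset V)} {a b : Fin 3 → V}
    (h : IsPolytope X F) (hA : Finset.univ.image a ∈ F) (hB : Finset.univ.image b ∈ F)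
    (hdis : ∀ i j, a i ≠ b j) (ho : Opp X a b) :
    ∃ X' A' B', Normal (V := V) X' F a b A' B' ∧ 0 < area A' ∧ 0 < area B' := by
  obtain ⟨α, α0, α1⟩ := h.facet _ hA
  obtain ⟨β, β0, β1⟩ := h.facet _ hB
  have ma : ∀ j, a j ∈ Finset.univ.image a := fun j => Finset.mem_image_of_mem _ (Finset.mem_univ _)
  have mb : ∀ j, b j ∈ Finset.univ.image b := fun j => Finset.mem_image_of_mem _ (Finset.mem_univ _)
  have na : ∀ j, b j ∉ Finset.univ.image a := by
    intro j hj
    obtain ⟨i, _, hi⟩ := Finset.mem_image.1 hj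
    exact hdis i j hi
  have nb : ∀ j, a j ∉ Finset.univ.image b := by
    intro j hj
    obtain ⟨i, _, hi⟩ := Finset.mem_image.1 hj
    exact hdis j i hi.symm
  have αn : ∀ v, 0 ≤ α (X v) := by
    intro v
    by_cases hv : v ∈ Finset.univ.image a
    · rw [α0 v hv]
    · exact (α1 v hv).le
  have βn : ∀ v, 0 ≤ β (X v) := by
    intro v
    by_cases hv : v ∈ Finset.univ.image b
    · rw [β0 v hv]
    · exact (β1 v hv).le
  have αz : ∀ v, α (X v) = 0 → ∃ j, v = a j := by
    intro v hv
    by_contra hc
    push Not at hc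
    have : v ∉ Finset.univ.image a := by
      intro hj
      obtain ⟨i, _, hi⟩ := Finset.mem_image.1 hj
      exact hc i hi.symm
    exact absurd hv (α1 v this).ne'
  have βz : ∀ v, β (X v) = 0 → ∃ j, v = b j := by
    intro v hv
    by_contra hc
    push Not at hc
    have : v ∉ Finset.univ.image b := by
      intro hj
      obtain ⟨i, _, hi⟩ := Finset.mem_image.1 hj
      exact hc i hi.symm
    exact absurd hv (β1 v this).ne'
  have αβ : ∀ v, 0 < α (X v) + β (X v) := by
    intro v
    rcases (αn v).eq_or_lt with h0 | h0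
    · obtain ⟨j, rfl⟩ := αz v h0.symm
      have := β1 _ (nb j)
      linarith
    · have := βn v
      linarith
  by_cases hc : crs (α + β) β = 0
  · -- parallel planes
    -- the linear part of β is not zero
    have hb : ∃ k : Fin 3, (![β.linear (1, 0), β.linear (Complex.I, 0), β.linear (0, 1)] k) ≠ 0 := by
      by_contra hcon
      push Not at hcon
      have c0 : β.linear (1, 0) = 0 := hcon 0
      have c1 : β.linear (Complex.I, 0) = 0 := hcon 1
      have c2 : β.linear (0, 1) = 0 := hcon 2
      have e1 := coeff β (X (a 0))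
      have e2 := coeff β (X (b 0))
      rw [c0, c1, c2] at e1 e2
      have e3 := β1 _ (nb 0)
      have e4 := β0 _ (mb 0)
      rw [e1] at e3
      rw [e2] at e4
      linarith
    -- δ is an affine function of β
    obtain ⟨lam, hlam⟩ : ∃ lam : ℝ, ∀ p, (α + β) p = lam * β p + ((α + β) 0 - lam * β 0) := by
      have c1 : (α + β).linear (Complex.I, 0) * β.linear (0, 1)
          - (α + β).linear (0, 1) * β.linear (Complex.I, 0) = 0 := congrArg Prod.fst hc
      have c2 : (α + β).linear (0, 1) * β.linear (1, 0)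
          - (α + β).linear (1, 0) * β.linear (0, 1) = 0 := congrArg (fun q => q.2.1) hc
      have c3 : (α + β).linear (1, 0) * β.linear (Complex.I, 0)
          - (α + β).linear (Complex.I, 0) * β.linear (1, 0) = 0 := congrArg (fun q => q.2.2) hc
      have key : ∃ lam : ℝ, (α + β).linear (1, 0) = lam * β.linear (1, 0) ∧
          (α + β).linear (Complex.I, 0) = lam * β.linear (Complex.I, 0) ∧
          (α + β).linear (0, 1) = lam * β.linear (0, 1) := by
        obtain ⟨k, hk⟩ := hb
        fin_cases k
        · have hk : β.linear (1, 0) ≠ 0 := hk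
          refine ⟨(α + β).linear (1, 0) / β.linear (1, 0), ?_, ?_, ?_⟩
          · field_simp
          · field_simp; linarith
          · field_simp; linarith
        · have hk : β.linear (Complex.I, 0) ≠ 0 := hk
          refine ⟨(α + β).linear (Complex.I, 0) / β.linear (Complex.I, 0), ?_, ?_, ?_⟩
          · field_simp; linarith
          · field_simp
          · field_simp; linarith
        · have hk : β.linear (0, 1) ≠ 0 := hk
          refine ⟨(α + β).linear (0, 1) / β.linear (0, 1), ?_, ?_, ?_⟩
          · field_simp; linarith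
          · field_simp; linarith
          · field_simp
      obtain ⟨lam, l1, l2, l3⟩ := key
      refine ⟨lam, fun p => ?_⟩
      rw [coeff (α + β) p, coeff β p, l1, l2, l3]; ring
    set c := (α + β) 0 - lam * β 0 with hcdef
    have hαβ : ∀ p, α p + β p = lam * β p + c := fun p => hlam p
    have hc0 : 0 < c := by
      have h1 := hαβ (X (b 0))
      have h2 := α1 _ (na 0)
      rw [β0 _ (mb 0)] at h1
      linarith
    have h1l : 0 < 1 - lam := by
      have h1 := hαβ (X (a 0))
      have h2 := β1 _ (nb 0)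
      rw [α0 _ (ma 0)] at h1
      have h3 : (1 - lam) * β (X (a 0)) = c := by linarith
      by_contra hcon
      push Not at hcon
      have := mul_nonneg (sub_nonneg.2 hcon) h2.le
      linarith
    set m := c / (1 - lam) with hm
    have hm0 : 0 < m := div_pos hc0 h1l
    have hmc : (1 - lam) * m = c := by rw [hm]; field_simp
    have hβa : ∀ j, β (X (a j)) = m := by
      intro j
      have h1 := hαβ (X (a j))
      rw [α0 _ (ma j)] at h1
      have : (1 - lam) * β (X (a j)) = (1 - lam) * m := by rw [hmc]; linarith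
      exact mul_left_cancel₀ h1l.ne' this
    -- a frame
    obtain ⟨e, he⟩ : ∃ e : (ℂ × ℝ) ≃ᵃ[ℝ] (ℂ × ℝ), ∀ p, (e p).2 = m⁻¹ * β p := by
      have hl : ∀ q, (m⁻¹ • β).linear q = m⁻¹ * β.linear q := fun q => rfl
      have hmi : m⁻¹ ≠ 0 := (inv_pos.2 hm0).ne'
      obtain ⟨k, hk⟩ := hb
      have aux : ∃ δ : ℂ × ℝ →ᵃ[ℝ] ℝ, crs δ (m⁻¹ • β) ≠ 0 := by
        have r1 : ∀ q : ℂ × ℝ, (mkF ⟨0, -1⟩ 0 0).linear q = q.1.re := by
          intro q; simp [mkF_linear, dt]
        have r2 : ∀ q : ℂ × ℝ, (mkF ⟨1, 0⟩ 0 0).linear q = q.1.im := by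
          intro q; simp [mkF_linear, dt]
        fin_cases k
        · have hk : β.linear (1, 0) ≠ 0 := hk
          refine ⟨mkF ⟨1, 0⟩ 0 0, fun h0 => ?_⟩
          have h3 := congrArg (fun q => q.2.2) h0
          simp only [crs, r2, hl] at h3
          simp at h3
          rcases h3 with h3 | h3
          · exact hm0.ne' h3
          · exact hk h3
        · have hk : β.linear (Complex.I, 0) ≠ 0 := hk
          refine ⟨mkF ⟨0, -1⟩ 0 0, fun h0 => ?_⟩
          have h3 := congrArg (fun q => q.2.2) h0
          simp only [crs, r1, hl] at h3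
          simp at h3
          rcases h3 with h3 | h3
          · exact hm0.ne' h3
          · exact hk h3
        · have hk : β.linear (0, 1) ≠ 0 := hk
          refine ⟨mkF ⟨0, -1⟩ 0 0, fun h0 => ?_⟩
          have h3 := congrArg (fun q => q.2.1) h0
          simp only [crs, r1, hl] at h3
          simp at h3
          rcases h3 with h3 | h3
          · exact hm0.ne' h3
          · exact hk h3
      obtain ⟨δ, hδ⟩ := aux
      obtain ⟨e, he⟩ := exists_frame δ (m⁻¹ • β) hδ
      exact ⟨e, fun p => (he p).2⟩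
    have hN : Normal (e ∘ X) F a b (fun j => (e (X (a j))).1) (fun j => (e (X (b j))).1) := by
      refine ⟨h.map e, ?_, ?_, ?_, ?_, ?_⟩
      · intro j
        refine Prod.ext rfl ?_
        show (e (X (a j))).2 = 1
        rw [he, hβa, inv_mul_cancel₀ hm0.ne']
      · intro j
        refine Prod.ext rfl ?_
        show (e (X (b j))).2 = 0
        rw [he, β0 _ (mb j), mul_zero]
      · intro v
        show 0 ≤ (e (X v)).2 ∧ (e (X v)).2 ≤ 1
        rw [he]
        refine ⟨mul_nonneg (inv_pos.2 hm0).le (βn v), ?_⟩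
        have h1 := hαβ (X v)
        have h2 := αn v
        have h3 : (1 - lam) * β (X v) ≤ (1 - lam) * m := by rw [hmc]; linarith
        have h4 : β (X v) ≤ m := le_of_mul_le_mul_left h3 h1l
        rw [inv_mul_le_iff₀ hm0]; linarith
      · intro v hv
        have hv : (e (X v)).2 = 0 := hv
        rw [he] at hv
        exact βz v ((mul_eq_zero.1 hv).resolve_left (inv_pos.2 hm0).ne')
      · intro v hv
        have hv : (e (X v)).2 = 1 := hv
        rw [he] at hv
        apply αz
        have h1 := hαβ (X v)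
        have h2 : β (X v) = m := by
          field_simp at hv
          linarith
        rw [h2] at h1
        linarith
    exact hN.fix (ho.equiv e)
  · obtain ⟨e, he⟩ := exists_frame (α + β) β hc
    have hpos : ∀ v, (e ∘ X) v ∈ pos := by
      intro v
      show 0 < (e (X v)).1.re
      rw [(he _).1]
      exact αβ v
    have hlev : ∀ v, ((proj ∘ (e ∘ X)) v).2 = β (X v) / (α (X v) + β (X v)) := by
      intro v
      show (e (X v)).2 / (e (X v)).1.re = _
      rw [(he _).1, (he _).2]
      rfl
    have hN : Normal (proj ∘ (e ∘ X)) F a b (fun j => (proj (e (X (a j)))).1)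
        (fun j => (proj (e (X (b j)))).1) := by
      refine ⟨(h.map e).proj hpos, ?_, ?_, ?_, ?_, ?_⟩
      · intro j
        refine Prod.ext rfl ?_
        rw [hlev, α0 _ (ma j), zero_add]
        exact div_self (β1 _ (nb j)).ne'
      · intro j
        refine Prod.ext rfl ?_
        rw [hlev, β0 _ (mb j), zero_div]
      · intro v
        rw [hlev]
        refine ⟨div_nonneg (βn v) (αβ v).le, ?_⟩
        rw [div_le_one (αβ v)]
        linarith [αn v]
      · intro v hv
        rw [hlev] at hv
        rcases div_eq_zero_iff.1 hv with h0 | h0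
        · exact βz v h0
        · exact absurd h0 (αβ v).ne'
      · intro v hv
        rw [hlev, div_eq_one_iff_eq (αβ v).ne'] at hv
        exact αz v (by linarith)
    exact hN.fix ((ho.equiv e).proj hpos)

end

end Pool.Agent.Helper183.Collar
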