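import Pool.Agent.Helper183_Collar.Space
import Pool.Agent.Helper183_Collar.Norm2
import Pool.Agent.Helper183_Collar.Closing2
import Pool.Agent.Helper183_Collar.Moves2

set_option autoImplicit false

namespace Pool.Agent.Helper183.Collar

open Set Filter Topology Module

lemma signedVol_symm (p q r s : E3) :
    vol (toE3.symm p) (toE3.symm q) (toE3.symm r) (toE3.symm s) = signedVol p q r s := by
  have h : ∀ z : E3, toE3.symm z = (⟨z 0, z 1⟩, z 2) := fun z => rfl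
  simp only [h, vol, vol3, dt, signedVol, Prod.fst_sub, Prod.snd_sub, Complex.sub_re,
    Complex.sub_im, Matrix.det_fin_three, Matrix.of_apply, PiLp.sub_apply]
  simp
  ring

/-- A placement in `ℂ × ℝ` gives a realization in Euclidean space. -/
lemma realize {W : Type*} [DecidableEq W] {G : Finset (Finset W)} {y : W → ℂ × ℝ}
    (hc : Complex G y) (hu : ∃ H : (ℂ × ℝ) ≃ₜ (ℂ × ℝ), H '' surf G y = roundTorus) :
    Realizes G (toE3 ∘ y) ∧ Unknotted (surf G (toE3 ∘ y)) := by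
  obtain ⟨H, hH⟩ := hu
  obtain ⟨h1, h2, h3, h4⟩ := hc.map toE3
  let Φ : E3 ≃ₜ (ℂ × ℝ) := toE3.symm.toHomeomorphOfFiniteDimensional
  let Ψ : (ℂ × ℝ) ≃ₜ E3 := toE3.toHomeomorphOfFiniteDimensional
  have hs := surf_map toE3 G y
  have hΦ : Φ '' surf G (toE3 ∘ y) = surf G y := by
    rw [hs]
    ext p
    constructor
    · rintro ⟨_, ⟨q, hq, rfl⟩, rfl⟩
      have : Φ (toE3 q) = q := toE3.symm_apply_apply q
      rw [this]; exact hq
    · intro hp
      exact ⟨toE3 p, ⟨p, hp, rfl⟩, toE3.symm_apply_apply p⟩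
  have e1 : surf G (toE3 ∘ y) ≃ₜ roundTorus := by
    have a : surf G (toE3 ∘ y) ≃ₜ (Φ.trans H) '' surf G (toE3 ∘ y) := Homeomorph.image _ _
    have b : (Φ.trans H) '' surf G (toE3 ∘ y) = roundTorus := by
      have hcomp : (⇑(Φ.trans H) : E3 → ℂ × ℝ) = ⇑H ∘ ⇑Φ := rfl
      rw [hcomp, image_comp, hΦ, hH]
    exact a.trans (Homeomorph.setCongr b)
  obtain ⟨e2⟩ := torus_homeo
  refine ⟨⟨h1, h2, h3, h4, ⟨e1.trans e2⟩⟩, ⟨(Φ.trans H).trans Ψ, ?_⟩⟩
  have hcomp : (⇑((Φ.trans H).trans Ψ) : E3 → E3) = ⇑toE3 ∘ ⇑H ∘ ⇑Φ := rfl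
  rw [hcomp, image_comp, image_comp, hΦ, hH, toE3_torus]
  rfl

/-- The collar theorem. -/
theorem collar_theorem {V : Type*} [Fintype V] [DecidableEq V] {x : V → E3}
    {F : Finset (Finset V)} (hP : IsPolytope x F) {a b : Fin 3 → V}
    (ainj : Function.Injective a) (binj : Function.Injective b) (hab : ∀ i j, a i ≠ b j)
    (hA : Finset.univ.image a ∈ F) (hB : Finset.univ.image b ∈ F)
    (hor : signedVol (x (a 0)) (x (a 1)) (x (a 2)) (x (b 0)) *
      signedVol (x (b 0)) (x (b 1)) (x (b 2)) (x (a 0)) < 0)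
    {n : ℕ} (hn : 6 ≤ n) :
    ∃ y : V ⊕ (Fin n × Fin 3) → E3,
      Realizes (collar F a b n) y ∧ Unknotted (surf (collar F a b n) y) := by
  have hP' : IsPolytope (toE3.symm ∘ x) F := hP.map toE3.symm
  have ho : Opp (toE3.symm ∘ x) a b := by
    unfold Opp
    simp only [Function.comp]
    rw [signedVol_symm, signedVol_symm]
    exact hor
  obtain ⟨X, A, B, hN, hAp, hBp⟩ := exists_normal hP' hA hB hab ho
  obtain ⟨e, T, hD⟩ := closing hN.poly ainj binj hA hB hN.hXa hN.hXb hN.lev hN.lev0 hN.lev1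
    (by omega : 2 ≤ n) (chain_of_ge_six hn hBp hAp)
  obtain ⟨hc, hu⟩ := hD.collar_unknotted
  exact ⟨_, realize hc hu⟩

end Pool.Agent.Helper183.Collar
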