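import Pool.Agent.Helper183_Collar.Bar

set_option autoImplicit false

namespace Pool.Agent.Helper183.Collar

open Set Filter Topology Module

/-- A vertex move of a positively oriented triangle. -/
structure Step (k : Fin 3) (u v : Fin 3 → ℂ) : Prop where
  fix : ∀ j, j ≠ k → v j = u j
  pu : 0 < area u
  pv : 0 < area v
  gen : ∀ j, dt (edge u j) (v k - u k) ≠ 0
  apex : ∃ d, ∀ j, j ≠ k → 0 < dt (edge u j) d ∧ 0 < dt (edge v j) d

/-- A chain of `r` vertex moves from `B` to a copy of `A`, with a closing property. -/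
def Chain (r : ℕ) (B A : Fin 3 → ℂ) : Prop :=
  ∃ (k : ℕ → Fin 3) (u : ℕ → Fin 3 → ℂ), u 0 = B ∧
    (∃ μ : ℝ, 0 < μ ∧ ∃ t0 : ℂ, ∀ j, u r j = μ • A j + t0) ∧
    (∀ i < r, Step (k i) (u i) (u (i + 1))) ∧
    ∀ z : ℂ, ∃ ω : ℕ → ℝ, (∀ i < r, ω i ≠ 0) ∧
      ∑ i ∈ Finset.range r, ω i • (u (i + 1) (k i) - u i (k i)) = z

lemma f12 (k : Fin 3) : k + 1 + 2 = k := by fin_cases k <;> rfl
lemma f11 (k : Fin 3) : k + 1 + 1 = k + 2 := by fin_cases k <;> rfl
lemma f21 (k : Fin 3) : k + 2 + 1 = k := by fin_cases k <;> rfl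
lemma f22 (k : Fin 3) : k + 2 + 2 = k + 1 := by fin_cases k <;> rfl

lemma edge1 (u : Fin 3 → ℂ) (k : Fin 3) : edge u (k + 1) = u k - u (k + 2) := by
  simp only [edge, f12, f11]

lemma edge2 (u : Fin 3 → ℂ) (k : Fin 3) : edge u (k + 2) = u (k + 1) - u k := by
  simp only [edge, f22, f21]

lemma Chain.cons {r : ℕ} {k0 : Fin 3} {B B1 A : Fin 3 → ℂ} (h : Step k0 B B1)
    (hc : Chain r B1 A) : Chain (r + 1) B A := by
  obtain ⟨k, u, h0, ⟨μ, hμ, t0, hr⟩, hs, hf⟩ := hc
  refine ⟨fun i => Nat.casesOn i k0 k, fun i => Nat.casesOn i B u, rfl, ⟨μ, hμ, t0, hr⟩, ?_, ?_⟩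
  · intro i hi
    cases i with
    | zero => show Step k0 B (u 0); rw [h0]; exact h
    | succ i => exact hs i (by omega)
  · intro z
    obtain ⟨ω, hω, hz⟩ := hf (z - (B1 k0 - B k0))
    refine ⟨fun i => Nat.casesOn i 1 ω, ?_, ?_⟩
    · intro i hi
      cases i with
      | zero => exact one_ne_zero
      | succ i => exact hω i (by omega)
    · rw [Finset.sum_range_succ']
      show ∑ i ∈ Finset.range r, ω i • (u (i + 1) (k i) - u i (k i))
        + (1 : ℝ) • (u 0 k0 - B k0) = z
      rw [hz, h0, one_smul]; ring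

lemma exists_T {ρ p : ℝ} (hρ : 0 < ρ) (h1 : -1 < p) (h2 : p < ρ) :
    ∃ T : ℝ, 1 < T ∧ 0 < ρ - p * T ∧ 0 < (1 + p) * T - ρ := by
  have hp : 0 < 1 + p := by linarith
  rcases le_or_gt p 0 with h | h
  · refine ⟨1 + ρ / (1 + p), ?_, ?_, ?_⟩
    · have := div_pos hρ hp; linarith
    · have := div_pos hρ hp
      nlinarith
    · have : (1 + p) * (1 + ρ / (1 + p)) - ρ = 1 + p := by field_simp; ring
      rw [this]; exact hp
  · have h3 : max 1 (ρ / (1 + p)) < ρ / p := by
      rw [max_lt_iff]
      constructor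
      · rw [lt_div_iff₀ h]; linarith
      · exact div_lt_div_of_pos_left hρ h (by linarith)
    obtain ⟨T, hT1, hT2⟩ := exists_between h3
    rw [max_lt_iff] at hT1
    refine ⟨T, hT1.1, ?_, ?_⟩
    · rw [lt_div_iff₀ h] at hT2; linarith
    · have := hT1.2
      rw [div_lt_iff₀ hp] at this
      linarith

/-- The basic family of moves. -/
lemma step_of {u : Fin 3 → ℂ} (hu : 0 < area u) (k : Fin 3) {ρ p : ℝ} (hρ : 0 < ρ)
    (h1 : -1 < p) (h2 : p < ρ) (hρ1 : ρ ≠ 1) (hp0 : p ≠ 0) (hpρ : p ≠ ρ - 1)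
    {v : Fin 3 → ℂ} (hfix : ∀ j, j ≠ k → v j = u j)
    (hv : v k = u (k + 2) + ρ • edge u (k + 1) + p • edge u k) : Step k u v := by
  have hA : dt (edge u k) (edge u (k + 1)) = area u := edge_dt_edge u k
  have hA' : dt (edge u (k + 1)) (edge u k) = - area u := by rw [dt_swap, hA]
  have v1 := hfix _ (Tunnel.ne1 k)
  have v2 := hfix _ (Tunnel.ne2 k)
  have hW : v k - u k = (ρ - 1) • edge u (k + 1) + p • edge u k := by
    rw [hv, edge1]; module
  have e2 : edge u (k + 2) = - edge u k - edge u (k + 1) := by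
    rw [edge2, edge1, edge]; ring
  have g0 : edge v k = edge u k := by rw [edge, edge, v1, v2]
  have g1 : edge v (k + 1) = ρ • edge u (k + 1) + p • edge u k := by
    rw [edge1 v, v2, hv]; ring
  have g2 : edge v (k + 2) = - (1 + p) • edge u k - ρ • edge u (k + 1) := by
    have e0' : u (k + 1) = u (k + 2) - edge u k := by
      show u (k + 1) = u (k + 2) - (u (k + 2) - u (k + 1)); ring
    rw [edge2 v, v1, hv, e0']; module
  have hav : area v = ρ * area u := by
    rw [← edge_dt_edge v k, g0, g1, dt_add_right, dt_smul_right, dt_smul_right, hA, dt_self]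
    ring
  refine ⟨hfix, hu, by rw [hav]; positivity, ?_, ?_⟩
  · intro j
    rw [hW]
    rcases Tunnel.cases3 k j with e | e | e
    · subst e
      rw [dt_add_right, dt_smul_right, dt_smul_right, hA, dt_self, mul_zero, add_zero]
      exact mul_ne_zero (sub_ne_zero.2 hρ1) hu.ne'
    · subst e
      rw [dt_add_right, dt_smul_right, dt_smul_right, dt_self, hA', mul_zero, zero_add]
      exact mul_ne_zero hp0 (neg_ne_zero.2 hu.ne')
    · subst e
      rw [e2]
      simp only [dt_add_right, dt_smul_right, dt_sub_left, dt_neg_left, dt_self, hA, hA']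
      have : (ρ - 1) * (-area u - 0) + p * (-0 - -area u) = (p - (ρ - 1)) * area u := by ring
      rw [this]
      exact mul_ne_zero (sub_ne_zero.2 hpρ) hu.ne'
  · obtain ⟨T, hT1, hT2, hT3⟩ := exists_T hρ h1 h2
    refine ⟨- edge u k - T • edge u (k + 1), ?_⟩
    intro j hj
    rcases Tunnel.cases3 k j with e | e | e
    · exact absurd e hj
    · subst e
      rw [g1]
      simp only [dt_sub_right, dt_neg_right, dt_smul_right, dt_add_left, dt_smul_left, dt_self,
        hA, hA']
      constructor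
      · linarith
      · have : -(ρ * -area u + p * 0) - T * (ρ * 0 + p * area u) = (ρ - p * T) * area u := by
          ring
        rw [this]; positivity
    · subst e
      rw [g2, e2]
      simp only [dt_sub_right, dt_neg_right, dt_smul_right, dt_sub_left, dt_neg_left,
        dt_smul_left, dt_self, hA, hA']
      constructor
      · have : -(-0 - -area u) - T * (-area u - 0) = (T - 1) * area u := by ring
        rw [this]
        exact mul_pos (by linarith) hu
      · have : -(-(1 + p) * 0 - ρ * -area u) - T * (-(1 + p) * area u - ρ * 0)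
            = ((1 + p) * T - ρ) * area u := by ring
        rw [this]; positivity

lemma avoid {R a b : ℝ} (hR : 0 < R) (h : a ≠ 0 ∨ b ≠ 0) :
    ∃ K1 : ℝ, ∀ K, K1 < K → 0 < K → (R / K - 1) * a - 1 / 2 * b ≠ 0 := by
  refine ⟨R * a / (a + b / 2), fun K hK hK0 hc => ?_⟩
  have e : R * a = K * (a + b / 2) := by
    field_simp at hc
    linarith
  by_cases h0 : a + b / 2 = 0
  · rw [h0, mul_zero] at e
    have ha : a = 0 := by
      rcases mul_eq_zero.1 e with h | h
      · exact absurd h hR.ne'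
      · exact h
    rcases h with h | h
    · exact h ha
    · apply h; rw [ha] at h0; linarith
  · rw [e, mul_div_assoc, div_self h0, mul_one] at hK
    exact lt_irrefl _ hK

/-- Two moves of the same vertex reach every position on the right side, and the first of them
can avoid two given directions. -/
def Dbl (k : Fin 3) (u v : Fin 3 → ℂ) : Prop :=
  ∀ z1 z2 : ℂ, z1 ≠ 0 → z2 ≠ 0 → ∃ u' : Fin 3 → ℂ, Step k u u' ∧ Step k u' v ∧
    dt (u' k - u k) z1 ≠ 0 ∧ dt (u' k - u k) z2 ≠ 0

lemma dbl {u : Fin 3 → ℂ} (hu : 0 < area u) (k : Fin 3) {c : ℂ} (hc : 0 < dt (edge u k) c)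
    {v : Fin 3 → ℂ} (hfix : ∀ j, j ≠ k → v j = u j) (hv : v k = u (k + 2) + c) :
    Dbl k u v := by
  intro z1 z2 hz1 hz2
  have hA : dt (edge u k) (edge u (k + 1)) = area u := edge_dt_edge u k
  set R := dt (edge u k) c / area u with hR
  set P := dt c (edge u (k + 1)) / area u with hP
  have hR0 : 0 < R := div_pos hc hu
  have hcRP : c = R • edge u (k + 1) + P • edge u k := by
    have h0 : dt (edge u k) (edge u (k + 1)) ≠ 0 := by rw [hA]; exact hu.ne'
    have : c - (R • edge u (k + 1) + P • edge u k) = 0 := by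
      apply dt_ext h0
      · rw [dt_sub_right, dt_add_right, dt_smul_right, dt_smul_right, hA, dt_self, hR]
        field_simp
        ring
      · rw [dt_sub_right, dt_add_right, dt_smul_right, dt_smul_right, dt_self,
          dt_swap (edge u k) (edge u (k + 1)), hA, hP, dt_swap c (edge u (k + 1))]
        field_simp
        ring
    exact sub_eq_zero.1 this
  have hind : ∀ z : ℂ, z ≠ 0 → dt (edge u (k + 1)) z ≠ 0 ∨ dt (edge u k) z ≠ 0 := by
    intro z hz
    by_contra hcon
    push Not at hcon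
    exact hz (dt_ext (by rw [hA]; exact hu.ne') hcon.2 hcon.1)
  obtain ⟨K1, hK1⟩ := avoid hR0 (hind z1 hz1)
  obtain ⟨K2, hK2⟩ := avoid hR0 (hind z2 hz2)
  obtain ⟨K, hK⟩ : ∃ K, max (max K1 K2) (2 * |P| + 2 * R + 4) < K := exists_gt _
  simp only [max_lt_iff] at hK
  obtain ⟨⟨a1, a2⟩, a3⟩ := hK
  have hP1 := neg_abs_le P
  have hP2 := le_abs_self P
  have hP3 := abs_nonneg P
  have hK0 : 0 < K := by linarith
  have hRK : R / K < 1 / 2 := by
    rw [div_lt_iff₀ hK0]; linarith
  set u' : Fin 3 → ℂ := Function.update u k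
    (u (k + 2) + (R / K) • edge u (k + 1) + (-1 / 2 : ℝ) • edge u k) with hu'
  have uk : u' k = u (k + 2) + (R / K) • edge u (k + 1) + (-1 / 2 : ℝ) • edge u k := by
    rw [hu']; simp
  have ufix : ∀ j, j ≠ k → u' j = u j := by
    intro j hj
    rw [hu']; simp [Function.update, hj]
  have s1 : Step k u u' := step_of hu k (by positivity) (by norm_num) (by
      have : 0 < R / K := by positivity
      linarith) (by linarith) (by norm_num) (by linarith) ufix uk
  have g0 : edge u' k = edge u k := by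
    rw [edge, edge, ufix _ (Tunnel.ne1 k), ufix _ (Tunnel.ne2 k)]
  have g1 : edge u' (k + 1) = (R / K) • edge u (k + 1) + (-1 / 2 : ℝ) • edge u k := by
    rw [edge1 u', ufix _ (Tunnel.ne2 k), uk]; ring
  have s2 : Step k u' v := by
    refine step_of s1.pv k (ρ := K) (p := P + K / 2) hK0 (by linarith) (by linarith)
      (by linarith) (by linarith) ?_ ?_ ?_
    · intro hc'; linarith
    · intro j hj
      rw [hfix j hj, ufix j hj]
    · rw [hv, g0, g1, ufix _ (Tunnel.ne2 k), hcRP, smul_add, smul_smul, smul_smul,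
        mul_div_cancel₀ _ hK0.ne']
      module
  have hW : u' k - u k = (R / K - 1) • edge u (k + 1) - (1 / 2 : ℝ) • edge u k := by
    rw [uk, edge1]; module
  refine ⟨u', s1, s2, ?_, ?_⟩
  · rw [hW, dt_sub_left, dt_smul_left, dt_smul_left]
    exact hK1 K a1 hK0
  · rw [hW, dt_sub_left, dt_smul_left, dt_smul_left]
    exact hK2 K a2 hK0

lemma three {a b c : ℂ} (hab : dt a b ≠ 0) (hac : dt a c ≠ 0) (hbc : dt b c ≠ 0) (z : ℂ) :
    ∃ x y t : ℝ, x ≠ 0 ∧ y ≠ 0 ∧ t ≠ 0 ∧ x • a + y • b + t • c = z := by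
  set q1 := dt z b / dt c b with hq1
  set q2 := dt a z / dt a c with hq2
  set t := 1 + |q1| + |q2| with ht
  have hcb : dt c b ≠ 0 := by rw [dt_swap]; exact neg_ne_zero.2 hbc
  have a1 := abs_nonneg q1
  have a2 := abs_nonneg q2
  have a3 := le_abs_self q1
  have a4 := le_abs_self q2
  refine ⟨dt (z - t • c) b / dt a b, dt a (z - t • c) / dt a b, t, ?_, ?_, ?_, ?_⟩
  · apply div_ne_zero _ hab
    rw [dt_sub_left, dt_smul_left]
    intro h
    have : q1 = t := by
      rw [hq1, div_eq_iff hcb]; linarith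
    linarith
  · apply div_ne_zero _ hab
    rw [dt_sub_right, dt_smul_right]
    intro h
    have : q2 = t := by
      rw [hq2, div_eq_iff hac]; linarith
    linarith
  · linarith
  · rw [← sub_eq_zero]
    apply dt_ext hab
    · simp only [dt_sub_right, dt_add_right, dt_smul_right, dt_self]
      field_simp
      ring
    · have hba : dt b a = - dt a b := dt_swap a b
      simp only [dt_sub_right, dt_add_right, dt_smul_right, dt_self, dt_sub_left, dt_smul_left,
        hba]
      rw [dt_swap c b, dt_swap z b]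
      field_simp
      ring

end Pool.Agent.Helper183.Collar
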