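import Pool.Agent.Helper183_Collar.Proj
import Pool.Agent.Helper183_Collar.Bar

set_option autoImplicit false
set_option linter.unusedSectionVars false

namespace Pool.Agent.Helper183.Collar

open Set Filter Topology Module

/-- Triple product. -/
def vol3 (a b c : ℂ × ℝ) : ℝ := dt a.1 b.1 * c.2 + dt b.1 c.1 * a.2 + dt c.1 a.1 * b.2

/-- Oriented volume of a tetrahedron (times six). -/
def vol (p q r s : ℂ × ℝ) : ℝ := vol3 (q - p) (r - p) (s - p)

lemma vol3_linear (f : (ℂ × ℝ) →ₗ[ℝ] (ℂ × ℝ)) (a b c : ℂ × ℝ) : vol3 (f a) (f b) (f c)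
    = vol3 (f (1, 0)) (f (Complex.I, 0)) (f (0, 1)) * vol3 a b c := by
  have h : ∀ a : ℂ × ℝ, f a = a.1.re • f (1, 0) + a.1.im • f (Complex.I, 0) + a.2 • f (0, 1) := by
    intro a
    have h : a = a.1.re • ((1, 0) : ℂ × ℝ) + a.1.im • ((Complex.I, 0) : ℂ × ℝ)
        + a.2 • ((0, 1) : ℂ × ℝ) := by
      refine Prod.ext ?_ ?_
      · apply Complex.ext <;> simp
      · simp
    conv_lhs => rw [h]
    rw [map_add, map_add, map_smul, map_smul, map_smul]
  rw [h a, h b, h c]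
  generalize f (1, 0) = x
  generalize f (Complex.I, 0) = y
  generalize f (0, 1) = z
  simp only [vol3, dt, Prod.fst_add, Prod.snd_add, Prod.smul_fst, Prod.smul_snd, Complex.add_re,
    Complex.add_im, Complex.smul_re, Complex.smul_im, smul_eq_mul]
  ring

lemma vol_equiv (e : (ℂ × ℝ) ≃ᵃ[ℝ] (ℂ × ℝ)) : ∃ c : ℝ, c ≠ 0 ∧ ∀ p q r s,
    vol (e p) (e q) (e r) (e s) = c * vol p q r s := by
  refine ⟨vol3 (e.linear (1, 0)) (e.linear (Complex.I, 0)) (e.linear (0, 1)), ?_, ?_⟩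
  · intro h0
    have h1 := vol3_linear (e.linear.symm : (ℂ × ℝ) →ₗ[ℝ] (ℂ × ℝ)) (e.linear (1, 0))
      (e.linear (Complex.I, 0)) (e.linear (0, 1))
    rw [h0, mul_zero] at h1
    simp only [LinearEquiv.coe_coe, LinearEquiv.symm_apply_apply] at h1
    simp [vol3, dt] at h1
  · intro p q r s
    have h : ∀ x y : ℂ × ℝ, e x - e y = e.linear (x - y) := by
      intro x y
      exact (e.linear_toAffineMap ▸ (e : (ℂ × ℝ) →ᵃ[ℝ] (ℂ × ℝ)).linearMap_vsub x y).symm
    unfold vol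
    rw [h, h, h]
    exact vol3_linear (e.linear : (ℂ × ℝ) →ₗ[ℝ] (ℂ × ℝ)) _ _ _

lemma vol_proj {p q r s : ℂ × ℝ} (hp : p ∈ pos) (hq : q ∈ pos) (hr : r ∈ pos) (hs : s ∈ pos) :
    vol (proj p) (proj q) (proj r) (proj s)
      = - vol p q r s / (p.1.re * q.1.re * r.1.re * s.1.re) := by
  have h1 : p.1.re ≠ 0 := ne_of_gt hp
  have h2 : q.1.re ≠ 0 := ne_of_gt hq
  have h3 : r.1.re ≠ 0 := ne_of_gt hr
  have h4 : s.1.re ≠ 0 := ne_of_gt hs
  simp only [vol, vol3, dt, proj, Prod.fst_sub, Prod.snd_sub, Complex.sub_re, Complex.sub_im]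
  field_simp
  ring

/-- cross product of the linear parts -/
noncomputable def crs (δ β : ℂ × ℝ →ᵃ[ℝ] ℝ) : ℝ × ℝ × ℝ :=
  (δ.linear (Complex.I, 0) * β.linear (0, 1) - δ.linear (0, 1) * β.linear (Complex.I, 0),
   δ.linear (0, 1) * β.linear (1, 0) - δ.linear (1, 0) * β.linear (0, 1),
   δ.linear (1, 0) * β.linear (Complex.I, 0) - δ.linear (Complex.I, 0) * β.linear (1, 0))

lemma lin_coeff (l : (ℂ × ℝ) →ₗ[ℝ] ℝ) (p : ℂ × ℝ) : l p = l (1, 0) * p.1.re +
    l (Complex.I, 0) * p.1.im + l (0, 1) * p.2 := by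
  have h : p = p.1.re • ((1, 0) : ℂ × ℝ) + p.1.im • ((Complex.I, 0) : ℂ × ℝ)
      + p.2 • ((0, 1) : ℂ × ℝ) := by
    refine Prod.ext ?_ ?_
    · apply Complex.ext <;> simp
    · simp
  conv_lhs => rw [h]
  rw [map_add, map_add, map_smul, map_smul, map_smul]
  simp only [smul_eq_mul]; ring

lemma exists_frame (δ β : ℂ × ℝ →ᵃ[ℝ] ℝ) (h : crs δ β ≠ 0) :
    ∃ e : (ℂ × ℝ) ≃ᵃ[ℝ] (ℂ × ℝ), ∀ p, (e p).1.re = δ p ∧ (e p).2 = β p := by
  set n := crs δ β with hn
  let L : (ℂ × ℝ) →ₗ[ℝ] (ℂ × ℝ) :=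
    { toFun := fun p => (⟨δ.linear p, n.1 * p.1.re + n.2.1 * p.1.im + n.2.2 * p.2⟩, β.linear p)
      map_add' := fun p q => by
        refine Prod.ext ?_ (map_add _ _ _)
        apply Complex.ext
        · show δ.linear (p + q) = δ.linear p + δ.linear q
          exact map_add _ _ _
        · show n.1 * (p + q).1.re + n.2.1 * (p + q).1.im + n.2.2 * (p + q).2
            = (n.1 * p.1.re + n.2.1 * p.1.im + n.2.2 * p.2) +
              (n.1 * q.1.re + n.2.1 * q.1.im + n.2.2 * q.2)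
          simp only [Prod.fst_add, Prod.snd_add, Complex.add_re, Complex.add_im]; ring
      map_smul' := fun t p => by
        refine Prod.ext ?_ (map_smul _ _ _)
        show (⟨δ.linear (t • p), n.1 * (t • p).1.re + n.2.1 * (t • p).1.im
            + n.2.2 * (t • p).2⟩ : ℂ)
          = t • (⟨δ.linear p, n.1 * p.1.re + n.2.1 * p.1.im + n.2.2 * p.2⟩ : ℂ)
        apply Complex.ext
        · simp only [map_smul, Complex.smul_re]
        · simp only [Prod.smul_fst, Prod.smul_snd, Complex.smul_re, Complex.smul_im, smul_eq_mul]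
          ring }
  have hN : n.1 * n.1 + n.2.1 * n.2.1 + n.2.2 * n.2.2 ≠ 0 := by
    intro h0
    apply h
    have a1 := mul_self_nonneg n.1
    have a2 := mul_self_nonneg n.2.1
    have a3 := mul_self_nonneg n.2.2
    have b1 : n.1 = 0 := mul_self_eq_zero.1 (by linarith)
    have b2 : n.2.1 = 0 := mul_self_eq_zero.1 (by linarith)
    have b3 : n.2.2 = 0 := mul_self_eq_zero.1 (by linarith)
    exact Prod.ext b1 (Prod.ext b2 b3)
  have hinj : Function.Injective L := by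
    rw [← LinearMap.ker_eq_bot, LinearMap.ker_eq_bot']
    intro p hp
    have h1 : δ.linear p = 0 := congrArg (fun q : ℂ × ℝ => q.1.re) hp
    have h2 : n.1 * p.1.re + n.2.1 * p.1.im + n.2.2 * p.2 = 0 :=
      congrArg (fun q : ℂ × ℝ => q.1.im) hp
    have h3 : β.linear p = 0 := congrArg (fun q : ℂ × ℝ => q.2) hp
    rw [lin_coeff] at h1 h3
    have hn1 : n.1 = δ.linear (Complex.I, 0) * β.linear (0, 1)
      - δ.linear (0, 1) * β.linear (Complex.I, 0) := rfl
    have hn2 : n.2.1 = δ.linear (0, 1) * β.linear (1, 0)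
      - δ.linear (1, 0) * β.linear (0, 1) := rfl
    have hn3 : n.2.2 = δ.linear (1, 0) * β.linear (Complex.I, 0)
      - δ.linear (Complex.I, 0) * β.linear (1, 0) := rfl
    generalize n.1 = n1 at *
    generalize n.2.1 = n2 at *
    generalize n.2.2 = n3 at *
    generalize δ.linear (1, 0) = d1 at *
    generalize δ.linear (Complex.I, 0) = d2 at *
    generalize δ.linear (0, 1) = d3 at *
    generalize β.linear (1, 0) = b1 at *
    generalize β.linear (Complex.I, 0) = b2 at *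
    generalize β.linear (0, 1) = b3 at *
    have e1 : (n1 * n1 + n2 * n2 + n3 * n3) * p.1.re = 0 := by
      subst hn1 hn2 hn3
      linear_combination (d2 * b3 - d3 * b2) * h2
        + (b2 * (d1 * b2 - d2 * b1) - b3 * (d3 * b1 - d1 * b3)) * h1
        + ((d3 * b1 - d1 * b3) * d3 - (d1 * b2 - d2 * b1) * d2) * h3
    have e2 : (n1 * n1 + n2 * n2 + n3 * n3) * p.1.im = 0 := by
      subst hn1 hn2 hn3
      linear_combination (d3 * b1 - d1 * b3) * h2
        + (b3 * (d2 * b3 - d3 * b2) - b1 * (d1 * b2 - d2 * b1)) * h1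
        + ((d1 * b2 - d2 * b1) * d1 - (d2 * b3 - d3 * b2) * d3) * h3
    have e3 : (n1 * n1 + n2 * n2 + n3 * n3) * p.2 = 0 := by
      subst hn1 hn2 hn3
      linear_combination (d1 * b2 - d2 * b1) * h2
        + (b1 * (d3 * b1 - d1 * b3) - b2 * (d2 * b3 - d3 * b2)) * h1
        + ((d2 * b3 - d3 * b2) * d2 - (d3 * b1 - d1 * b3) * d1) * h3
    refine Prod.ext (Complex.ext ?_ ?_) ?_
    · exact (mul_eq_zero.1 e1).resolve_left hN
    · exact (mul_eq_zero.1 e2).resolve_left hN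
    · exact (mul_eq_zero.1 e3).resolve_left hN
  let L' : (ℂ × ℝ) ≃ₗ[ℝ] (ℂ × ℝ) := LinearEquiv.ofInjectiveEndo L hinj
  have hL' : ∀ p, L' p = L p := fun p => rfl
  let e : (ℂ × ℝ) ≃ᵃ[ℝ] (ℂ × ℝ) := AffineEquiv.mk' (fun p => L' p + (⟨δ 0, 0⟩, β 0)) L' 0 (by
    intro p
    simp)
  refine ⟨e, fun p => ⟨?_, ?_⟩⟩
  · show (L' p + ((⟨δ 0, 0⟩, β 0) : ℂ × ℝ)).1.re = δ p
    rw [hL', aff_decomp δ p]
    rfl
  · show (L' p + ((⟨δ 0, 0⟩, β 0) : ℂ × ℝ)).2 = β p
    rw [hL', aff_decomp β p]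
    rfl

/-- Reflection. -/
noncomputable def conjE : (ℂ × ℝ) ≃ᵃ[ℝ] (ℂ × ℝ) :=
  LinearEquiv.toAffineEquiv
    { toFun := fun p => (⟨p.1.re, -p.1.im⟩, p.2)
      invFun := fun p => (⟨p.1.re, -p.1.im⟩, p.2)
      left_inv := fun p => by simp
      right_inv := fun p => by simp
      map_add' := fun p q => by
        refine Prod.ext (Complex.ext ?_ ?_) ?_ <;> simp
        ring
      map_smul' := fun t p => by
        refine Prod.ext (Complex.ext ?_ ?_) ?_ <;> simp }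

lemma conjE_apply (p : ℂ × ℝ) : conjE p = (⟨p.1.re, -p.1.im⟩, p.2) := rfl

end Pool.Agent.Helper183.Collar
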