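import Mathlib

set_option autoImplicit false

namespace Pool.Agent.Helper183.Collar

lemma exit_time (α β : Fin 3 → ℝ) (hα : ∀ k, 0 < α k) (hβ : ∃ k, β k < 0) :
    ∃ τ : ℝ, 0 < τ ∧ (∀ j t, 0 ≤ t → t ≤ τ → 0 ≤ α j + β j * t) ∧
      (∃ k, α k + β k * τ = 0) ∧ (∀ t, τ < t → ∃ k, α k + β k * t < 0) := by
  classical
  obtain ⟨k0, hk0⟩ := hβ
  have hne : (Finset.univ.filter (fun k => β k < 0)).Nonempty := ⟨k0, by simp [hk0]⟩
  obtain ⟨k, hk, hmin⟩ := Finset.exists_min_image _ (fun k => α k / (-β k)) hne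
  simp only [Finset.mem_filter, Finset.mem_univ, true_and] at hk hmin
  have hbk : 0 < -β k := by linarith
  refine ⟨α k / (-β k), div_pos (hα k) hbk, ?_, ⟨k, ?_⟩, ?_⟩
  · intro j t ht0 ht
    by_cases hj : β j < 0
    · have h1 := hmin j hj
      have hbj : 0 < -β j := by linarith
      have h2 : t ≤ α j / (-β j) := le_trans ht h1
      rw [le_div_iff₀ hbj] at h2
      linarith
    · push Not at hj
      have := mul_nonneg hj ht0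
      have := hα j
      linarith
  · have hb0 : β k ≠ 0 := hk.ne
    field_simp
    ring
  · intro t ht
    refine ⟨k, ?_⟩
    rw [div_lt_iff₀ hbk] at ht
    linarith

/-- At most one hitting time. -/
lemma ray_unique_aux (α β γ δ : Fin 3 → ℝ) (ξ ζ : ℝ)
    (hα : ∀ k, 0 < α k) (hγ : ∀ k, 0 < γ k)
    (hs : ∀ k t, 0 < t → ξ + ζ * t = 0 → ∃ ρ : ℝ, 0 < ρ ∧ γ k + δ k * t = ρ * (α k + β k * t))
    (t1 t2 : ℝ) (h1 : 0 < t1) (h12 : t1 < t2)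
    (hw1 : ξ + ζ * t1 ≤ 0) (k : Fin 3) (hk : α k + β k * t1 = 0) :
    ¬ ((ξ + ζ * t2 ≤ 0 ∧ (∀ j, 0 ≤ α j + β j * t2)) ∨
       (0 ≤ ξ + ζ * t2 ∧ (∀ j, 0 ≤ γ j + δ j * t2))) := by
  have hβ : β k < 0 := by
    by_contra h
    push Not at h
    have := mul_nonneg h h1.le
    have := hα k
    linarith
  have hk2 : α k + β k * t2 < 0 := by nlinarith
  rintro (⟨_, h⟩ | ⟨hw2, h⟩)
  · exact absurd (h k) (not_le.2 hk2)
  · -- a zero of the window function between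
    obtain ⟨s, hs1, hs2, hs0⟩ : ∃ s, t1 ≤ s ∧ s ≤ t2 ∧ ξ + ζ * s = 0 := by
      have hcont : ContinuousOn (fun t => ξ + ζ * t) (Set.Icc t1 t2) := by fun_prop
      have := intermediate_value_Icc h12.le hcont
      obtain ⟨s, hs, hs0⟩ := this ⟨hw1, hw2⟩
      exact ⟨s, hs.1, hs.2, hs0⟩
    obtain ⟨ρ, hρ, hr⟩ := hs k s (by linarith) hs0
    have hr2 := h k
    have hγk := hγ k
    rcases hs1.eq_or_lt with he | hlt
    · subst he
      rw [hk, mul_zero] at hr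
      have : δ k < 0 := by
        by_contra h'
        push Not at h'
        have := mul_nonneg h' h1.le
        linarith
      nlinarith
    · have hneg : α k + β k * s < 0 := by nlinarith
      have hneg2 : γ k + δ k * s < 0 := by
        rw [hr]; exact mul_neg_of_pos_of_neg hρ hneg
      have hs0' : 0 < s := by linarith
      have : δ k < 0 := by
        by_contra h'
        push Not at h'
        have := mul_nonneg h' hs0'.le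
        linarith
      nlinarith

/-- The hitting set on a ray. -/
def Hit (α β γ δ : Fin 3 → ℝ) (ξ ζ t : ℝ) : Prop :=
  (ξ + ζ * t ≤ 0 ∧ (∀ j, 0 ≤ α j + β j * t) ∧ ∃ k, α k + β k * t = 0) ∨
  (0 ≤ ξ + ζ * t ∧ (∀ j, 0 ≤ γ j + δ j * t) ∧ ∃ k, γ k + δ k * t = 0)

lemma Hit.symm {α β γ δ : Fin 3 → ℝ} {ξ ζ t : ℝ} (h : Hit α β γ δ ξ ζ t) :
    Hit γ δ α β (-ξ) (-ζ) t := by
  rcases h with ⟨a, b⟩ | ⟨a, b⟩
  · right; exact ⟨by linarith, b⟩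
  · left; exact ⟨by linarith, b⟩

lemma ray_unique (α β γ δ : Fin 3 → ℝ) (ξ ζ : ℝ)
    (hα : ∀ k, 0 < α k) (hγ : ∀ k, 0 < γ k)
    (hs : ∀ k t, 0 < t → ξ + ζ * t = 0 → ∃ ρ : ℝ, 0 < ρ ∧ γ k + δ k * t = ρ * (α k + β k * t))
    (t1 t2 : ℝ) (h1 : 0 < t1) (h12 : t1 < t2)
    (H1 : Hit α β γ δ ξ ζ t1) (H2 : Hit α β γ δ ξ ζ t2) : False := by
  have H2' : (ξ + ζ * t2 ≤ 0 ∧ (∀ j, 0 ≤ α j + β j * t2)) ∨
       (0 ≤ ξ + ζ * t2 ∧ (∀ j, 0 ≤ γ j + δ j * t2)) := by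
    rcases H2 with ⟨a, b, _⟩ | ⟨a, b, _⟩
    · exact Or.inl ⟨a, b⟩
    · exact Or.inr ⟨a, b⟩
  rcases H1 with ⟨hw, _, k, hk⟩ | ⟨hw, _, k, hk⟩
  · exact ray_unique_aux α β γ δ ξ ζ hα hγ hs t1 t2 h1 h12 hw k hk H2'
  · refine ray_unique_aux γ δ α β (-ξ) (-ζ) hγ hα ?_ t1 t2 h1 h12 (by linarith) k hk ?_
    · intro k t ht h0
      obtain ⟨ρ, hρ, h⟩ := hs k t ht (by linarith)
      refine ⟨ρ⁻¹, inv_pos.2 hρ, ?_⟩
      rw [h]; field_simp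
    · rcases H2' with ⟨a, b⟩ | ⟨a, b⟩
      · right; exact ⟨by linarith, b⟩
      · left; exact ⟨by linarith, b⟩

lemma ray_exists (α β γ δ : Fin 3 → ℝ) (ξ ζ : ℝ)
    (hα : ∀ k, 0 < α k) (hγ : ∀ k, 0 < γ k) (hβ : ∃ k, β k < 0) (hδ : ∃ k, δ k < 0)
    (hs : ∀ k t, 0 < t → ξ + ζ * t = 0 → ∃ ρ : ℝ, 0 < ρ ∧ γ k + δ k * t = ρ * (α k + β k * t)) :
    ∃ t, 0 < t ∧ Hit α β γ δ ξ ζ t := by
  obtain ⟨τ, hτ, hin, ⟨k, hk⟩, hout⟩ := exit_time α β hα hβ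
  obtain ⟨σ, hσ, hin', ⟨k', hk'⟩, hout'⟩ := exit_time γ δ hγ hδ
  by_cases hw : ξ + ζ * τ ≤ 0
  · exact ⟨τ, hτ, Or.inl ⟨hw, fun j => hin j τ hτ.le le_rfl, k, hk⟩⟩
  by_cases hw' : 0 ≤ ξ + ζ * σ
  · exact ⟨σ, hσ, Or.inr ⟨hw', fun j => hin' j σ hσ.le le_rfl, k', hk'⟩⟩
  push Not at hw hw'
  exfalso
  rcases lt_trichotomy τ σ with h | h | h
  · -- zero between
    have hcont : ContinuousOn (fun t => ξ + ζ * t) (Set.Icc τ σ) := by fun_prop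
    obtain ⟨s, hs', hs0⟩ := intermediate_value_Icc' h.le hcont ⟨hw'.le, hw.le⟩
    have hs0 : ξ + ζ * s = 0 := hs0
    have hsτ : τ < s := by
      rcases hs'.1.eq_or_lt with h' | h'
      · subst h'; linarith
      · exact h'
    obtain ⟨j, hj⟩ := hout s hsτ
    obtain ⟨ρ, hρ, hr⟩ := hs j s (by linarith) hs0
    have := hin' j s (by linarith) hs'.2
    rw [hr] at this
    have := mul_neg_of_pos_of_neg hρ hj
    linarith
  · subst h; linarith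
  · have hcont : ContinuousOn (fun t => ξ + ζ * t) (Set.Icc σ τ) := by fun_prop
    obtain ⟨s, hs', hs0⟩ := intermediate_value_Icc h.le hcont ⟨hw'.le, hw.le⟩
    have hs0 : ξ + ζ * s = 0 := hs0
    have hsσ : σ < s := by
      rcases hs'.1.eq_or_lt with h' | h'
      · subst h'; linarith
      · exact h'
    obtain ⟨j, hj⟩ := hout' s hsσ
    obtain ⟨ρ, hρ, hr⟩ := hs j s (by linarith) hs0
    have h1 := hin j s (by linarith) hs'.2
    rw [hr] at hj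
    have := mul_nonneg hρ.le h1
    linarith

lemma ray_existsUnique (α β γ δ : Fin 3 → ℝ) (ξ ζ : ℝ)
    (hα : ∀ k, 0 < α k) (hγ : ∀ k, 0 < γ k) (hβ : ∃ k, β k < 0) (hδ : ∃ k, δ k < 0)
    (hs : ∀ k t, 0 < t → ξ + ζ * t = 0 → ∃ ρ : ℝ, 0 < ρ ∧ γ k + δ k * t = ρ * (α k + β k * t)) :
    ∃! t, 0 < t ∧ Hit α β γ δ ξ ζ t := by
  obtain ⟨t, ht, H⟩ := ray_exists α β γ δ ξ ζ hα hγ hβ hδ hs
  refine ⟨t, ⟨ht, H⟩, ?_⟩
  rintro t' ⟨ht', H'⟩
  rcases lt_trichotomy t' t with h | h | h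
  · exact (ray_unique α β γ δ ξ ζ hα hγ hs t' t ht' h H' H).elim
  · exact h
  · exact (ray_unique α β γ δ ξ ζ hα hγ hs t t' ht h H H').elim

end Pool.Agent.Helper183.Collar
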