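import Pool.Agent.Helper183_Collar.Quad
import Pool.Agent.Helper183_Collar.Ray

set_option autoImplicit false

namespace Pool.Agent.Helper183.Collar

open Set Module

/-- A tunnel: `n + 1` bars with triangular cross section between `n + 2` triangular windows. -/
structure Tunnel (n : ℕ) where
  w : ℕ → Fin 3 → ℂ × ℝ
  L : ℕ → Fin 3 → (ℂ × ℝ →ᵃ[ℝ] ℝ)
  ω : ℕ → (ℂ × ℝ →ᵃ[ℝ] ℝ)
  m : ℕ → ℝ
  M : ℕ → ℝ
  c : ℝ → ℂ
  L0 : ∀ i ≤ n, ∀ k j, j ≠ k → L i k (w i j) = 0 ∧ L i k (w (i + 1) j) = 0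
  Lpos : ∀ i ≤ n, ∀ k, 0 < L i k (w i k) ∧ 0 < L i k (w (i + 1) k)
  ω0 : ∀ i ≤ n + 1, ∀ k, ω i (w i k) = 0
  ωpos : ∀ i ≤ n, ∀ k, 0 < ω i (w (i + 1) k)
  ωneg : ∀ i ≤ n, ∀ k, ω (i + 1) (w i k) < 0
  lev : ∀ i ≤ n + 1, ∀ k, m i ≤ (w i k).2 ∧ (w i k).2 ≤ M i
  mM : ∀ i ≤ n, M i < m (i + 1)
  m0 : m 0 = M 0
  mn : m (n + 1) = M (n + 1)
  injlo : ∀ i ≤ n, ∀ j k, j ≠ k → ∀ p q, L i j p = L i j q → L i k p = L i k q →
    ω i p = ω i q → p = q
  injhi : ∀ i ≤ n, ∀ j k, j ≠ k → ∀ p q, L i j p = L i j q → L i k p = L i k q →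
    ω (i + 1) p = ω (i + 1) q → p = q
  dirs : ∀ i ≤ n, ∀ u : ℂ, u ≠ 0 → ∃ k, (L i k).linear (u, 0) < 0
  lo : ∀ i ≤ n, ∀ p : ℂ × ℝ, M i ≤ p.2 → p.2 ≤ M (i + 1) → (∀ j, 0 ≤ L i j p) → 0 ≤ ω i p
  hi : ∀ i ≤ n, ∀ p : ℂ × ℝ, m i ≤ p.2 → p.2 ≤ m (i + 1) → (∀ j, 0 ≤ L i j p) → ω (i + 1) p ≤ 0
  cc : Continuous c
  cpos : ∀ i ≤ n, ∀ s, m i ≤ s → s ≤ M (i + 1) → ∀ k, 0 < L i k (c s, s)
  ncop : ∀ i < n, ∀ k, L i k (w (i + 2) (k + 1)) ≠ 0

namespace Tunnel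

variable {n : ℕ} (T : Tunnel n)

/-- A side face of a bar. -/
def face (i : ℕ) (k : Fin 3) : Set (ℂ × ℝ) :=
  convexHull ℝ {T.w i (k + 1), T.w i (k + 2), T.w (i + 1) (k + 2), T.w (i + 1) (k + 1)}

/-- The whole tunnel surface. -/
def inner : Set (ℂ × ℝ) := ⋃ i ∈ Finset.range (n + 1), ⋃ k : Fin 3, T.face i k

lemma mem_inner {p : ℂ × ℝ} : p ∈ T.inner ↔ ∃ i ≤ n, ∃ k, p ∈ T.face i k := by
  simp only [inner, mem_iUnion, Finset.mem_range, exists_prop]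
  constructor
  · rintro ⟨i, hi, k, h⟩; exact ⟨i, by omega, k, h⟩
  · rintro ⟨i, hi, k, h⟩; exact ⟨i, by omega, k, h⟩

lemma mleM (i : ℕ) (hi : i ≤ n + 1) : T.m i ≤ T.M i :=
  (T.lev i hi 0).1.trans (T.lev i hi 0).2

lemma M_lt_m {i j : ℕ} (hij : i < j) (hj : j ≤ n + 1) : T.M i < T.m j := by
  induction j with
  | zero => omega
  | succ j ih =>
    rcases Nat.lt_succ_iff_lt_or_eq.1 hij with h | h
    · have h1 := ih h (by omega)
      have h2 := T.mleM j (by omega)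
      have h3 := T.mM j (by omega)
      linarith
    · subst h; exact T.mM i (by omega)

lemma M_mono {i j : ℕ} (hij : i ≤ j) (hj : j ≤ n + 1) : T.M i ≤ T.M j := by
  rcases hij.eq_or_lt with h | h
  · rw [h]
  · exact (T.M_lt_m h hj).le.trans (T.mleM j hj)

lemma m_mono {i j : ℕ} (hij : i ≤ j) (hj : j ≤ n + 1) : T.m i ≤ T.m j := by
  rcases hij.eq_or_lt with h | h
  · rw [h]
  · exact (T.mleM i (by omega)).trans (T.M_lt_m h hj).le

lemma ne1 (k : Fin 3) : k + 1 ≠ k := by fin_cases k <;> decide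
lemma ne2 (k : Fin 3) : k + 2 ≠ k := by fin_cases k <;> decide
lemma ne12 (k : Fin 3) : k + 1 ≠ k + 2 := by fin_cases k <;> decide
lemma ne21 (k : Fin 3) : k + 2 ≠ k + 1 := by fin_cases k <;> decide
lemma cases3 (k j : Fin 3) : j = k ∨ j = k + 1 ∨ j = k + 2 := by
  fin_cases k <;> fin_cases j <;> decide

/-- A convex set containing the four corners contains the face. -/
lemma face_subset {i : ℕ} {k : Fin 3} {C : Set (ℂ × ℝ)} (hC : Convex ℝ C)
    (h1 : ∀ j, j ≠ k → T.w i j ∈ C) (h2 : ∀ j, j ≠ k → T.w (i + 1) j ∈ C) :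
    T.face i k ⊆ C := by
  apply convexHull_min _ hC
  intro p hp
  simp only [mem_insert_iff, mem_singleton_iff] at hp
  rcases hp with h | h | h | h <;> subst h
  · exact h1 _ (ne1 k)
  · exact h1 _ (ne2 k)
  · exact h2 _ (ne2 k)
  · exact h2 _ (ne1 k)

lemma convex_nonneg (l : ℂ × ℝ →ᵃ[ℝ] ℝ) : Convex ℝ {p | 0 ≤ l p} := by
  intro x hx y hy a b ha hb hab
  have hx : 0 ≤ l x := hx
  have hy : 0 ≤ l y := hy
  show 0 ≤ l _
  rw [aff_comb l x y a b hab]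
  positivity

lemma convex_nonpos (l : ℂ × ℝ →ᵃ[ℝ] ℝ) : Convex ℝ {p | l p ≤ 0} := by
  intro x hx y hy a b ha hb hab
  have hx : l x ≤ 0 := hx
  have hy : l y ≤ 0 := hy
  show l _ ≤ 0
  rw [aff_comb l x y a b hab]
  nlinarith [mul_nonneg ha (neg_nonneg.2 hx), mul_nonneg hb (neg_nonneg.2 hy)]

lemma convex_zero (l : ℂ × ℝ →ᵃ[ℝ] ℝ) : Convex ℝ {p | l p = 0} := by
  intro x hx y hy a b ha hb hab
  have hx : l x = 0 := hx
  have hy : l y = 0 := hy
  show l _ = 0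
  rw [aff_comb l x y a b hab, hx, hy]; ring

lemma convex_lev (a b : ℝ) : Convex ℝ {p : ℂ × ℝ | a ≤ p.2 ∧ p.2 ≤ b} := by
  intro x hx y hy u v hu hv huv
  simp only [mem_setOf_eq] at hx hy
  simp only [mem_setOf_eq, Prod.snd_add, Prod.smul_snd, smul_eq_mul]
  have hv' : v = 1 - u := by linarith
  subst hv'
  constructor <;> nlinarith [mul_nonneg hu (sub_nonneg.2 hx.1), mul_nonneg hv (sub_nonneg.2 hy.1),
    mul_nonneg hu (sub_nonneg.2 hx.2), mul_nonneg hv (sub_nonneg.2 hy.2)]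

lemma face_L {i : ℕ} (hi : i ≤ n) {k : Fin 3} {p : ℂ × ℝ} (hp : p ∈ T.face i k) :
    T.L i k p = 0 :=
  T.face_subset (convex_zero (T.L i k)) (fun j hj => (T.L0 i hi k j hj).1)
    (fun j hj => (T.L0 i hi k j hj).2) hp

lemma L_nonneg_w {i : ℕ} (hi : i ≤ n) (j l : Fin 3) : 0 ≤ T.L i j (T.w i l) := by
  by_cases h : l = j
  · subst h; exact (T.Lpos i hi l).1.le
  · exact (T.L0 i hi j l h).1.ge

lemma L_nonneg_w' {i : ℕ} (hi : i ≤ n) (j l : Fin 3) : 0 ≤ T.L i j (T.w (i + 1) l) := by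
  by_cases h : l = j
  · subst h; exact (T.Lpos i hi l).2.le
  · exact (T.L0 i hi j l h).2.ge

lemma face_L_nonneg {i : ℕ} (hi : i ≤ n) {k : Fin 3} {p : ℂ × ℝ} (hp : p ∈ T.face i k)
    (j : Fin 3) : 0 ≤ T.L i j p :=
  T.face_subset (convex_nonneg (T.L i j)) (fun l _ => T.L_nonneg_w hi j l)
    (fun l _ => T.L_nonneg_w' hi j l) hp

lemma face_ωlo {i : ℕ} (hi : i ≤ n) {k : Fin 3} {p : ℂ × ℝ} (hp : p ∈ T.face i k) :
    0 ≤ T.ω i p :=
  T.face_subset (convex_nonneg (T.ω i)) (fun l _ => (T.ω0 i (by omega) l).ge)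
    (fun l _ => (T.ωpos i hi l).le) hp

lemma face_ωhi {i : ℕ} (hi : i ≤ n) {k : Fin 3} {p : ℂ × ℝ} (hp : p ∈ T.face i k) :
    T.ω (i + 1) p ≤ 0 :=
  T.face_subset (convex_nonpos (T.ω (i + 1))) (fun l _ => (T.ωneg i hi l).le)
    (fun l _ => (T.ω0 (i + 1) (by omega) l).le) hp

lemma face_lev {i : ℕ} (hi : i ≤ n) {k : Fin 3} {p : ℂ × ℝ} (hp : p ∈ T.face i k) :
    T.m i ≤ p.2 ∧ p.2 ≤ T.M (i + 1) := by
  have h1 := T.lev i (by omega)
  have h2 := T.lev (i + 1) (by omega)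
  have h3 := T.mM i hi
  have h4 := T.mleM i (by omega)
  have h5 := T.mleM (i + 1) (by omega)
  refine T.face_subset (convex_lev (T.m i) (T.M (i + 1))) (fun l _ => ?_) (fun l _ => ?_) hp
  · exact ⟨(h1 l).1, by linarith [(h1 l).2]⟩
  · exact ⟨by linarith [(h2 l).1], (h2 l).2⟩

/-- Half space description of a side face. -/
lemma mem_face {i : ℕ} (hi : i ≤ n) {k : Fin 3} {p : ℂ × ℝ} (hk : T.L i k p = 0)
    (hj : ∀ j, 0 ≤ T.L i j p) (h0 : 0 ≤ T.ω i p) (h1 : T.ω (i + 1) p ≤ 0) :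
    p ∈ T.face i k := by
  refine quad_mem (T.w i (k + 1)) (T.w i (k + 2)) (T.w (i + 1) (k + 2)) (T.w (i + 1) (k + 1)) p
    (T.L i k) (T.ω i) (T.L i (k + 1)) (-T.ω (i + 1)) (T.L i (k + 2))
    (T.L0 i hi _ _ (ne1 k)).1 (T.L0 i hi _ _ (ne2 k)).1 (T.L0 i hi _ _ (ne2 k)).2
    (T.L0 i hi _ _ (ne1 k)).2 hk
    (T.ω0 i (by omega) _) (T.ω0 i (by omega) _) (T.ωpos i hi _) (T.ωpos i hi _)
    (T.L0 i hi _ _ (ne21 k)).1 (T.L0 i hi _ _ (ne21 k)).2 (T.Lpos i hi _).1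
    ?_ ?_ ?_
    (T.L0 i hi _ _ (ne12 k)).2 (T.L0 i hi _ _ (ne12 k)).1 (T.Lpos i hi _).1 (T.Lpos i hi _).2
    ?_ ?_ h0 (hj _) ?_ (hj _)
  · simp [T.ω0 (i + 1) (by omega)]
  · simp [T.ω0 (i + 1) (by omega)]
  · simpa using T.ωneg i hi (k + 1)
  · intro x y a b c
    exact T.injlo i hi k (k + 1) (ne1 k).symm x y a b c
  · intro x y a b c
    refine T.injhi i hi k (k + 2) (ne2 k).symm x y a b ?_
    simpa using c
  · simpa using h1

lemma sec_bar {i : ℕ} (hi : i ≤ n) {s : ℝ} (h1 : ∀ j < i, T.M (j + 1) < s)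
    (h2 : ∀ j, i < j → j ≤ n → s < T.m j) (h3 : T.M i ≤ s) (h4 : s ≤ T.m (i + 1))
    {p : ℂ × ℝ} (hp : p.2 = s) :
    p ∈ T.inner ↔ (∀ j, 0 ≤ T.L i j p) ∧ ∃ k, T.L i k p = 0 := by
  rw [mem_inner]
  constructor
  · rintro ⟨j, hj, k, h⟩
    have hl := T.face_lev hj h
    rw [hp] at hl
    rcases lt_trichotomy j i with h' | h' | h'
    · exact absurd (h1 j h') (not_lt.2 hl.2)
    · subst h'
      exact ⟨T.face_L_nonneg hj h, k, T.face_L hj h⟩
    · exact absurd (h2 j h' hj) (not_lt.2 hl.1)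
  · rintro ⟨hj, k, hk⟩
    refine ⟨i, hi, k, T.mem_face hi hk hj ?_ ?_⟩
    · exact T.lo i hi p (by rw [hp]; exact h3)
        (by rw [hp]; exact h4.trans (T.mleM (i + 1) (by omega))) hj
    · exact T.hi i hi p (by rw [hp]; exact (T.mleM i (by omega)).trans h3)
        (by rw [hp]; exact h4) hj

lemma sec_win {i : ℕ} (hi : i < n) {s : ℝ} (h1 : T.m (i + 1) ≤ s) (h2 : s ≤ T.M (i + 1))
    {p : ℂ × ℝ} (hp : p.2 = s) :
    p ∈ T.inner ↔
      (T.ω (i + 1) p ≤ 0 ∧ (∀ j, 0 ≤ T.L i j p) ∧ ∃ k, T.L i k p = 0) ∨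
      (0 ≤ T.ω (i + 1) p ∧ (∀ j, 0 ≤ T.L (i + 1) j p) ∧ ∃ k, T.L (i + 1) k p = 0) := by
  rw [mem_inner]
  constructor
  · rintro ⟨j, hj, k, h⟩
    have hl := T.face_lev hj h
    rw [hp] at hl
    rcases lt_trichotomy j i with h' | h' | h'
    · have := T.M_lt_m (i := j + 1) (j := i + 1) (by omega) (by omega)
      linarith
    · subst h'
      exact Or.inl ⟨T.face_ωhi hj h, T.face_L_nonneg hj h, k, T.face_L hj h⟩
    · rcases Nat.lt_or_ge (i + 1) j with h'' | h''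
      · have := T.M_lt_m (i := i + 1) (j := j) h'' (by omega)
        linarith
      · have : j = i + 1 := by omega
        subst this
        exact Or.inr ⟨T.face_ωlo hj h, T.face_L_nonneg hj h, k, T.face_L hj h⟩
  · have hm := T.mM i (by omega)
    have hm2 := T.mM (i + 1) (by omega)
    rintro (⟨hω, hj, k, hk⟩ | ⟨hω, hj, k, hk⟩)
    · refine ⟨i, hi.le, k, T.mem_face hi.le hk hj ?_ hω⟩
      exact T.lo i hi.le p (by rw [hp]; linarith) (by rw [hp]; exact h2) hj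
    · refine ⟨i + 1, hi, k, T.mem_face hi hk hj hω ?_⟩
      exact T.hi (i + 1) hi p (by rw [hp]; exact h1) (by rw [hp]; linarith) hj

/-- Points of a window plane: the functionals on both sides are positively proportional. -/
lemma win_ratio {i : ℕ} (hi : i < n) (k : Fin 3) {p : ℂ × ℝ} (hp : T.ω (i + 1) p = 0) :
    ∃ ρ : ℝ, 0 < ρ ∧ T.L (i + 1) k p = ρ * T.L i k p := by
  have P := fun k => (T.Lpos i hi.le k).2
  have P' := fun k => (T.Lpos (i + 1) hi k).1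
  have Z := fun k j hj => (T.L0 i hi.le k j hj).2
  have Z' := fun k j hj => (T.L0 (i + 1) hi k j hj).1
  set a := T.L i 0 p / T.L i 0 (T.w (i + 1) 0) with ha
  set b := T.L i 1 p / T.L i 1 (T.w (i + 1) 1) with hb
  have e1 : a * T.L i 0 (T.w (i + 1) 0) = T.L i 0 p := by
    rw [ha]; have := (P 0).ne'; field_simp
  have e2 : b * T.L i 1 (T.w (i + 1) 1) = T.L i 1 p := by
    rw [hb]; have := (P 1).ne'; field_simp
  have hsum : a + b + (1 - a - b) = 1 := by ring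
  have hpp : p = a • T.w (i + 1) 0 + b • T.w (i + 1) 1 + (1 - a - b) • T.w (i + 1) 2 := by
    apply T.injhi i hi.le 0 1 (by decide)
    · rw [aff_comb3 _ _ _ _ _ _ _ hsum, Z 0 1 (by decide), Z 0 2 (by decide), e1]; ring
    · rw [aff_comb3 _ _ _ _ _ _ _ hsum, Z 1 0 (by decide), Z 1 2 (by decide), e2]; ring
    · rw [aff_comb3 _ _ _ _ _ _ _ hsum, T.ω0 (i + 1) (by omega), T.ω0 (i + 1) (by omega),
        T.ω0 (i + 1) (by omega), hp]; ring
  refine ⟨T.L (i + 1) k (T.w (i + 1) k) / T.L i k (T.w (i + 1) k), div_pos (P' k) (P k), ?_⟩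
  have hPk := (P k).ne'
  have key : T.L (i + 1) k p * T.L i k (T.w (i + 1) k)
      = T.L (i + 1) k (T.w (i + 1) k) * T.L i k p := by
    rw [hpp, aff_comb3 _ _ _ _ _ _ _ hsum, aff_comb3 _ _ _ _ _ _ _ hsum]
    fin_cases k
    · have z1 := Z 0 1 (by decide)
      have z2 := Z 0 2 (by decide)
      have z1' := Z' 0 1 (by decide)
      have z2' := Z' 0 2 (by decide)
      simp only [Fin.zero_eta] at *
      rw [z1, z2, z1', z2']; ring
    · have z1 := Z 1 0 (by decide)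
      have z2 := Z 1 2 (by decide)
      have z1' := Z' 1 0 (by decide)
      have z2' := Z' 1 2 (by decide)
      simp only [Fin.mk_one] at *
      rw [z1, z2, z1', z2']; ring
    · have z1 := Z 2 0 (by decide)
      have z2 := Z 2 1 (by decide)
      have z1' := Z' 2 0 (by decide)
      have z2' := Z' 2 1 (by decide)
      simp only [Fin.reduceFinMk] at *
      rw [z1, z2, z1', z2']; ring
  field_simp
  linarith [key]

/-- Along a horizontal ray the functionals are affine. -/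
lemma ray_aff (l : ℂ × ℝ →ᵃ[ℝ] ℝ) (c u : ℂ) (s t : ℝ) :
    l (c + t • u, s) = l (c, s) + l.linear (u, 0) * t := by
  have : ((c + t • u, s) : ℂ × ℝ) = t • ((u, 0) : ℂ × ℝ) +ᵥ ((c, s) : ℂ × ℝ) := by
    simp [add_comm]
  rw [this, l.map_vadd, map_smul, smul_eq_mul, vadd_eq_add]
  ring

/-- Position of a level. -/
lemma level_cases {s : ℝ} (h0 : T.m 0 ≤ s) (h1 : s ≤ T.M (n + 1)) :
    (∃ i ≤ n, (∀ j < i, T.M (j + 1) < s) ∧ (∀ j, i < j → j ≤ n → s < T.m j) ∧ T.M i ≤ s ∧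
      s ≤ T.m (i + 1)) ∨ (∃ i < n, T.m (i + 1) ≤ s ∧ s ≤ T.M (i + 1)) := by
  classical
  -- the largest index with m i ≤ s
  obtain ⟨i, hi1, hi2, hi3⟩ : ∃ i, i ≤ n + 1 ∧ T.m i ≤ s ∧ ∀ j, i < j → j ≤ n + 1 → s < T.m j := by
    have hex : ∃ i ∈ (Finset.range (n + 2)).filter (fun i => T.m i ≤ s),
        ∀ j ∈ (Finset.range (n + 2)).filter (fun i => T.m i ≤ s), j ≤ i := by
      refine ⟨_, Finset.max'_mem _ ⟨0, by simp [h0]⟩, fun j hj => Finset.le_max' _ j hj⟩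
    obtain ⟨i, hi, hmax⟩ := hex
    simp only [Finset.mem_filter, Finset.mem_range] at hi hmax
    refine ⟨i, by omega, hi.2, fun j hij hj => ?_⟩
    by_contra hc
    push Not at hc
    have := hmax j ⟨by omega, hc⟩
    omega
  rcases hi1.eq_or_lt with h | h
  · -- top
    subst h
    left
    have hs : s = T.m (n + 1) := le_antisymm (h1.trans T.mn.ge) hi2
    refine ⟨n, le_rfl, ?_, ?_, ?_, hs.le⟩
    · intro j hj
      rw [hs]
      exact T.M_lt_m (by omega) le_rfl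
    · intro j hj hj'; omega
    · rw [hs]; exact (T.mM n le_rfl).le
  · by_cases hM : T.M i < s
    · left
      refine ⟨i, by omega, ?_, ?_, hM.le, (hi3 (i + 1) (by omega) (by omega)).le⟩
      · intro j hj
        exact lt_of_le_of_lt (T.M_mono (by omega) (by omega)) hM
      · intro j hj hj'
        exact hi3 j hj (by omega)
    · push Not at hM
      rcases Nat.eq_zero_or_pos i with h0' | hpos
      · subst h0'
        left
        refine ⟨0, by omega, ?_, ?_, ?_, (hi3 1 (by omega) (by omega)).le⟩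
        · intro j hj; omega
        · intro j hj hj'; exact hi3 j hj (by omega)
        · rw [← T.m0]; exact hi2
      · right
        obtain ⟨i', rfl⟩ : ∃ i', i = i' + 1 := ⟨i - 1, by omega⟩
        exact ⟨i', by omega, hi2, hM⟩

/-- Every horizontal ray from the centre meets the tunnel surface exactly once. -/
theorem inner_ray {s : ℝ} (h0 : T.m 0 ≤ s) (h1 : s ≤ T.M (n + 1)) {u : ℂ} (hu : u ≠ 0) :
    ∃! t : ℝ, 0 < t ∧ (T.c s + t • u, s) ∈ T.inner := by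
  rcases T.level_cases h0 h1 with ⟨i, hi, h2, h3, h4, h5⟩ | ⟨i, hi, h2, h3⟩
  · have hcp := T.cpos i hi s ((T.mleM i (by omega)).trans h4)
      (h5.trans (T.mleM (i + 1) (by omega)))
    have := ray_existsUnique (fun k => T.L i k (T.c s, s)) (fun k => (T.L i k).linear (u, 0))
      (fun k => T.L i k (T.c s, s)) (fun k => (T.L i k).linear (u, 0)) 0 0 hcp hcp
      (T.dirs i hi u hu) (T.dirs i hi u hu) (fun k t _ _ => ⟨1, one_pos, by simp⟩)
    refine (existsUnique_congr fun t => ?_).1 this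
    rw [T.sec_bar hi h2 h3 h4 h5 rfl]
    simp only [Hit, ray_aff]
    constructor
    · rintro ⟨ht, ⟨_, a⟩ | ⟨_, a⟩⟩ <;> exact ⟨ht, a⟩
    · rintro ⟨ht, a⟩; exact ⟨ht, Or.inl ⟨by simp, a⟩⟩
  · have hcp := T.cpos i hi.le s ((T.m_mono (by omega) (by omega)).trans h2) h3
    have hcp' := T.cpos (i + 1) hi s h2
      (h3.trans ((T.mM (i + 1) hi).le.trans (T.mleM (i + 2) (by omega))))
    have := ray_existsUnique (fun k => T.L i k (T.c s, s)) (fun k => (T.L i k).linear (u, 0))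
      (fun k => T.L (i + 1) k (T.c s, s)) (fun k => (T.L (i + 1) k).linear (u, 0))
      (T.ω (i + 1) (T.c s, s)) ((T.ω (i + 1)).linear (u, 0)) hcp hcp'
      (T.dirs i hi.le u hu) (T.dirs (i + 1) hi u hu) (fun k t _ ht => by
        rw [← ray_aff] at ht
        have := T.win_ratio hi k ht
        rwa [ray_aff, ray_aff] at this)
    refine (existsUnique_congr fun t => ?_).1 this
    rw [T.sec_win hi h2 h3 rfl]
    simp only [Hit, ray_aff]

end Tunnel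

end Pool.Agent.Helper183.Collar
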