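import Pool.Agent.Helper183_Collar.Radial
import Pool.Agent.Helper183_Collar.Tunnel

set_option autoImplicit false

namespace Pool.Agent.Helper183.Collar

open Set Filter Topology Module

section ray

variable {E : Type*} [NormedAddCommGroup E] [NormedSpace ℝ E]

/-- Rays from an interior point of a compact convex set leave it exactly once. -/
lemma ray_frontier {C : Set E} (hC : Convex ℝ C) (hK : IsCompact C) {z : E} (hz : z ∈ interior C)
    {v : E} (hv : v ≠ 0) : ∃! t : ℝ, 0 < t ∧ z + t • v ∈ frontier C := by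
  let h := Homeomorph.addLeft z
  let D := h ⁻¹' C
  have hD : Convex ℝ D := hC.translate_preimage_right z
  have hD0 : D ∈ 𝓝 (0 : E) := by
    apply h.continuous.continuousAt.preimage_mem_nhds
    have : h 0 = z := by simp [h]
    rw [this]
    exact mem_interior_iff_mem_nhds.1 hz
  have hDK : IsCompact D := h.isCompact_preimage.2 hK
  have hg : 0 < gauge D v := by
    rw [gauge_pos (absorbent_nhds_zero hD0) ((NormedSpace.isVonNBounded_iff ℝ).2 hDK.isBounded)]
    exact hv
  have hfr : h ⁻¹' frontier C = frontier D := h.preimage_frontier C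
  have key : ∀ t : ℝ, 0 < t → (z + t • v ∈ frontier C ↔ t * gauge D v = 1) := by
    intro t ht
    have : z + t • v ∈ frontier C ↔ t • v ∈ frontier D := by
      rw [← hfr]; rfl
    rw [this, ← gauge_eq_one_iff_mem_frontier hD hD0, gauge_smul_of_nonneg ht.le, smul_eq_mul]
  refine ⟨(gauge D v)⁻¹, ⟨inv_pos.2 hg, ?_⟩, ?_⟩
  · rw [key _ (inv_pos.2 hg)]
    field_simp
  · rintro t ⟨ht, h1⟩
    rw [key t ht] at h1
    field_simp
    linarith

end ray

section poly

variable {V : Type*} [DecidableEq V]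
variable {E : Type*} [NormedAddCommGroup E] [NormedSpace ℝ E]

lemma IsPolytope.inj {x : V → E} {F : Finset (Finset V)} (h : IsPolytope x F) :
    Function.Injective x := by
  intro v w hvw
  by_contra hne
  apply h.vert v
  rw [hvw]
  exact subset_convexHull ℝ _ ⟨w, by simpa [eq_comm] using hne, rfl⟩

/-- A facet is not contained in another one. -/
lemma IsPolytope.not_subset {x : V → E} {F : Finset (Finset V)} (h : IsPolytope x F)
    {f g : Finset V} (hf : f ∈ F) (hg : g ∈ F) (hne : f ≠ g) : ¬ f ⊆ g := by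
  intro hsub
  obtain ⟨v, hv, hvf⟩ : ∃ v ∈ g, v ∉ f := by
    by_contra hc
    push Not at hc
    exact hne (Finset.Subset.antisymm hsub hc)
  obtain ⟨l, l0, l1⟩ := h.facet f hf
  have hfne : f.Nonempty := by
    rw [Finset.nonempty_iff_ne_empty]
    rintro rfl
    have := h.rank _ hf
    rw [Finset.coe_empty, image_empty, vectorSpan_empty] at this
    simp at this
  obtain ⟨w, hw⟩ := hfne
  have hle : vectorSpan ℝ (x '' (f : Set V)) ≤ vectorSpan ℝ (x '' (g : Set V)) :=
    vectorSpan_mono ℝ (image_mono (by exact_mod_cast hsub))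
  have hfin : FiniteDimensional ℝ (vectorSpan ℝ (x '' (g : Set V))) :=
    Module.finite_of_finrank_pos (by rw [h.rank g hg]; norm_num)
  have heq : vectorSpan ℝ (x '' (f : Set V)) = vectorSpan ℝ (x '' (g : Set V)) :=
    Submodule.eq_of_le_of_finrank_eq hle (by rw [h.rank f hf, h.rank g hg])
  have hker : vectorSpan ℝ (x '' (f : Set V)) ≤ LinearMap.ker l.linear := by
    rw [vectorSpan_def, Submodule.span_le]
    rintro _ ⟨_, ⟨a, ha, rfl⟩, _, ⟨b, hb, rfl⟩, rfl⟩
    show l.linear (x a -ᵥ x b) = 0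
    rw [l.linearMap_vsub, l0 a ha, l0 b hb, vsub_self]
  have hmem : x v -ᵥ x w ∈ vectorSpan ℝ (x '' (g : Set V)) :=
    vsub_mem_vectorSpan ℝ ⟨v, hv, rfl⟩ ⟨w, hsub hw, rfl⟩
  rw [← heq] at hmem
  have h0 : l.linear (x v -ᵥ x w) = 0 := hker hmem
  rw [l.linearMap_vsub, l0 w hw] at h0
  have := l1 v hvf
  simp at h0
  linarith

end poly

/-- The height functional. -/
noncomputable def levF (a : ℝ) : ℂ × ℝ →ᵃ[ℝ] ℝ :=
  (LinearMap.snd ℝ ℂ ℝ).toAffineMap - AffineMap.const ℝ (ℂ × ℝ) a

lemma levF_apply (a : ℝ) (p : ℂ × ℝ) : levF a p = p.2 - a := by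
  simp [levF]

lemma convex_mix {E : Type*} [NormedAddCommGroup E] [NormedSpace ℝ E] {C : Set E}
    (hC : Convex ℝ C) (l : E →ᵃ[ℝ] ℝ) :
    Convex ℝ {p : E | 0 ≤ l p ∧ p ∈ C ∧ (0 < l p → p ∈ interior C)} := by
  rintro x ⟨hx1, hx2, hx3⟩ y ⟨hy1, hy2, hy3⟩ α β hα hβ hαβ
  refine ⟨?_, hC hx2 hy2 hα hβ hαβ, ?_⟩
  · rw [aff_comb l x y α β hαβ]
    positivity
  · intro h
    rw [aff_comb l x y α β hαβ] at h
    rcases hα.eq_or_lt with ha | ha
    · have : β = 1 := by linarith
      subst this
      rw [← ha] at h ⊢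
      simp only [zero_smul, one_smul, zero_add, zero_mul, one_mul] at h ⊢
      exact hy3 h
    rcases hβ.eq_or_lt with hb | hb
    · have : α = 1 := by linarith
      subst this
      rw [← hb] at h ⊢
      simp only [zero_smul, one_smul, add_zero, zero_mul, one_mul] at h ⊢
      exact hx3 h
    rcases hx1.eq_or_lt with e | e
    · rcases hy1.eq_or_lt with e' | e'
      · rw [← e, ← e'] at h; simp at h
      · exact hC.combo_self_interior_mem_interior hx2 (hy3 e') hα hb hαβ
    · exact hC.combo_interior_self_mem_interior (hx3 e) hy2 ha hβ hαβ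

lemma Tunnel.hlt {n : ℕ} (T : Tunnel n) : T.m 0 < T.M (n + 1) := by
  have h1 := T.M_lt_m (i := 0) (j := n + 1) (by omega) le_rfl
  have h2 := T.m0
  have h3 := T.mn
  linarith

/-- The data of a polytope with a tunnel from one triangular facet to another one. -/
structure Drilled {V : Type*} [Fintype V] [DecidableEq V] {n : ℕ} (T : Tunnel n)
    (X : V → ℂ × ℝ) (F : Finset (Finset V)) (a b : Fin 3 → V) : Prop where
  poly : IsPolytope X F
  ainj : Function.Injective a
  binj : Function.Injective b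
  hA : Finset.univ.image a ∈ F
  hB : Finset.univ.image b ∈ F
  n1 : 1 ≤ n
  w0 : ∀ k, T.w 0 k = X (b k)
  w1 : ∀ k, T.w (n + 1) k = X (a k)
  lev : ∀ v, T.m 0 ≤ (X v).2 ∧ (X v).2 ≤ T.M (n + 1)
  lev0 : ∀ v, (X v).2 = T.m 0 → ∃ k, v = b k
  lev1 : ∀ v, (X v).2 = T.M (n + 1) → ∃ k, v = a k
  int : ∀ i, 1 ≤ i → i ≤ n → ∀ k, T.w i k ∈ interior (convexHull ℝ (range X))

/-- The outer facets. -/
def outerF {V : Type*} [DecidableEq V] (F : Finset (Finset V)) (a b : Fin 3 → V) :
    Finset (Finset V) := (F.erase (Finset.univ.image a)).erase (Finset.univ.image b)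

lemma mem_outerF {V : Type*} [DecidableEq V] {F : Finset (Finset V)} {a b : Fin 3 → V}
    {f : Finset V} : f ∈ outerF F a b ↔
      f ∈ F ∧ f ≠ Finset.univ.image a ∧ f ≠ Finset.univ.image b := by
  simp only [outerF, Finset.mem_erase]
  tauto

namespace Drilled

variable {V : Type*} [Fintype V] [DecidableEq V] {n : ℕ} {T : Tunnel n}
    {X : V → ℂ × ℝ} {F : Finset (Finset V)} {a b : Fin 3 → V} (D : Drilled T X F a b)

include D

lemma lev_hull {p : ℂ × ℝ} (hp : p ∈ convexHull ℝ (range X)) :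
    T.m 0 ≤ p.2 ∧ p.2 ≤ T.M (n + 1) := by
  have : convexHull ℝ (range X) ⊆ {p | T.m 0 ≤ p.2 ∧ p.2 ≤ T.M (n + 1)} := by
    apply convexHull_min _ (Tunnel.convex_lev _ _)
    rintro _ ⟨v, rfl⟩; exact D.lev v
  exact this hp

lemma face_sub_hull {i : ℕ} (hi : i ≤ n) {k : Fin 3} : T.face i k ⊆ convexHull ℝ (range X) := by
  have key : ∀ j ≤ n + 1, ∀ l, T.w j l ∈ convexHull ℝ (range X) := by
    intro j hj l
    rcases Nat.eq_zero_or_pos j with h | h
    · subst h; rw [D.w0]; exact subset_convexHull ℝ _ ⟨_, rfl⟩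
    rcases hj.eq_or_lt with h' | h'
    · subst h'; rw [D.w1]; exact subset_convexHull ℝ _ ⟨_, rfl⟩
    · exact interior_subset (D.int j h (by omega) l)
  exact T.face_subset (convex_convexHull ℝ _) (fun j _ => key i (by omega) j)
    (fun j _ => key (i + 1) (by omega) j)

lemma face_int_lo {i : ℕ} (hi : i < n) {k : Fin 3} {p : ℂ × ℝ} (hp : p ∈ T.face i k)
    (h0 : T.m 0 < p.2) : p ∈ interior (convexHull ℝ (range X)) := by
  have hS := convex_mix (convex_convexHull ℝ (range X)) (levF (T.m 0))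
  have hsub := T.face_subset (i := i) (k := k) hS (fun j _ => ?_) (fun j _ => ?_) hp
  · exact hsub.2.2 (by rw [levF_apply]; linarith)
  · refine ⟨?_, ?_, ?_⟩
    · rw [levF_apply]
      have h1 := T.m_mono (i := 0) (j := i) (by omega) (by omega)
      have h2 := T.lev i (by omega) j
      linarith [h2.1]
    · rcases Nat.eq_zero_or_pos i with h | h
      · subst h; rw [D.w0]; exact subset_convexHull ℝ _ ⟨_, rfl⟩
      · exact interior_subset (D.int i h (by omega) j)
    · intro hl
      rcases Nat.eq_zero_or_pos i with h | h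
      · subst h
        rw [levF_apply] at hl
        have h2 := T.lev 0 (by omega) j
        have h3 := T.m0
        linarith [h2.2]
      · exact D.int i h (by omega) j
  · have hI := D.int (i + 1) (by omega) (by omega) j
    refine ⟨?_, interior_subset hI, fun _ => hI⟩
    rw [levF_apply]
    have h1 := T.m_mono (i := 0) (j := i + 1) (by omega) (by omega)
    have h2 := T.lev (i + 1) (by omega) j
    linarith [h2.1]

lemma face_int_hi {i : ℕ} (hi0 : 1 ≤ i) (hi : i ≤ n) {k : Fin 3} {p : ℂ × ℝ}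
    (hp : p ∈ T.face i k)
    (h0 : p.2 < T.M (n + 1)) : p ∈ interior (convexHull ℝ (range X)) := by
  have hS := convex_mix (convex_convexHull ℝ (range X)) (-levF (T.M (n + 1)))
  have happ : ∀ q : ℂ × ℝ, (-levF (T.M (n + 1))) q = T.M (n + 1) - q.2 := by
    intro q
    show - (levF (T.M (n + 1)) q) = _
    rw [levF_apply]; ring
  have hsub := T.face_subset (i := i) (k := k) hS (fun j _ => ?_) (fun j _ => ?_) hp
  · exact hsub.2.2 (by rw [happ]; linarith)
  · have hI := D.int i (by omega) (by omega) j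
    refine ⟨?_, interior_subset hI, fun _ => hI⟩
    rw [happ]
    have h1 := T.M_mono (i := i) (j := n + 1) (by omega) (by omega)
    have h2 := T.lev i (by omega) j
    linarith [h2.2]
  · refine ⟨?_, ?_, ?_⟩
    · rw [happ]
      have h1 := T.M_mono (i := i + 1) (j := n + 1) (by omega) (by omega)
      have h2 := T.lev (i + 1) (by omega) j
      linarith [h2.2]
    · rcases hi.eq_or_lt with h | h
      · subst h; rw [D.w1]; exact subset_convexHull ℝ _ ⟨_, rfl⟩
      · exact interior_subset (D.int (i + 1) (by omega) (by omega) j)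
    · intro hl
      rcases hi.eq_or_lt with h | h
      · subst h
        rw [happ] at hl
        have h2 := T.lev (i + 1) (by omega) j
        have h3 := T.mn
        linarith [h2.1]
      · exact D.int (i + 1) (by omega) (by omega) j

lemma inner_int {p : ℂ × ℝ} (hp : p ∈ T.inner) (h0 : T.m 0 < p.2) (h1 : p.2 < T.M (n + 1)) :
    p ∈ interior (convexHull ℝ (range X)) := by
  obtain ⟨i, hi, k, h⟩ := T.mem_inner.1 hp
  rcases Nat.eq_zero_or_pos i with h' | h'
  · subst h'
    exact D.face_int_lo (by have := D.n1; omega) h h0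
  · exact D.face_int_hi h' hi h h1

lemma centre_int {s : ℝ} (h0 : T.m 0 < s) (h1 : s < T.M (n + 1)) :
    (T.c s, s) ∈ interior (convexHull ℝ (range X)) := by
  obtain ⟨t, ⟨ht, hm⟩, _⟩ := T.inner_ray h0.le h1.le (u := 1) one_ne_zero
  obtain ⟨t', ⟨ht', hm'⟩, _⟩ := T.inner_ray h0.le h1.le (u := -1) (by norm_num)
  have e1 := D.inner_int hm h0 h1
  have e2 := D.inner_int hm' h0 h1
  have hc := (convex_convexHull ℝ (range X)).interior
  have hpos : 0 < t + t' := by linarith
  obtain ⟨α, β, hα, hβ, hαβ, hbal⟩ : ∃ α β : ℝ, 0 ≤ α ∧ 0 ≤ β ∧ α + β = 1 ∧ α * t - β * t' = 0 :=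
    ⟨t' / (t + t'), t / (t + t'), by positivity, by positivity, by field_simp; ring,
      by field_simp; ring⟩
  have := hc e1 e2 hα hβ hαβ
  convert this using 1
  refine Prod.ext ?_ ?_
  · have e : α • (T.c s + t • (1 : ℂ)) + β • (T.c s + t' • (-1 : ℂ))
        = (α + β) • T.c s + (α * t - β * t') • (1 : ℂ) := by module
    show T.c s = α • (T.c s + t • (1 : ℂ)) + β • (T.c s + t' • (-1 : ℂ))
    rw [e, hαβ, hbal]
    simp
  · show s = α * s + β * s
    rw [← add_mul, hαβ, one_mul]

end Drilled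

end Pool.Agent.Helper183.Collar
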