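import Pool.Agent.Helper183_Collar.Outer

set_option autoImplicit false

namespace Pool.Agent.Helper183.Collar

open Set Filter Topology Module

lemma Tunnel.inner_ne_c {n : ℕ} (T : Tunnel n) {p : ℂ × ℝ} (hp : p ∈ T.inner) :
    p.1 ≠ T.c p.2 := by
  obtain ⟨i, hi, k, h⟩ := T.mem_inner.1 hp
  intro he
  have h1 := T.face_lev hi h
  have h2 := T.cpos i hi p.2 h1.1 h1.2 k
  have h3 := T.face_L hi h
  rw [← he] at h2
  have : ((p.1, p.2) : ℂ × ℝ) = p := rfl
  rw [this, h3] at h2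
  exact lt_irrefl _ h2

lemma Tunnel.isCompact_inner {n : ℕ} (T : Tunnel n) : IsCompact T.inner := by
  unfold Tunnel.inner
  apply (Finset.range (n + 1)).isCompact_biUnion
  intro i _
  apply isCompact_iUnion
  intro k
  exact Set.Finite.isCompact_convexHull ℝ (Set.toFinite _)

lemma mem_surf {V E : Type*} [DecidableEq V] [NormedAddCommGroup E] [NormedSpace ℝ E]
    {F : Finset (Finset V)} {x : V → E} {p : E} :
    p ∈ surf F x ↔ ∃ f ∈ F, p ∈ convexHull ℝ (x '' (f : Set V)) := by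
  simp [surf]

lemma isCompact_surf {V E : Type*} [DecidableEq V] [NormedAddCommGroup E]
    [NormedSpace ℝ E] (F : Finset (Finset V)) (x : V → E) : IsCompact (surf F x) := by
  unfold surf
  apply F.isCompact_biUnion
  intro f _
  exact Set.Finite.isCompact_convexHull ℝ (f.finite_toSet.image x)

namespace Drilled

variable {V : Type*} [Fintype V] [DecidableEq V] {n : ℕ} {T : Tunnel n}
    {X : V → ℂ × ℝ} {F : Finset (Finset V)} {a b : Fin 3 → V} (D : Drilled T X F a b)

include D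

lemma isCompact_hull : IsCompact (convexHull ℝ (range X)) :=
  Set.Finite.isCompact_convexHull ℝ (finite_range X)

lemma outer_frontier {p : ℂ × ℝ} (hp : p ∈ surf (outerF F a b) X) :
    p ∈ frontier (convexHull ℝ (range X)) := by
  rw [D.poly.bdry]
  obtain ⟨f, hf, h⟩ := mem_surf.1 hp
  exact mem_surf.2 ⟨f, (mem_outerF.1 hf).1, h⟩

lemma outer_hull {p : ℂ × ℝ} (hp : p ∈ surf (outerF F a b) X) :
    p ∈ convexHull ℝ (range X) :=
  D.isCompact_hull.isClosed.frontier_subset (D.outer_frontier hp)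

lemma frontier_outer {p : ℂ × ℝ} (hp : p ∈ frontier (convexHull ℝ (range X)))
    (h0 : T.m 0 < p.2) (h1 : p.2 < T.M (n + 1)) : p ∈ surf (outerF F a b) X := by
  rw [D.poly.bdry] at hp
  obtain ⟨f, hf, h⟩ := mem_surf.1 hp
  refine mem_surf.2 ⟨f, mem_outerF.2 ⟨hf, ?_, ?_⟩, h⟩
  · rintro rfl
    have : convexHull ℝ (X '' ((Finset.univ.image a : Finset V) : Set V))
        ⊆ {p | T.M (n + 1) ≤ p.2 ∧ p.2 ≤ T.M (n + 1)} := by
      apply convexHull_min _ (Tunnel.convex_lev _ _)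
      rintro _ ⟨v, hv, rfl⟩
      simp only [Finset.coe_image, Finset.coe_univ, image_univ, mem_range] at hv
      obtain ⟨k, rfl⟩ := hv
      rw [← D.w1]
      have h2 := T.lev (n + 1) le_rfl k
      have h3 := T.mn
      exact ⟨by linarith [h2.1], h2.2⟩
    have := this h
    linarith [this.1]
  · rintro rfl
    have : convexHull ℝ (X '' ((Finset.univ.image b : Finset V) : Set V))
        ⊆ {p | T.m 0 ≤ p.2 ∧ p.2 ≤ T.m 0} := by
      apply convexHull_min _ (Tunnel.convex_lev _ _)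
      rintro _ ⟨v, hv, rfl⟩
      simp only [Finset.coe_image, Finset.coe_univ, image_univ, mem_range] at hv
      obtain ⟨k, rfl⟩ := hv
      rw [← D.w0]
      have h2 := T.lev 0 (by omega) k
      have h3 := T.m0
      exact ⟨h2.1, by linarith [h2.2]⟩
    have := this h
    linarith [this.2]

lemma levF_nonneg (v : V) : 0 ≤ levF (T.m 0) (X v) := by
  rw [levF_apply]; linarith [(D.lev v).1]

lemma negLevF_apply (c : ℝ) (q : ℂ × ℝ) : (-levF c) q = c - q.2 := by
  show - (levF c q) = _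
  rw [levF_apply]; ring

lemma levF_nonneg' (v : V) : 0 ≤ (-levF (T.M (n + 1))) (X v) := by
  rw [D.negLevF_apply]; linarith [(D.lev v).2]

/-- some corner of the bottom triangle is missing from a facet -/
lemma missing_b {f : Finset V} (hf : f ∈ F) (hne : f ≠ Finset.univ.image b) :
    ∃ k, b k ∉ f := by
  by_contra hc
  push Not at hc
  apply D.poly.not_subset D.hB hf (Ne.symm hne)
  intro v hv
  obtain ⟨k, _, rfl⟩ := Finset.mem_image.1 hv
  exact hc k

lemma missing_a {f : Finset V} (hf : f ∈ F) (hne : f ≠ Finset.univ.image a) :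
    ∃ k, a k ∉ f := by
  by_contra hc
  push Not at hc
  apply D.poly.not_subset D.hA hf (Ne.symm hne)
  intro v hv
  obtain ⟨k, _, rfl⟩ := Finset.mem_image.1 hv
  exact hc k

lemma outer_bot {p : ℂ × ℝ} (hp : p ∈ surf (outerF F a b) X) (h0 : p.2 = T.m 0) :
    p ∈ T.inner := by
  obtain ⟨f, hf, h⟩ := mem_surf.1 hp
  obtain ⟨hfF, hfa, hfb⟩ := mem_outerF.1 hf
  obtain ⟨k, hk⟩ := D.missing_b hfF hfb
  rw [T.mem_inner]
  refine ⟨0, by omega, k, ?_⟩
  have h1 : p ∈ convexHull ℝ (X '' ((f : Set V) ∩ {v | ∃ j, v = b j})) := by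
    apply mem_hull_zero_image (levF (T.m 0)) X _ _ (fun v _ => D.levF_nonneg v) _ h
    · rw [levF_apply, h0, sub_self]
    · intro v _ hv
      rw [levF_apply] at hv
      exact D.lev0 v (by linarith)
  refine convexHull_mono ?_ h1
  rintro _ ⟨v, ⟨hvf, j, rfl⟩, rfl⟩
  rw [← D.w0]
  rcases Tunnel.cases3 k j with h | h | h
  · subst h; exact absurd hvf hk
  · subst h; simp
  · subst h; simp

lemma outer_top {p : ℂ × ℝ} (hp : p ∈ surf (outerF F a b) X) (h0 : p.2 = T.M (n + 1)) :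
    p ∈ T.inner := by
  obtain ⟨f, hf, h⟩ := mem_surf.1 hp
  obtain ⟨hfF, hfa, hfb⟩ := mem_outerF.1 hf
  obtain ⟨k, hk⟩ := D.missing_a hfF hfa
  rw [T.mem_inner]
  refine ⟨n, by omega, k, ?_⟩
  have h1 : p ∈ convexHull ℝ (X '' ((f : Set V) ∩ {v | ∃ j, v = a j})) := by
    apply mem_hull_zero_image (-levF (T.M (n + 1))) X _ _ (fun v _ => D.levF_nonneg' v) _ h
    · rw [D.negLevF_apply, h0, sub_self]
    · intro v _ hv
      rw [D.negLevF_apply] at hv
      exact D.lev1 v (by linarith)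
  refine convexHull_mono ?_ h1
  rintro _ ⟨v, ⟨hvf, j, rfl⟩, rfl⟩
  rw [← D.w1]
  rcases Tunnel.cases3 k j with h | h | h
  · subst h; exact absurd hvf hk
  · subst h; simp
  · subst h; simp

lemma outer_lev {p : ℂ × ℝ} (hp : p ∈ surf (outerF F a b) X) :
    T.m 0 ≤ p.2 ∧ p.2 ≤ T.M (n + 1) := D.lev_hull (D.outer_hull hp)

lemma outer_ne_c {p : ℂ × ℝ} (hp : p ∈ surf (outerF F a b) X) : p.1 ≠ T.c p.2 := by
  have hl := D.outer_lev hp
  rcases hl.1.eq_or_lt with h | h
  · exact T.inner_ne_c (D.outer_bot hp h.symm)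
  rcases hl.2.eq_or_lt with h' | h'
  · exact T.inner_ne_c (D.outer_top hp h')
  · intro he
    have h1 := D.centre_int h h'
    rw [← he] at h1
    exact (D.outer_frontier hp).2 h1

/-- the curtain in direction `u` -/
lemma outer_ray_mid {s : ℝ} (h0 : T.m 0 < s) (h1 : s < T.M (n + 1)) (u : Circle) :
    ∃! t : ℝ, 0 < t ∧ (T.c s + t • (u : ℂ), s) ∈ surf (outerF F a b) X := by
  have hv : ((u : ℂ), (0 : ℝ)) ≠ 0 := by
    intro h
    exact u.coe_ne_zero (congrArg Prod.fst h)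
  have := ray_frontier (convex_convexHull ℝ (range X)) D.isCompact_hull (D.centre_int h0 h1) hv
  refine (existsUnique_congr fun t => ?_).1 this
  have e : ((T.c s, s) : ℂ × ℝ) + t • ((u : ℂ), (0 : ℝ)) = (T.c s + t • (u : ℂ), s) := by
    simp
  rw [e]
  constructor
  · rintro ⟨ht, h⟩; exact ⟨ht, D.frontier_outer h h0 h1⟩
  · rintro ⟨ht, h⟩; exact ⟨ht, D.outer_frontier h⟩

lemma outer_ray_exists {s : ℝ} (h0 : T.m 0 ≤ s) (h1 : s ≤ T.M (n + 1)) (u : Circle) :
    ∃ t : ℝ, 0 < t ∧ (T.c s + t • (u : ℂ), s) ∈ surf (outerF F a b) X := by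
  -- the compact set of points on the curtain
  let Z : Set (ℂ × ℝ) := {p | p ∈ surf (outerF F a b) X ∧
    p.1 - T.c p.2 = ‖p.1 - T.c p.2‖ • (u : ℂ)}
  have hcc := T.cc
  have hZ : IsCompact Z := by
    apply (isCompact_surf _ X).inter_right (t := {p : ℂ × ℝ | p.1 - T.c p.2 = ‖p.1 - T.c p.2‖ • (u : ℂ)})
    exact isClosed_eq (by fun_prop) (by fun_prop)
  have hcl : IsClosed (Prod.snd '' Z) := (hZ.image continuous_snd).isClosed
  have hsub : Ioo (T.m 0) (T.M (n + 1)) ⊆ Prod.snd '' Z := by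
    intro r hr
    obtain ⟨t, ⟨ht, hm⟩, _⟩ := D.outer_ray_mid hr.1 hr.2 u
    refine ⟨_, ⟨hm, ?_⟩, rfl⟩
    simp only [add_sub_cancel_left]
    rw [norm_smul_circle _ ht.le]
  have hIcc : Icc (T.m 0) (T.M (n + 1)) ⊆ Prod.snd '' Z := by
    rw [← closure_Ioo (T.hlt).ne]
    exact closure_minimal hsub hcl
  obtain ⟨p, ⟨hp1, hp2⟩, hps⟩ := hIcc ⟨h0, h1⟩
  refine ⟨‖p.1 - T.c p.2‖, norm_pos_iff.2 (sub_ne_zero.2 (D.outer_ne_c hp1)), ?_⟩
  have : (T.c s + ‖p.1 - T.c p.2‖ • (u : ℂ), s) = p := by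
    rw [← hp2, ← hps]
    simp
  rw [this]; exact hp1

lemma outer_ray {s : ℝ} (h0 : T.m 0 ≤ s) (h1 : s ≤ T.M (n + 1)) (u : Circle) :
    ∃! t : ℝ, 0 < t ∧ (T.c s + t • (u : ℂ), s) ∈ surf (outerF F a b) X := by
  rcases h0.eq_or_lt with h | h
  · obtain ⟨t, ht⟩ := D.outer_ray_exists h0 h1 u
    obtain ⟨t0, _, hu⟩ := T.inner_ray h0 h1 u.coe_ne_zero
    have key : ∀ r, (0 < r ∧ (T.c s + r • (u : ℂ), s) ∈ surf (outerF F a b) X) → r = t0 :=
      fun r hr => hu r ⟨hr.1, D.outer_bot hr.2 h.symm⟩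
    refine ⟨t, ht, fun r hr => ?_⟩
    rw [key r hr, key t ht]
  rcases h1.eq_or_lt with h' | h'
  · obtain ⟨t, ht⟩ := D.outer_ray_exists h0 h1 u
    obtain ⟨t0, _, hu⟩ := T.inner_ray h0 h1 u.coe_ne_zero
    have key : ∀ r, (0 < r ∧ (T.c s + r • (u : ℂ), s) ∈ surf (outerF F a b) X) → r = t0 :=
      fun r hr => hu r ⟨hr.1, D.outer_top hr.2 h'⟩
    refine ⟨t, ht, fun r hr => ?_⟩
    rw [key r hr, key t ht]
  · exact D.outer_ray_mid h h' u

/-- The drilled polytope has an unknotted torus as its surface. -/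
theorem unknotted :
    ∃ H : (ℂ × ℝ) ≃ₜ (ℂ × ℝ), H '' (surf (outerF F a b) X ∪ T.inner) = roundTorus := by
  have hab := T.hlt
  obtain ⟨gi, ci, pi, hgi, gil, gir⟩ := radial_graph T.inner T.isCompact_inner (T.m 0)
    (T.M (n + 1)) hab.le T.c T.cc
    (fun p hp => by
      obtain ⟨i, hi, k, h⟩ := T.mem_inner.1 hp
      have h1 := T.face_lev hi h
      have h2 := T.m_mono (i := 0) (j := i) (by omega) (by omega)
      have h3 := T.M_mono (i := i + 1) (j := n + 1) (by omega) le_rfl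
      exact ⟨by linarith [h1.1], by linarith [h1.2]⟩)
    (fun p hp => T.inner_ne_c hp)
    (fun s h0 h1 u => T.inner_ray h0 h1 u.coe_ne_zero)
  obtain ⟨go, co, po, hgo, gol, gor⟩ := radial_graph (surf (outerF F a b) X)
    (isCompact_surf _ X) (T.m 0) (T.M (n + 1)) hab.le T.c T.cc
    (fun p hp => D.outer_lev hp) (fun p hp => D.outer_ne_c hp)
    (fun s h0 h1 u => D.outer_ray h0 h1 u)
  have hmi : ∀ s, T.m 0 ≤ s → s ≤ T.M (n + 1) → ∀ u : Circle,
      (T.c s + gi (s, u) • (u : ℂ), s) ∈ T.inner :=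
    fun s h0 h1 u => (hgi s h0 h1 u _ (pi _)).2 rfl
  have hmo : ∀ s, T.m 0 ≤ s → s ≤ T.M (n + 1) → ∀ u : Circle,
      (T.c s + go (s, u) • (u : ℂ), s) ∈ surf (outerF F a b) X :=
    fun s h0 h1 u => (hgo s h0 h1 u _ (po _)).2 rfl
  obtain ⟨H, hH⟩ := pillow_unknotted (T.m 0) (T.M (n + 1)) gi go ci co hab pi
    (by
      intro s u h0 h1
      by_contra hc
      push Not at hc
      have e1 := D.inner_int (hmi s h0.le h1.le u) h0 h1
      have e2 := D.centre_int h0 h1
      have e3 := D.outer_frontier (hmo s h0.le h1.le u)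
      apply e3.2
      have hcv := (convex_convexHull ℝ (range X)).interior
      have h4 : 0 ≤ 1 - go (s, u) / gi (s, u) := by
        rw [sub_nonneg, div_le_one (pi _)]; exact hc
      have h5 : 0 ≤ go (s, u) / gi (s, u) := div_nonneg (po _).le (pi _).le
      have := hcv e2 e1 h4 h5 (by ring)
      convert this using 1
      refine Prod.ext ?_ ?_
      · have h6 := (pi (s, u)).ne'
        have e : (1 - go (s, u) / gi (s, u)) • T.c s +
            (go (s, u) / gi (s, u)) • (T.c s + gi (s, u) • (u : ℂ))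
            = T.c s + (go (s, u) / gi (s, u) * gi (s, u)) • (u : ℂ) := by module
        show _ = (1 - go (s, u) / gi (s, u)) • T.c s +
            (go (s, u) / gi (s, u)) • (T.c s + gi (s, u) • (u : ℂ))
        rw [e, div_mul_cancel₀ _ h6]
      · show s = (1 - go (s, u) / gi (s, u)) * s + (go (s, u) / gi (s, u)) * s
        ring)
    (by
      have k0 : ∀ u, gi (T.m 0, u) = go (T.m 0, u) := by
        intro u
        have := D.outer_bot (hmo (T.m 0) le_rfl hab.le u) rfl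
        exact ((hgi (T.m 0) le_rfl hab.le u _ (po _)).1 this).symm
      have k1 : ∀ u, gi (T.M (n + 1), u) = go (T.M (n + 1), u) := by
        intro u
        have := D.outer_top (hmo (T.M (n + 1)) hab.le le_rfl u) rfl
        exact ((hgi (T.M (n + 1)) hab.le le_rfl u _ (po _)).1 this).symm
      intro s u h
      rcases h with h | h
      · rw [gil s u h, gol s u h, k0]
      · rw [gir s u h, gor s u h, k1])
  -- the shift
  have hcc := T.cc
  let S : (ℂ × ℝ) ≃ₜ (ℂ × ℝ) :=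
    { toFun := fun p => (p.1 - T.c p.2, p.2)
      invFun := fun p => (p.1 + T.c p.2, p.2)
      left_inv := fun p => by simp
      right_inv := fun p => by simp
      continuous_toFun := by fun_prop
      continuous_invFun := by fun_prop }
  refine ⟨S.trans H, ?_⟩
  have hS : S '' (surf (outerF F a b) X ∪ T.inner) = pillow (T.m 0) (T.M (n + 1)) gi go := by
    ext q
    constructor
    · rintro ⟨p, hp, rfl⟩
      have hlev : T.m 0 ≤ p.2 ∧ p.2 ≤ T.M (n + 1) := by
        rcases hp with hp | hp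
        · exact D.outer_lev hp
        · obtain ⟨i, hi, k, h⟩ := T.mem_inner.1 hp
          exact D.lev_hull (D.face_sub_hull hi h)
      have hne : p.1 - T.c p.2 ≠ 0 := by
        rw [sub_ne_zero]
        rcases hp with hp | hp
        · exact D.outer_ne_c hp
        · exact T.inner_ne_c hp
      have hpos := norm_pos_iff.2 hne
      have hpt : (T.c p.2 + ‖p.1 - T.c p.2‖ • (dir (p.1 - T.c p.2) : ℂ), p.2) = p := by
        rw [norm_smul_dir]; simp
      refine ⟨p.2, dir (p.1 - T.c p.2), hlev.1, hlev.2, ?_⟩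
      rcases hp with hp | hp
      · right
        have : ‖p.1 - T.c p.2‖ = go (p.2, dir (p.1 - T.c p.2)) :=
          (hgo p.2 hlev.1 hlev.2 (dir (p.1 - T.c p.2)) _ hpos).1 (by rw [hpt]; exact hp)
        rw [← this, norm_smul_dir]
        rfl
      · left
        have : ‖p.1 - T.c p.2‖ = gi (p.2, dir (p.1 - T.c p.2)) :=
          (hgi p.2 hlev.1 hlev.2 (dir (p.1 - T.c p.2)) _ hpos).1 (by rw [hpt]; exact hp)
        rw [← this, norm_smul_dir]
        rfl
    · rintro ⟨s, u, h0, h1, h | h⟩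
      · refine ⟨(T.c s + gi (s, u) • (u : ℂ), s), Or.inr (hmi s h0 h1 u), ?_⟩
        rw [h]
        show (T.c s + gi (s, u) • (u : ℂ) - T.c s, s) = _
        rw [add_sub_cancel_left]
      · refine ⟨(T.c s + go (s, u) • (u : ℂ), s), Or.inl (hmo s h0 h1 u), ?_⟩
        rw [h]
        show (T.c s + go (s, u) • (u : ℂ) - T.c s, s) = _
        rw [add_sub_cancel_left]
  have hc : (⇑(S.trans H) : ℂ × ℝ → ℂ × ℝ) = ⇑H ∘ ⇑S := rfl
  rw [hc, image_comp, hS, hH]

end Drilled

end Pool.Agent.Helper183.Collar
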