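import Mathlib

set_option autoImplicit false

namespace Pool.Agent.Helper183.Collar

open Set Filter Topology

/-- A unit complex number as a point of the circle. -/
noncomputable def mkC (z : ℂ) (h : ‖z‖ = 1) : Circle := ⟨z, mem_sphere_zero_iff_norm.2 h⟩

lemma mkC_coe (z : ℂ) (h : ‖z‖ = 1) : ((mkC z h : Circle) : ℂ) = z := rfl

/-- The direction of a complex number (arbitrary at `0`). -/
noncomputable def dir (y : ℂ) : Circle :=
  if h : y = 0 then 1 else mkC (y / ‖y‖) (by simp [h])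

lemma dir_coe {y : ℂ} (h : y ≠ 0) : (dir y : ℂ) = y / ‖y‖ := by
  unfold dir
  rw [dif_neg h, mkC_coe]

lemma norm_smul_dir (y : ℂ) : ‖y‖ • (dir y : ℂ) = y := by
  by_cases h : y = 0
  · simp [h]
  · rw [dir_coe h, Complex.real_smul]
    have : (‖y‖ : ℂ) ≠ 0 := by simpa using h
    field_simp

lemma dir_smul (u : Circle) {t : ℝ} (ht : 0 < t) : dir (t • (u : ℂ)) = u := by
  have h0 : (t • (u : ℂ)) ≠ 0 := smul_ne_zero ht.ne' u.coe_ne_zero
  apply Circle.ext
  rw [dir_coe h0, norm_smul, Circle.norm_coe, Real.norm_of_nonneg ht.le, mul_one,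
    Complex.real_smul]
  have : (t : ℂ) ≠ 0 := by simpa using ht.ne'
  field_simp

lemma norm_smul_circle (u : Circle) {t : ℝ} (ht : 0 ≤ t) : ‖t • (u : ℂ)‖ = t := by
  rw [norm_smul, Circle.norm_coe, Real.norm_of_nonneg ht, mul_one]

lemma continuous_coe_circle : Continuous (fun u : Circle => (u : ℂ)) := continuous_subtype_val

lemma continuousAt_dir {y : ℂ} (h : y ≠ 0) : ContinuousAt dir y := by
  have hi : IsInducing (fun u : Circle => (u : ℂ)) := IsInducing.subtypeVal
  rw [hi.continuousAt_iff]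
  have h1 : ContinuousAt (fun y : ℂ => y / ‖y‖) y := by
    apply ContinuousAt.div continuousAt_id
    · exact (Complex.continuous_ofReal.comp continuous_norm).continuousAt
    · simpa using h
  refine h1.congr ?_
  filter_upwards [isOpen_ne.mem_nhds h] with z hz
  simp only [Function.comp_apply]
  rw [dir_coe hz]

/-- Radial rearrangement. -/
noncomputable def polarMap (θ : ℝ × Circle × ℝ → ℝ) (p : ℂ × ℝ) : ℂ × ℝ :=
  (θ (p.2, dir p.1, ‖p.1‖) • (dir p.1 : ℂ), p.2)

lemma continuous_polarMap (θ : ℝ × Circle × ℝ → ℝ) (hc : Continuous θ)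
    (h0 : ∀ s u, θ (s, u, 0) = 0) : Continuous (polarMap θ) := by
  rw [continuous_iff_continuousAt]
  rintro ⟨y, s⟩
  unfold polarMap
  apply ContinuousAt.prodMk _ continuousAt_snd
  by_cases hy : y = 0
  · subst hy
    have hval : θ (s, dir 0, ‖(0 : ℂ)‖) • ((dir 0 : Circle) : ℂ) = 0 := by
      rw [norm_zero, h0, zero_smul]
    unfold ContinuousAt
    simp only []
    rw [hval, tendsto_zero_iff_norm_tendsto_zero]
    have hn : ∀ p : ℂ × ℝ, ‖θ (p.2, dir p.1, ‖p.1‖) • (dir p.1 : ℂ)‖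
        = |θ (p.2, dir p.1, ‖p.1‖)| := by
      intro p; rw [norm_smul, Circle.norm_coe, mul_one, Real.norm_eq_abs]
    simp_rw [hn]
    rw [Metric.tendsto_nhds]
    intro ε hε
    have key : ∀ᶠ q : ℝ × ℝ in 𝓝 (s, 0), ∀ u ∈ (univ : Set Circle), |θ (q.1, u, q.2)| < ε := by
      apply isCompact_univ.eventually_forall_of_forall_eventually
      intro u _
      have hcc : Continuous (fun z : (ℝ × ℝ) × Circle => |θ (z.1.1, z.2, z.1.2)|) := by
        fun_prop
      have h1 := hcc.tendsto ((s, 0), u)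
      simp only [h0, abs_zero] at h1
      exact h1.eventually (gt_mem_nhds hε)
    have ht : Tendsto (fun p : ℂ × ℝ => (p.2, ‖p.1‖)) (𝓝 ((0 : ℂ), s)) (𝓝 (s, 0)) := by
      have hcc : Continuous (fun p : ℂ × ℝ => (p.2, ‖p.1‖)) := by fun_prop
      have := hcc.tendsto ((0 : ℂ), s)
      simpa using this
    filter_upwards [ht.eventually key] with p hp
    have := hp (dir p.1) (mem_univ _)
    simpa [Real.dist_eq] using this
  · have hd : ContinuousAt (fun p : ℂ × ℝ => dir p.1) (y, s) :=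
      ContinuousAt.comp (f := Prod.fst) (g := dir) (x := (y, s)) (continuousAt_dir hy)
        continuousAt_fst
    have h1 : ContinuousAt (fun p : ℂ × ℝ => θ (p.2, dir p.1, ‖p.1‖)) (y, s) :=
      ContinuousAt.comp (f := fun p : ℂ × ℝ => (p.2, dir p.1, ‖p.1‖)) (g := θ)
        hc.continuousAt (continuousAt_snd.prodMk (hd.prodMk continuousAt_fst.norm))
    have h2 : ContinuousAt (fun p : ℂ × ℝ => (dir p.1 : ℂ)) (y, s) :=
      ContinuousAt.comp (f := fun p : ℂ × ℝ => dir p.1) (g := fun u : Circle => (u : ℂ))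
        continuous_coe_circle.continuousAt hd
    exact h1.smul h2

lemma polarMap_comp (θ θ' : ℝ × Circle × ℝ → ℝ) (h0 : ∀ s u, θ (s, u, 0) = 0)
    (h0' : ∀ s u, θ' (s, u, 0) = 0)
    (hp : ∀ s u t, 0 < t → 0 < θ (s, u, t))
    (hi : ∀ s u t, 0 < t → θ' (s, u, θ (s, u, t)) = t) (p : ℂ × ℝ) :
    polarMap θ' (polarMap θ p) = p := by
  obtain ⟨y, s⟩ := p
  unfold polarMap
  simp only [Prod.mk.injEq, and_true]
  by_cases hy : y = 0
  · subst hy
    simp [h0, h0']
  · have hn : 0 < ‖y‖ := norm_pos_iff.2 hy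
    have hθ := hp s (dir y) ‖y‖ hn
    rw [dir_smul _ hθ, norm_smul_circle _ hθ.le, hi s _ _ hn, norm_smul_dir]

/-- Radial rearrangements are homeomorphisms. -/
noncomputable def polarHomeo (θ θ' : ℝ × Circle × ℝ → ℝ) (hc : Continuous θ) (hc' : Continuous θ')
    (h0 : ∀ s u, θ (s, u, 0) = 0) (h0' : ∀ s u, θ' (s, u, 0) = 0)
    (hp : ∀ s u t, 0 < t → 0 < θ (s, u, t)) (hp' : ∀ s u t, 0 < t → 0 < θ' (s, u, t))
    (hi : ∀ s u t, 0 < t → θ' (s, u, θ (s, u, t)) = t)
    (hi' : ∀ s u t, 0 < t → θ (s, u, θ' (s, u, t)) = t) : (ℂ × ℝ) ≃ₜ (ℂ × ℝ) where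
  toFun := polarMap θ
  invFun := polarMap θ'
  left_inv := polarMap_comp θ θ' h0 h0' hp hi
  right_inv := polarMap_comp θ' θ h0' h0 hp' hi'
  continuous_toFun := continuous_polarMap θ hc h0
  continuous_invFun := continuous_polarMap θ' hc' h0'

lemma polarMap_smul (θ : ℝ × Circle × ℝ → ℝ) (s t : ℝ) (u : Circle) (ht : 0 < t) :
    polarMap θ (t • (u : ℂ), s) = (θ (s, u, t) • (u : ℂ), s) := by
  unfold polarMap
  simp only []
  rw [dir_smul _ ht, norm_smul_circle _ ht.le]

end Pool.Agent.Helper183.Collar
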