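import Pool.Agent.Helper183_Collar.Transfer
import Pool.Agent.Helper183_Collar.Combin2

set_option autoImplicit false
set_option linter.unusedSectionVars false

namespace Pool.Agent.Helper183.Collar

open Set Filter Topology Module

section rank

variable {V : Type*} [DecidableEq V]
variable {E : Type*} [NormedAddCommGroup E] [NormedSpace ℝ E] [FiniteDimensional ℝ E]

/-- Three points of a set in convex position are not collinear. -/
lemma not_wbtw {x : V → E} (vert : ∀ v, x v ∉ convexHull ℝ (x '' {v}ᶜ)) {p q r : V}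
    (hpq : p ≠ q) (hrq : r ≠ q) : ¬ Wbtw ℝ (x p) (x q) (x r) := by
  intro hw
  apply vert q
  have h6 : x q ∈ segment ℝ (x p) (x r) := hw.mem_segment
  rw [← convexHull_pair] at h6
  refine convexHull_mono ?_ h6
  intro y hy
  simp only [mem_insert_iff, mem_singleton_iff] at hy
  rcases hy with e | e <;> subst e
  · exact ⟨p, by simpa using hpq, rfl⟩
  · exact ⟨r, by simpa using hrq, rfl⟩

lemma rank_of_card (hE : finrank ℝ E = 3) {x : V → E}
    (vert : ∀ v, x v ∉ convexHull ℝ (x '' {v}ᶜ)) {f : Finset V} (hf : 3 ≤ f.card)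
    (l : E →ᵃ[ℝ] ℝ) (l0 : ∀ v ∈ f, l (x v) = 0) {s : E} (hs : l s ≠ 0) :
    finrank ℝ (vectorSpan ℝ (x '' (f : Set V))) = 2 := by
  obtain ⟨u, hu, v, hv, w, hw, huv, huw, hvw⟩ := Finset.two_lt_card.1 hf
  have hker : vectorSpan ℝ (x '' (f : Set V)) ≤ LinearMap.ker l.linear := by
    rw [vectorSpan_def, Submodule.span_le]
    rintro _ ⟨_, ⟨a, ha, rfl⟩, _, ⟨b, hb, rfl⟩, rfl⟩
    show l.linear (x a -ᵥ x b) = 0
    rw [l.linearMap_vsub, l0 a (by exact_mod_cast ha), l0 b (by exact_mod_cast hb), vsub_self]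
  have hlt : LinearMap.ker l.linear < ⊤ := by
    rw [lt_top_iff_ne_top]
    intro ht
    have h1 : s -ᵥ x u ∈ LinearMap.ker l.linear := by rw [ht]; trivial
    have h1 : l.linear (s -ᵥ x u) = 0 := h1
    rw [l.linearMap_vsub, l0 u hu] at h1
    apply hs
    simpa using h1
  have hub : finrank ℝ (vectorSpan ℝ (x '' (f : Set V))) ≤ 2 := by
    have h1 := Submodule.finrank_lt_finrank_of_lt hlt
    have h2 := Submodule.finrank_mono hker
    rw [finrank_top, hE] at h1
    omega
  by_contra hne
  have h1 : finrank ℝ (vectorSpan ℝ (x '' (f : Set V))) ≤ 1 := by omega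
  have hcol : Collinear ℝ ({x u, x v, x w} : Set E) := by
    rw [collinear_iff_finrank_le_one]
    refine (Submodule.finrank_mono (vectorSpan_mono ℝ ?_)).trans h1
    intro p hp
    simp only [mem_insert_iff, mem_singleton_iff] at hp
    rcases hp with e | e | e <;> subst e
    · exact ⟨u, by exact_mod_cast hu, rfl⟩
    · exact ⟨v, by exact_mod_cast hv, rfl⟩
    · exact ⟨w, by exact_mod_cast hw, rfl⟩
  rcases hcol.wbtw_or_wbtw_or_wbtw with e | e | e
  · exact not_wbtw vert huv (Ne.symm hvw) e
  · exact not_wbtw vert hvw huw e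
  · exact not_wbtw vert (Ne.symm huw) (Ne.symm huv) e

lemma card_of_rank {x : V → E} {f : Finset V}
    (hr : finrank ℝ (vectorSpan ℝ (x '' (f : Set V))) = 2) : 3 ≤ f.card := by
  classical
  by_contra hc
  push Not at hc
  have h1 : finrank ℝ (vectorSpan ℝ (x '' (f : Set V))) ≤ 1 := by
    have h2 : f.card ≤ 2 := by omega
    rcases f.eq_empty_or_nonempty with h | h
    · subst h
      rw [Finset.coe_empty, image_empty, vectorSpan_empty]; simp
    · have := finrank_vectorSpan_image_finset_le ℝ x f (n := f.card - 1)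
        (by have := h.card_pos; omega)
      rw [Finset.coe_image] at this
      omega
  omega

end rank

/-- The projective involution. -/
noncomputable def proj (p : ℂ × ℝ) : ℂ × ℝ := (⟨1 / p.1.re, p.1.im / p.1.re⟩, p.2 / p.1.re)

/-- the half space -/
def pos : Set (ℂ × ℝ) := {p | 0 < p.1.re}

lemma pos_open : IsOpen pos := by
  have : Continuous (fun p : ℂ × ℝ => p.1.re) := by fun_prop
  exact isOpen_lt continuous_const this

lemma proj_pos {p : ℂ × ℝ} (hp : p ∈ pos) : proj p ∈ pos := by
  show 0 < 1 / p.1.re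
  exact one_div_pos.2 hp

lemma proj_proj {p : ℂ × ℝ} (hp : p ∈ pos) : proj (proj p) = p := by
  have h : p.1.re ≠ 0 := ne_of_gt hp
  refine Prod.ext ?_ ?_
  · apply Complex.ext
    · show 1 / (1 / p.1.re) = p.1.re
      simp
    · show p.1.im / p.1.re / (1 / p.1.re) = p.1.im
      field_simp
  · show p.2 / p.1.re / (1 / p.1.re) = p.2
    field_simp

lemma proj_cont : ContinuousOn proj pos := by
  have h : ∀ p ∈ pos, p.1.re ≠ 0 := fun p hp => ne_of_gt hp
  have h0 : ContinuousOn (fun p : ℂ × ℝ => p.1.re) pos := by fun_prop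
  have h1 : ContinuousOn (fun p : ℂ × ℝ => 1 / p.1.re) pos := continuousOn_const.div h0 h
  have h2 : ContinuousOn (fun p : ℂ × ℝ => p.1.im / p.1.re) pos := by
    apply ContinuousOn.div _ h0 h
    fun_prop
  have h3 : ContinuousOn (fun p : ℂ × ℝ => p.2 / p.1.re) pos := by
    apply ContinuousOn.div _ h0 h
    fun_prop
  have e : proj = fun p : ℂ × ℝ =>
      (((1 / p.1.re : ℝ) : ℂ) + ((p.1.im / p.1.re : ℝ) : ℂ) * Complex.I, p.2 / p.1.re) := by
    funext p
    refine Prod.ext ?_ rfl
    apply Complex.ext <;> simp [proj]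
  rw [e]
  apply ContinuousOn.prodMk _ h3
  apply ContinuousOn.add
  · exact Complex.continuous_ofReal.comp_continuousOn h1
  · exact (Complex.continuous_ofReal.comp_continuousOn h2).mul continuousOn_const

lemma proj_hull_sub {S : Set (ℂ × ℝ)} (hS : S ⊆ pos) :
    proj '' convexHull ℝ S ⊆ convexHull ℝ (proj '' S) := by
  have key : convexHull ℝ S ⊆ {p | p ∈ pos ∧ proj p ∈ convexHull ℝ (proj '' S)} := by
    apply convexHull_min
    · intro p hp
      exact ⟨hS hp, subset_convexHull ℝ _ ⟨p, hp, rfl⟩⟩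
    · rintro p ⟨hp1, hp2⟩ q ⟨hq1, hq2⟩ a b ha hb hab
      have h1 : 0 < p.1.re := hp1
      have h2 : 0 < q.1.re := hq1
      have hre : (a • p + b • q).1.re = a * p.1.re + b * q.1.re := by simp
      have hpos : 0 < a * p.1.re + b * q.1.re := by
        rcases ha.eq_or_lt with h0 | h0
        · have : b = 1 := by linarith
          rw [← h0, this]; linarith
        · have := mul_pos h0 h1
          have := mul_nonneg hb h2.le
          linarith
      refine ⟨by show 0 < (a • p + b • q).1.re; rw [hre]; exact hpos, ?_⟩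
      have hc : proj (a • p + b • q) = (a * p.1.re / (a * p.1.re + b * q.1.re)) • proj p +
          (b * q.1.re / (a * p.1.re + b * q.1.re)) • proj q := by
        have hne := hpos.ne'
        have h1' := h1.ne'
        have h2' := h2.ne'
        refine Prod.ext ?_ ?_
        · apply Complex.ext
          · simp only [proj, Prod.fst_add, Prod.smul_fst, Complex.add_re, Complex.smul_re,
              smul_eq_mul]
            field_simp
            linarith
          · simp only [proj, Prod.fst_add, Prod.smul_fst, Complex.add_re, Complex.smul_re,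
              Complex.add_im, Complex.smul_im, smul_eq_mul]
            field_simp
        · simp only [proj, Prod.fst_add, Prod.smul_fst, Complex.add_re, Complex.smul_re,
            Prod.snd_add, Prod.smul_snd, smul_eq_mul]
          field_simp
      rw [hc]
      apply (convex_convexHull ℝ _) hp2 hq2
      · positivity
      · positivity
      · field_simp
  rintro _ ⟨p, hp, rfl⟩
  exact (key hp).2

lemma hull_pos {S : Set (ℂ × ℝ)} (hS : S ⊆ pos) : convexHull ℝ S ⊆ pos := by
  apply convexHull_min hS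
  rintro p hp q hq a b ha hb hab
  have h1 : 0 < p.1.re := hp
  have h2 : 0 < q.1.re := hq
  show 0 < (a • p + b • q).1.re
  have hre : (a • p + b • q).1.re = a * p.1.re + b * q.1.re := by simp
  rw [hre]
  rcases ha.eq_or_lt with h0 | h0
  · have : b = 1 := by linarith
    rw [← h0, this]; linarith
  · have := mul_pos h0 h1
    have := mul_nonneg hb h2.le
    linarith

lemma proj_hull {S : Set (ℂ × ℝ)} (hS : S ⊆ pos) :
    convexHull ℝ (proj '' S) = proj '' convexHull ℝ S := by
  apply Subset.antisymm _ (proj_hull_sub hS)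
  have hS' : proj '' S ⊆ pos := by
    rintro _ ⟨p, hp, rfl⟩; exact proj_pos (hS hp)
  intro q hq
  have h1 : proj q ∈ convexHull ℝ (proj '' (proj '' S)) := proj_hull_sub hS' ⟨q, hq, rfl⟩
  have h2 : proj '' (proj '' S) = S := by
    ext p
    constructor
    · rintro ⟨_, ⟨r, hr, rfl⟩, rfl⟩
      rw [proj_proj (hS hr)]; exact hr
    · intro hp
      exact ⟨proj p, ⟨p, hp, rfl⟩, proj_proj (hS hp)⟩
  rw [h2] at h1
  exact ⟨proj q, h1, proj_proj (hull_pos hS' hq)⟩

lemma proj_inj {p q : ℂ × ℝ} (hp : p ∈ pos) (hq : q ∈ pos) (h : proj p = proj q) : p = q := by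
  rw [← proj_proj hp, h, proj_proj hq]

lemma proj_open {U : Set (ℂ × ℝ)} (hU : IsOpen U) (hUp : U ⊆ pos) : IsOpen (proj '' U) := by
  have : proj '' U = pos ∩ proj ⁻¹' U := by
    ext q
    constructor
    · rintro ⟨p, hp, rfl⟩
      refine ⟨proj_pos (hUp hp), ?_⟩
      show proj (proj p) ∈ U
      rw [proj_proj (hUp hp)]; exact hp
    · rintro ⟨hq, hq'⟩
      exact ⟨proj q, hq', proj_proj hq⟩
  rw [this]
  exact proj_cont.isOpen_inter_preimage pos_open hU

lemma proj_interior {C : Set (ℂ × ℝ)} (hC : C ⊆ pos) :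
    interior (proj '' C) = proj '' interior C := by
  apply Subset.antisymm
  · intro q hq
    obtain ⟨p, hp, rfl⟩ := interior_subset hq
    have hsub : proj '' C ⊆ pos := by rintro _ ⟨r, hr, rfl⟩; exact proj_pos (hC hr)
    have h1 : IsOpen (proj '' interior (proj '' C)) :=
      proj_open isOpen_interior (interior_subset.trans hsub)
    have h2 : proj '' interior (proj '' C) ⊆ C := by
      rintro _ ⟨r, hr, rfl⟩
      obtain ⟨t, ht, rfl⟩ := interior_subset hr
      rw [proj_proj (hC ht)]; exact ht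
    have h3 : p ∈ interior C := by
      apply interior_maximal h2 h1
      exact ⟨proj p, hq, proj_proj (hC hp)⟩
    exact ⟨p, h3, rfl⟩
  · apply interior_maximal (image_mono interior_subset)
    exact proj_open isOpen_interior (interior_subset.trans hC)

lemma proj_frontier {C : Set (ℂ × ℝ)} (hK : IsCompact C) (hC : C ⊆ pos) :
    frontier (proj '' C) = proj '' frontier C := by
  have hK' : IsCompact (proj '' C) := hK.image_of_continuousOn (proj_cont.mono hC)
  rw [hK'.isClosed.frontier_eq, hK.isClosed.frontier_eq, proj_interior hC]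
  ext q
  constructor
  · rintro ⟨⟨p, hp, rfl⟩, h2⟩
    exact ⟨p, ⟨hp, fun h => h2 ⟨p, h, rfl⟩⟩, rfl⟩
  · rintro ⟨p, ⟨hp, hp'⟩, rfl⟩
    refine ⟨⟨p, hp, rfl⟩, ?_⟩
    rintro ⟨r, hr, he⟩
    rw [proj_inj (hC (interior_subset hr)) (hC hp) he] at hr
    exact hp' hr

/-- coefficients of an affine functional -/
lemma coeff (l : ℂ × ℝ →ᵃ[ℝ] ℝ) (p : ℂ × ℝ) : l p = l.linear (1, 0) * p.1.re +
    l.linear (Complex.I, 0) * p.1.im + l.linear (0, 1) * p.2 + l 0 := by
  rw [aff_decomp l p]
  have h : p = p.1.re • ((1, 0) : ℂ × ℝ) + p.1.im • ((Complex.I, 0) : ℂ × ℝ)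
      + p.2 • ((0, 1) : ℂ × ℝ) := by
    refine Prod.ext ?_ ?_
    · apply Complex.ext <;> simp
    · simp
  have h2 : l.linear p = p.1.re * l.linear (1, 0) + p.1.im * l.linear (Complex.I, 0)
      + p.2 * l.linear (0, 1) := by
    conv_lhs => rw [h]
    rw [map_add, map_add, map_smul, map_smul, map_smul]
    simp only [smul_eq_mul]
  rw [h2]; ring

/-- the transformed functional -/
noncomputable def projF (l : ℂ × ℝ →ᵃ[ℝ] ℝ) : ℂ × ℝ →ᵃ[ℝ] ℝ :=
  AffineMap.mk' (k := ℝ) (fun p : ℂ × ℝ => l 0 * p.1.re + l.linear (Complex.I, 0) * p.1.im +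
    l.linear (0, 1) * p.2 + l.linear (1, 0))
    { toFun := fun p => l 0 * p.1.re + l.linear (Complex.I, 0) * p.1.im + l.linear (0, 1) * p.2
      map_add' := fun p q => by
        simp only [Prod.fst_add, Prod.snd_add, Complex.add_re, Complex.add_im]; ring
      map_smul' := fun t p => by
        simp only [Prod.smul_fst, Prod.smul_snd, Complex.smul_re, Complex.smul_im, smul_eq_mul,
          RingHom.id_apply]; ring } 0 (fun p => by
      simp)

lemma projF_apply (l : ℂ × ℝ →ᵃ[ℝ] ℝ) (p : ℂ × ℝ) : projF l p = l 0 * p.1.re +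
    l.linear (Complex.I, 0) * p.1.im + l.linear (0, 1) * p.2 + l.linear (1, 0) := rfl

lemma projF_proj (l : ℂ × ℝ →ᵃ[ℝ] ℝ) {p : ℂ × ℝ} (hp : p ∈ pos) :
    projF l (proj p) = l p / p.1.re := by
  have h : p.1.re ≠ 0 := ne_of_gt hp
  rw [projF_apply, coeff l p]
  simp only [proj]
  field_simp
  ring

/-- Projective images of polytopes. -/
theorem IsPolytope.proj {V : Type*} [Fintype V] [DecidableEq V] {X : V → ℂ × ℝ}
    {F : Finset (Finset V)} (h : IsPolytope X F) (hX : ∀ v, X v ∈ pos) :
    IsPolytope (proj ∘ X) F := by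
  have hS : ∀ S : Set V, X '' S ⊆ pos := by rintro S _ ⟨v, _, rfl⟩; exact hX v
  have hull_eq : ∀ S : Set V, convexHull ℝ ((Collar.proj ∘ X) '' S)
      = Collar.proj '' convexHull ℝ (X '' S) := by
    intro S
    rw [image_comp, proj_hull (hS S)]
  have vert : ∀ v, (Collar.proj ∘ X) v ∉ convexHull ℝ ((Collar.proj ∘ X) '' {v}ᶜ) := by
    intro v hv
    rw [hull_eq] at hv
    obtain ⟨q, hq, he⟩ := hv
    rw [proj_inj (hull_pos (hS _) hq) (hX v) he] at hq
    exact h.vert v hq
  have hrange : range (Collar.proj ∘ X) = (Collar.proj ∘ X) '' univ := image_univ.symm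
  have hrange' : range X = X '' univ := image_univ.symm
  refine ⟨vert, h.cover, ?_, ?_, ?_, ?_⟩
  · intro f hf
    obtain ⟨l, h1, h2⟩ := h.facet f hf
    refine ⟨projF l, ?_, ?_⟩
    · intro v hv
      show projF l (Collar.proj (X v)) = 0
      rw [projF_proj l (hX v), h1 v hv, zero_div]
    · intro v hv
      show 0 < projF l (Collar.proj (X v))
      rw [projF_proj l (hX v)]
      exact div_pos (h2 v hv) (hX v)
  · intro f hf
    obtain ⟨l, h1, h2⟩ := h.facet f hf
    -- some vertex is not on the facet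
    obtain ⟨s, hs⟩ : ∃ s, s ∉ f := by
      by_contra hc
      push Not at hc
      obtain ⟨p, hp⟩ := h.int
      have h3 : p ∈ frontier (convexHull ℝ (range X)) := by
        rw [h.bdry]
        refine mem_surf.2 ⟨f, hf, ?_⟩
        have : (f : Set V) = univ := eq_univ_of_forall (fun v => by exact_mod_cast hc v)
        rw [this, ← hrange']
        exact interior_subset hp
      exact h3.2 hp
    refine rank_of_card finrank_CR vert (card_of_rank (h.rank f hf)) (projF l) ?_
      (s := Collar.proj (X s)) ?_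
    · intro v hv
      show projF l (Collar.proj (X v)) = 0
      rw [projF_proj l (hX v), h1 v hv, zero_div]
    · rw [projF_proj l (hX s)]
      exact (div_pos (h2 s hs) (hX s)).ne'
  · have hK : IsCompact (convexHull ℝ (range X)) :=
      Set.Finite.isCompact_convexHull ℝ (finite_range X)
    rw [hrange, hull_eq, ← hrange', proj_frontier hK (by rw [hrange']; exact hull_pos (hS _)),
      h.bdry]
    ext q
    rw [mem_surf]
    constructor
    · rintro ⟨p, hp, rfl⟩
      obtain ⟨f, hf, hpf⟩ := mem_surf.1 hp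
      refine ⟨f, hf, ?_⟩
      rw [hull_eq]
      exact ⟨p, hpf, rfl⟩
    · rintro ⟨f, hf, hq⟩
      rw [hull_eq] at hq
      obtain ⟨p, hp, rfl⟩ := hq
      exact ⟨p, mem_surf.2 ⟨f, hf, hp⟩, rfl⟩
  · rw [hrange, hull_eq, proj_interior (hull_pos (hS _)), ← hrange']
    exact h.int.image _

end Pool.Agent.Helper183.Collar
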