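import Pool.Agent.Helper183_Collar.Basic

set_option autoImplicit false

namespace Pool.Agent.Helper183.Collar

open Set Module

section

variable {E : Type*} [AddCommGroup E] [Module ℝ E]

lemma aff_decomp (l : E →ᵃ[ℝ] ℝ) (x : E) : l x = l.linear x + l 0 := by
  have := congrFun (AffineMap.decomp l) x
  simpa using this

lemma aff_comb3 (l : E →ᵃ[ℝ] ℝ) (x y z : E) (a b c : ℝ) (h : a + b + c = 1) :
    l (a • x + b • y + c • z) = a * l x + b * l y + c * l z := by
  rw [aff_decomp l (a • x + b • y + c • z), aff_decomp l x, aff_decomp l y, aff_decomp l z]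
  simp only [map_add, map_smul, smul_eq_mul]
  have : l 0 = (a + b + c) * l 0 := by rw [h, one_mul]
  linarith

lemma mem_convex3 {S : Set E} (hS : Convex ℝ S) {x y z : E} (hx : x ∈ S) (hy : y ∈ S)
    (hz : z ∈ S) {a b c : ℝ} (ha : 0 ≤ a) (hb : 0 ≤ b) (hc : 0 ≤ c) (h : a + b + c = 1) :
    a • x + b • y + c • z ∈ S := by
  have := hS.sum_mem (t := (Finset.univ : Finset (Fin 3))) (w := ![a, b, c]) (z := ![x, y, z])
    (by intro i _; fin_cases i <;> simp [ha, hb, hc])
    (by simp [Fin.sum_univ_three, h])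
    (by intro i _; fin_cases i <;> simp [hx, hy, hz])
  simpa [Fin.sum_univ_three] using this

/-- A planar convex quadrilateral given by its four edge functionals. -/
lemma quad_mem (A B C D p : E) (L fab fbc fcd fda : E →ᵃ[ℝ] ℝ)
    (hLA : L A = 0) (hLB : L B = 0) (hLC : L C = 0) (hLD : L D = 0) (hLp : L p = 0)
    (abA : fab A = 0) (abB : fab B = 0) (abC : 0 < fab C) (abD : 0 < fab D)
    (bcB : fbc B = 0) (bcC : fbc C = 0) (bcA : 0 < fbc A)
    (cdC : fcd C = 0) (cdD : fcd D = 0) (cdA : 0 < fcd A)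
    (daD : fda D = 0) (daA : fda A = 0) (daB : 0 < fda B) (daC : 0 < fda C)
    (inj1 : ∀ x y, L x = L y → fbc x = fbc y → fab x = fab y → x = y)
    (inj2 : ∀ x y, L x = L y → fda x = fda y → fcd x = fcd y → x = y)
    (pab : 0 ≤ fab p) (pbc : 0 ≤ fbc p) (pcd : 0 ≤ fcd p) (pda : 0 ≤ fda p) :
    p ∈ convexHull ℝ ({A, B, C, D} : Set E) := by
  have hcv := convex_convexHull ℝ ({A, B, C, D} : Set E)
  have mA : A ∈ convexHull ℝ ({A, B, C, D} : Set E) := subset_convexHull ℝ _ (by simp)
  have mB : B ∈ convexHull ℝ ({A, B, C, D} : Set E) := subset_convexHull ℝ _ (by simp)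
  have mC : C ∈ convexHull ℝ ({A, B, C, D} : Set E) := subset_convexHull ℝ _ (by simp)
  have mD : D ∈ convexHull ℝ ({A, B, C, D} : Set E) := subset_convexHull ℝ _ (by simp)
  rcases le_total (fab p * fda C - fda p * fab C) 0 with hg | hg
  · set a := fbc p / fbc A with ha
    set c := fab p / fab C with hc
    have ha0 : 0 ≤ a := div_nonneg pbc bcA.le
    have hc0 : 0 ≤ c := div_nonneg pab abC.le
    have e1 : a * fbc A = fbc p := by rw [ha]; field_simp
    have e2 : c * fab C = fab p := by rw [hc]; field_simp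
    have hsum : a + (1 - a - c) + c = 1 := by ring
    have hp : p = a • A + (1 - a - c) • B + c • C := by
      apply inj1
      · rw [aff_comb3 L _ _ _ _ _ _ hsum, hLA, hLB, hLC, hLp]; ring
      · rw [aff_comb3 fbc _ _ _ _ _ _ hsum, bcB, bcC, e1]; ring
      · rw [aff_comb3 fab _ _ _ _ _ _ hsum, abA, abB, e2]; ring
    have e3 : fda p = (1 - a - c) * fda B + c * fda C := by
      rw [hp, aff_comb3 fda _ _ _ _ _ _ hsum, daA]; ring
    have hb0 : 0 ≤ 1 - a - c := by
      rw [e3, ← e2] at hg
      have h1 : (1 - a - c) * (fda B * fab C) ≥ 0 := by nlinarith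
      have h2 : 0 < fda B * fab C := mul_pos daB abC
      by_contra h
      push Not at h
      have := mul_neg_of_neg_of_pos h h2
      linarith
    rw [hp]
    exact mem_convex3 hcv mA mB mC ha0 hb0 hc0 hsum
  · set a := fcd p / fcd A with ha
    set c := fda p / fda C with hc
    have ha0 : 0 ≤ a := div_nonneg pcd cdA.le
    have hc0 : 0 ≤ c := div_nonneg pda daC.le
    have e1 : a * fcd A = fcd p := by rw [ha]; field_simp
    have e2 : c * fda C = fda p := by rw [hc]; field_simp
    have hsum : a + c + (1 - a - c) = 1 := by ring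
    have hp : p = a • A + c • C + (1 - a - c) • D := by
      apply inj2
      · rw [aff_comb3 L _ _ _ _ _ _ hsum, hLA, hLC, hLD, hLp]; ring
      · rw [aff_comb3 fda _ _ _ _ _ _ hsum, daA, daD, e2]; ring
      · rw [aff_comb3 fcd _ _ _ _ _ _ hsum, cdC, cdD, e1]; ring
    have e3 : fab p = c * fab C + (1 - a - c) * fab D := by
      rw [hp, aff_comb3 fab _ _ _ _ _ _ hsum, abA]; ring
    have hb0 : 0 ≤ 1 - a - c := by
      rw [e3, ← e2] at hg
      have h1 : (1 - a - c) * (fab D * fda C) ≥ 0 := by nlinarith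
      have h2 : 0 < fab D * fda C := mul_pos abD daC
      by_contra h
      push Not at h
      have := mul_neg_of_neg_of_pos h h2
      linarith
    rw [hp]
    exact mem_convex3 hcv mA mC mD ha0 hc0 hb0 hsum

end

end Pool.Agent.Helper183.Collar
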