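import Pool.Agent.Helper183_Collar.Torus

set_option autoImplicit false

namespace Pool.Agent.Helper183.Collar

open Set Filter Topology

/-- A compact set meeting every horizontal ray exactly once is a radial graph. -/
theorem radial_graph (K : Set (ℂ × ℝ)) (hK : IsCompact K) (a b : ℝ) (hab : a ≤ b) (c : ℝ → ℂ)
    (hc : Continuous c) (hlev : ∀ p ∈ K, a ≤ p.2 ∧ p.2 ≤ b) (hne : ∀ p ∈ K, p.1 ≠ c p.2)
    (hray : ∀ s, a ≤ s → s ≤ b → ∀ u : Circle, ∃! t : ℝ, 0 < t ∧ (c s + t • (u : ℂ), s) ∈ K) :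
    ∃ g : ℝ × Circle → ℝ, Continuous g ∧ (∀ x, 0 < g x) ∧
      (∀ s, a ≤ s → s ≤ b → ∀ (u : Circle) (t : ℝ), 0 < t →
        ((c s + t • (u : ℂ), s) ∈ K ↔ t = g (s, u))) ∧
      (∀ s u, s ≤ a → g (s, u) = g (a, u)) ∧ (∀ s u, b ≤ s → g (s, u) = g (b, u)) := by
  classical
  let q : K → Icc a b × Circle := fun p => (⟨p.1.2, hlev p.1 p.2⟩, dir (p.1.1 - c p.1.2))
  have hq : Continuous q := by
    apply Continuous.prodMk
    · exact Continuous.subtype_mk (by fun_prop) _
    · rw [continuous_iff_continuousAt]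
      intro p
      have h1 : ContinuousAt (fun p : K => p.1.1 - c p.1.2) p := by
        have : Continuous (fun p : K => p.1.1 - c p.1.2) := by fun_prop
        exact this.continuousAt
      exact ContinuousAt.comp (f := fun p : K => p.1.1 - c p.1.2) (g := dir)
        (continuousAt_dir (sub_ne_zero.2 (hne p.1 p.2))) h1
  have hpt : ∀ p : K, p.1 = (c p.1.2 + ‖p.1.1 - c p.1.2‖ • (dir (p.1.1 - c p.1.2) : ℂ), p.1.2) := by
    intro p
    rw [norm_smul_dir]
    simp
  have hinj : Function.Injective q := by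
    intro p p' h
    have h1 : p.1.2 = p'.1.2 := congrArg Subtype.val (congrArg Prod.fst h)
    have h2 : dir (p.1.1 - c p.1.2) = dir (p'.1.1 - c p'.1.2) := congrArg Prod.snd h
    obtain ⟨t, _, ht⟩ := hray p.1.2 (hlev _ p.2).1 (hlev _ p.2).2 (dir (p.1.1 - c p.1.2))
    have e1 := ht ‖p.1.1 - c p.1.2‖ ⟨norm_pos_iff.2 (sub_ne_zero.2 (hne _ p.2)), by
      have := p.2; rw [hpt p] at this; exact this⟩
    have e2 := ht ‖p'.1.1 - c p'.1.2‖ ⟨norm_pos_iff.2 (sub_ne_zero.2 (hne _ p'.2)), by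
      have := p'.2
      rw [hpt p'] at this
      rw [h2, h1]
      exact this⟩
    apply Subtype.ext
    rw [hpt p, hpt p', h2, e1, ← e2, h1]
  have hsurj : Function.Surjective q := by
    rintro ⟨⟨s, hs⟩, u⟩
    obtain ⟨t, ⟨ht, hm⟩, _⟩ := hray s hs.1 hs.2 u
    refine ⟨⟨_, hm⟩, ?_⟩
    apply Prod.ext
    · rfl
    · show dir (c s + t • (u : ℂ) - c s) = u
      rw [add_sub_cancel_left, dir_smul u ht]
  have : CompactSpace K := isCompact_iff_compactSpace.1 hK
  let e : K ≃ₜ (Icc a b × Circle) :=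
    Continuous.homeoOfEquivCompactToT2 (f := Equiv.ofBijective q ⟨hinj, hsurj⟩) hq
  let g0 : Icc a b × Circle → ℝ := fun x => ‖(e.symm x).1.1 - c (e.symm x).1.2‖
  have hg0 : Continuous g0 := by
    simp only [g0]
    have h1 : Continuous (fun x => ((e.symm x : K) : ℂ × ℝ)) :=
      continuous_subtype_val.comp e.symm.continuous
    fun_prop
  refine ⟨fun x => g0 (projIcc a b hab x.1, x.2), ?_, ?_, ?_, ?_, ?_⟩
  · apply hg0.comp
    exact (continuous_projIcc.comp continuous_fst).prodMk continuous_snd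
  · intro x
    simp only [g0]
    exact norm_pos_iff.2 (sub_ne_zero.2 (hne _ (e.symm _).2))
  · intro s hs1 hs2 u t ht
    have hproj : projIcc a b hab s = ⟨s, hs1, hs2⟩ := projIcc_of_mem hab ⟨hs1, hs2⟩
    simp only []
    rw [hproj]
    constructor
    · intro hm
      have : e ⟨_, hm⟩ = (⟨s, hs1, hs2⟩, u) := by
        show q ⟨_, hm⟩ = _
        apply Prod.ext
        · rfl
        · show dir (c s + t • (u : ℂ) - c s) = u
          rw [add_sub_cancel_left, dir_smul u ht]
      have h2 : e.symm (⟨s, hs1, hs2⟩, u) = ⟨_, hm⟩ := by rw [← this]; simp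
      simp only [g0]
      rw [h2]
      simp only [add_sub_cancel_left]
      rw [norm_smul_circle _ ht.le]
    · intro h
      set k := e.symm (⟨s, hs1, hs2⟩, u) with hk
      have hek : e k = (⟨s, hs1, hs2⟩, u) := by rw [hk]; simp
      have h1 : k.1.2 = s := congrArg Subtype.val (congrArg Prod.fst hek)
      have h2 : dir (k.1.1 - c k.1.2) = u := congrArg Prod.snd hek
      have h3 := hpt k
      have h4 : t = ‖k.1.1 - c k.1.2‖ := h
      rw [h2, ← h4, h1] at h3
      rw [← h3]
      exact k.2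
  · intro s u hs
    simp only []
    rw [projIcc_of_le_left hab hs, projIcc_left]
  · intro s u hs
    simp only []
    rw [projIcc_of_right_le hab hs, projIcc_right]

end Pool.Agent.Helper183.Collar
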