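import Pool.Agent.Helper183_Collar.BarTunnel
import Pool.Agent.Helper183_Collar.Moves

set_option autoImplicit false

namespace Pool.Agent.Helper183.Collar

open Set Filter Topology Module

section raw

variable (k : ℕ → Fin 3) (u : ℕ → Fin 3 → ℂ) (r : ℕ) (om : ℕ → ℝ) (G κ0 κr : ℝ)

/-- displacement of a move -/
def Wv (i : ℕ) : ℂ := u (i + 1) (k i) - u i (k i)

/-- velocity of a bar at its reference vertex -/
noncomputable def Vv (i : ℕ) : ℂ := -∑ j ∈ Finset.range i, om j • Wv k u j

/-- accumulated offset -/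
noncomputable def off (i : ℕ) : ℂ := G • ∑ j ∈ Finset.range i, Vv k u om (j + 1)

/-- cone parameter -/
def bet (i : ℕ) : ℝ := if i = 0 then κ0 else if i = r then κr else 0

/-- velocity of the centre -/
noncomputable def barv (i : ℕ) : ℂ := Vv k u om i - bet r κ0 κr i • u i (k (i - 1))

/-- the bars -/
noncomputable def rbar (i : ℕ) : Bar where
  u := u i
  v := barv k u r om κ0 κr i
  o := off k u om G (i - 1) - (((i - 1 : ℕ) : ℝ) * G) • barv k u r om κ0 κr i
  α := 1 - bet r κ0 κr i * (((i - 1 : ℕ) : ℝ) * G)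
  β := bet r κ0 κr i

lemma Vv_zero : Vv k u om 0 = 0 := by simp [Vv]

lemma Vv_succ (i : ℕ) : Vv k u om (i + 1) = Vv k u om i - om i • Wv k u i := by
  simp only [Vv, Finset.sum_range_succ]; ring

lemma off_zero : off k u om G 0 = 0 := by simp [off]

lemma off_succ (i : ℕ) : off k u om G (i + 1) = off k u om G i + G • Vv k u om (i + 1) := by
  simp only [off, Finset.sum_range_succ, smul_add]

lemma rbar_vel (i : ℕ) (j : Fin 3) : (rbar k u r om G κ0 κr i).vel j
    = Vv k u om i + bet r κ0 κr i • (u i j - u i (k (i - 1))) := by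
  simp only [rbar, Bar.vel, barv]; module

lemma rbar_σ (i : ℕ) (t : ℝ) : (rbar k u r om G κ0 κr i).σ t
    = 1 + bet r κ0 κr i * (t - ((i - 1 : ℕ) : ℝ) * G) := by
  simp only [rbar, Bar.σ]; ring

lemma rbar_P (i : ℕ) (j : Fin 3) (t : ℝ) : (rbar k u r om G κ0 κr i).P j t
    = off k u om G (i - 1) + u i j + (t - ((i - 1 : ℕ) : ℝ) * G) •
      (Vv k u om i + bet r κ0 κr i • (u i j - u i (k (i - 1)))) := by
  simp only [Bar.P]
  rw [rbar_σ]
  simp only [rbar, barv]
  module

lemma rbar_P_hi (i : ℕ) (j : Fin 3) (t : ℝ) : (rbar k u r om G κ0 κr (i + 1)).P j (i * G + t)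
    = off k u om G i + u (i + 1) j + t • (rbar k u r om G κ0 κr (i + 1)).vel j := by
  rw [rbar_P, rbar_vel]
  simp only [Nat.add_sub_cancel]
  have : (i * G + t - i * G : ℝ) = t := by ring
  rw [this]

lemma rbar_P_lo {i : ℕ} (hi : i < r) (j : Fin 3) (t : ℝ) :
    (rbar k u r om G κ0 κr i).P j (i * G + t)
    = off k u om G i + u i j + t • (rbar k u r om G κ0 κr i).vel j := by
  cases i with
  | zero =>
    rw [rbar_P, rbar_vel]
    simp [off_zero]
  | succ i =>
    have hb : bet r κ0 κr (i + 1) = 0 := by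
      unfold bet
      rw [if_neg (by omega), if_neg (by omega)]
    rw [rbar_P, rbar_vel, hb, off_succ]
    simp only [Nat.add_sub_cancel]
    push_cast
    module

lemma vel_ref {i : ℕ} (hi : i < r) : (rbar k u r om G κ0 κr i).vel (k i) = Vv k u om i := by
  rw [rbar_vel]
  cases i with
  | zero => simp
  | succ i =>
    have hb : bet r κ0 κr (i + 1) = 0 := by
      unfold bet
      rw [if_neg (by omega), if_neg (by omega)]
    rw [hb]; simp

lemma vel_ref' (i : ℕ) :
    (rbar k u r om G κ0 κr (i + 1)).vel (k i) = Vv k u om (i + 1) := by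
  rw [rbar_vel]; simp

end raw

section build

variable {k : ℕ → Fin 3} {u : ℕ → Fin 3 → ℂ} {r : ℕ} {om : ℕ → ℝ} {G κ0 κr bot top : ℝ}

/-- The conditions under which the raw data form a chain of bars. -/
structure Ready (k : ℕ → Fin 3) (u : ℕ → Fin 3 → ℂ) (r : ℕ) (om : ℕ → ℝ)
    (G κ0 κr bot top : ℝ) : Prop where
  r2 : 2 ≤ r
  step : ∀ i < r, Step (k i) (u i) (u (i + 1))
  om0 : ∀ i < r, om i ≠ 0
  hG : ∀ i < r, |(om i)⁻¹| < G / 2
  c0 : 0 < 1 + κ0 * (om 0)⁻¹
  cr : 0 < 1 + κr * (om (r - 1))⁻¹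
  bb : 0 < 1 + κ0 * bot
  tt : 0 < 1 + κr * (top - ((r - 1 : ℕ) : ℝ) * G)
  lb : bot < -(G / 2)
  lt : ((r - 1 : ℕ) : ℝ) * G + G / 2 < top
  nc : ∀ i < r, ∀ j, dt (edge (u i) j) ((rbar k u r om G κ0 κr (i + 1)).vel (j + 1) -
    (rbar k u r om G κ0 κr i).vel (j + 1)) ≠ 0

lemma Ready.bet_mid (i : ℕ) (h0 : i ≠ 0) (hr : i ≠ r) : bet r κ0 κr i = 0 := by
  unfold bet
  rw [if_neg h0, if_neg hr]

/-- The chain of bars. -/
noncomputable def Ready.chain (R : Ready k u r om G κ0 κr bot top) : BarChain r where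
  bar := rbar k u r om G κ0 κr
  k := k
  s := fun i => i * G
  h := fun i => (om i)⁻¹
  bot := bot
  top := top
  n1 := by have := R.r2; omega
  apos i hi := by
    show 0 < area (u i)
    rcases hi.eq_or_lt with h | h
    · have h2 := R.r2
      obtain ⟨i', rfl⟩ : ∃ i', i = i' + 1 := ⟨i - 1, by omega⟩
      exact (R.step i' (by omega)).pv
    · exact (R.step i h).pu
  base i hi j hj := by
    have e1 := rbar_P_hi k u r om G κ0 κr i j 0
    have e2 := rbar_P_lo k u r om G κ0 κr hi j 0
    rw [add_zero, zero_smul, add_zero] at e1 e2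
    rw [e1, e2, (R.step i hi).fix j hj]
  tip i hi := by
    rw [rbar_P_hi, rbar_P_lo k u r om G κ0 κr hi, vel_ref', vel_ref k u r om G κ0 κr hi, Vv_succ,
      smul_sub, smul_smul, inv_mul_cancel₀ (R.om0 i hi), one_smul, Wv]
    ring
  σlo i hi := by
    have hr := R.r2
    constructor
    · rw [rbar_σ]
      rcases Nat.eq_zero_or_pos i with h | h
      · subst h; simp
      · rw [Ready.bet_mid i (by omega) (by omega)]; simp
    · rw [rbar_σ]
      rcases Nat.eq_zero_or_pos i with h | h
      · subst h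
        have : bet r κ0 κr 0 = κ0 := by simp [bet]
        rw [this]
        have := R.c0
        simpa using this
      · rw [Ready.bet_mid i (by omega) (by omega)]; simp
  σhi i hi := by
    have hr := R.r2
    constructor
    · rw [rbar_σ]
      simp
    · rw [rbar_σ]
      by_cases h : i + 1 = r
      · have h1 : bet r κ0 κr (i + 1) = κr := by
          unfold bet
          rw [if_neg (by omega), if_pos h]
        have h2 := R.cr
        have h3 : r - 1 = i := by omega
        rw [h3] at h2
        rw [h1]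
        simp only [Nat.add_sub_cancel]
        have : (i * G + (om i)⁻¹ - i * G : ℝ) = (om i)⁻¹ := by ring
        rw [this]; exact h2
      · rw [Ready.bet_mid (i + 1) (by omega) h]; simp
  σbot := by
    rw [rbar_σ]
    have : bet r κ0 κr 0 = κ0 := by simp [bet]
    rw [this]
    have := R.bb
    simpa using this
  σtop := by
    rw [rbar_σ]
    have hr := R.r2
    have : bet r κ0 κr r = κr := by
      unfold bet
      rw [if_neg (by omega), if_pos rfl]
    rw [this]
    exact R.tt
  lbot := by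
    have hr := R.r2
    have h1 := R.hG 0 (by omega)
    have h2 := R.lb
    rw [abs_lt] at h1
    simp only [Nat.cast_zero, zero_mul, zero_add, lt_min_iff]
    constructor <;> linarith
  lmid i hi := by
    have h1 := R.hG i (by omega)
    have h2 := R.hG (i + 1) (by omega)
    rw [abs_lt] at h1 h2
    simp only [max_lt_iff, lt_min_iff]
    push_cast
    refine ⟨⟨?_, ?_⟩, ⟨?_, ?_⟩⟩ <;> linarith
  ltop i hi := by
    have h1 := R.hG i (by omega)
    have h2 := R.lt
    have h3 : r - 1 = i := by omega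
    rw [h3] at h2
    rw [abs_lt] at h1
    simp only [max_lt_iff]
    constructor <;> linarith
  apex i hi := (R.step i hi).apex
  ncop i hi j := R.nc i hi j

lemma Ready.w_bot (R : Ready k u r om G κ0 κr bot top) (j : Fin 3) :
    R.chain.w 0 j = (u 0 j + (bot * κ0) • (u 0 j - u 0 (k 0)), bot) := by
  show ((rbar k u r om G κ0 κr 0).P j bot, bot) = _
  rw [rbar_P]
  have : bet r κ0 κr 0 = κ0 := by simp [bet]
  rw [this]
  simp only [Nat.zero_sub, Nat.cast_zero, zero_mul, sub_zero, off_zero, Vv_zero, zero_add,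
    smul_smul]

lemma Ready.w_top (R : Ready k u r om G κ0 κr bot top) (j : Fin 3) :
    R.chain.w (r + 1) j = (off k u om G (r - 1) + u r j + (top - ((r - 1 : ℕ) : ℝ) * G) •
      (Vv k u om r + κr • (u r j - u r (k (r - 1)))), top) := by
  have hr := R.r2
  have h1 : R.chain.lv (r + 1) j = top := by
    simp only [BarChain.lv, lt_irrefl, if_false]
    rfl
  rw [BarChain.w_hi, h1]
  show ((rbar k u r om G κ0 κr r).P j top, top) = _
  rw [rbar_P]
  have : bet r κ0 κr r = κr := by
    unfold bet
    rw [if_neg (by omega), if_pos rfl]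
  rw [this]

lemma Ready.w_mid (R : Ready k u r om G κ0 κr bot top) {i : ℕ} (hi : i < r) (j : Fin 3) :
    R.chain.w (i + 1) j = (off k u om G i + u i j +
      (if j = k i then (om i)⁻¹ • Vv k u om i else 0),
      (i : ℝ) * G + if j = k i then (om i)⁻¹ else 0) := by
  have h1 : R.chain.lv (i + 1) j = (i : ℝ) * G + if j = k i then (om i)⁻¹ else 0 := by
    simp only [BarChain.lv, if_pos hi]
    show (if j = k i then (i : ℝ) * G + (om i)⁻¹ else (i : ℝ) * G) = _
    split_ifs <;> simp
  rw [BarChain.w_hi, h1]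
  refine Prod.ext ?_ rfl
  show (rbar k u r om G κ0 κr i).P j _ = _
  rw [rbar_P_lo k u r om G κ0 κr hi]
  split_ifs with h
  · subst h; rw [vel_ref k u r om G κ0 κr hi]
  · simp

end build

end Pool.Agent.Helper183.Collar
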