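import Pool.Agent.Helper183_Collar.Transfer

set_option autoImplicit false

namespace Pool.Agent.Helper183.Collar

open Set Filter Topology Module

/-- The round torus in Euclidean space. -/
def roundTorus3 : Set E3 := {p | (Real.sqrt (p 0 ^ 2 + p 1 ^ 2) - 2) ^ 2 + p 2 ^ 2 = 1}

/-- Identification of `ℂ × ℝ` with Euclidean space. -/
noncomputable def toE3L : (ℂ × ℝ) ≃ₗ[ℝ] E3 where
  toFun p := !₂[p.1.re, p.1.im, p.2]
  map_add' p q := by
    ext i; fin_cases i <;> simp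
  map_smul' c p := by
    ext i; fin_cases i <;> simp
  invFun q := (⟨q 0, q 1⟩, q 2)
  left_inv p := by simp
  right_inv q := by
    ext i; fin_cases i <;> simp

/-- The same as an affine equivalence. -/
noncomputable def toE3 : (ℂ × ℝ) ≃ᵃ[ℝ] E3 := toE3L.toAffineEquiv

lemma toE3_apply (p : ℂ × ℝ) : toE3 p = !₂[p.1.re, p.1.im, p.2] := rfl

lemma toE3_torus : toE3 '' roundTorus = roundTorus3 := by
  ext q
  constructor
  · rintro ⟨p, hp, rfl⟩
    have hp : (‖p.1‖ - 2) ^ 2 + p.2 ^ 2 = 1 := hp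
    show (Real.sqrt ((toE3 p) 0 ^ 2 + (toE3 p) 1 ^ 2) - 2) ^ 2 + (toE3 p) 2 ^ 2 = 1
    rw [toE3_apply]
    simpa [Complex.norm_eq_sqrt_sq_add_sq] using hp
  · intro hq
    have hq : (Real.sqrt (q 0 ^ 2 + q 1 ^ 2) - 2) ^ 2 + q 2 ^ 2 = 1 := hq
    refine ⟨toE3.symm q, ?_, toE3.apply_symm_apply q⟩
    show (‖(toE3.symm q).1‖ - 2) ^ 2 + (toE3.symm q).2 ^ 2 = 1
    have : toE3.symm q = (⟨q 0, q 1⟩, q 2) := rfl
    rw [this, Complex.norm_eq_sqrt_sq_add_sq]
    exact hq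

/-- The round torus is a product of two circles. -/
lemma torus_homeo : Nonempty (roundTorus ≃ₜ (Circle × Circle)) := by
  have hre : ∀ v : Circle, -1 ≤ (v : ℂ).re := by
    intro v
    have h1 := Complex.abs_re_le_norm (v : ℂ)
    rw [Circle.norm_coe] at h1
    exact (abs_le.1 h1).1
  have hn : ∀ (u v : Circle), ‖(2 + (v : ℂ).re) • (u : ℂ)‖ = 2 + (v : ℂ).re := by
    intro u v
    rw [norm_smul, Circle.norm_coe, mul_one, Real.norm_of_nonneg]
    linarith [hre v]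
  have hsq : ∀ v : Circle, (v : ℂ).re ^ 2 + (v : ℂ).im ^ 2 = 1 := by
    intro v
    have h1 := Circle.normSq_coe v
    rw [Complex.normSq_apply] at h1
    linarith
  let f : Circle × Circle → roundTorus := fun p =>
    ⟨((2 + (p.2 : ℂ).re) • (p.1 : ℂ), (p.2 : ℂ).im), by
      show (‖(2 + (p.2 : ℂ).re) • (p.1 : ℂ)‖ - 2) ^ 2 + (p.2 : ℂ).im ^ 2 = 1
      rw [hn]
      have := hsq p.2
      linarith⟩
  have hf : Continuous f := by
    apply Continuous.subtype_mk
    fun_prop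
  have hinj : Function.Injective f := by
    rintro ⟨u, v⟩ ⟨u', v'⟩ h
    have h := congrArg Subtype.val h
    have h1 : (2 + (v : ℂ).re) • (u : ℂ) = (2 + (v' : ℂ).re) • (u' : ℂ) := congrArg Prod.fst h
    have h2 : (v : ℂ).im = (v' : ℂ).im := congrArg Prod.snd h
    have h3 : (v : ℂ).re = (v' : ℂ).re := by
      have := congrArg norm h1
      rw [hn, hn] at this
      linarith
    have h4 : v = v' := Circle.ext (Complex.ext h3 h2)
    subst h4
    have h5 : (2 + (v : ℂ).re) ≠ 0 := by linarith [hre v]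
    have h6 : (u : ℂ) = u' := smul_right_injective ℂ h5 h1
    rw [Circle.ext h6]
  have hsurj : Function.Surjective f := by
    rintro ⟨⟨z, t⟩, hp⟩
    have hp' : (‖z‖ - 2) ^ 2 + t ^ 2 = 1 := hp
    have hz : 0 < ‖z‖ := by nlinarith [norm_nonneg z, sq_nonneg t]
    have hv : (⟨‖z‖ - 2, t⟩ : ℂ) ∈ Submonoid.unitSphere ℂ := by
      rw [Submonoid.unitSphere]
      show (⟨‖z‖ - 2, t⟩ : ℂ) ∈ Metric.sphere 0 1
      rw [mem_sphere_zero_iff_norm, Complex.norm_eq_sqrt_sq_add_sq]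
      rw [hp', Real.sqrt_one]
    refine ⟨(dir z, ⟨⟨‖z‖ - 2, t⟩, hv⟩), ?_⟩
    apply Subtype.ext
    refine Prod.ext ?_ rfl
    show (2 + (‖z‖ - 2)) • (dir z : ℂ) = z
    have : (2 + (‖z‖ - 2)) = ‖z‖ := by ring
    rw [this, norm_smul_dir]
  have hT2 : T2Space roundTorus := inferInstance
  exact ⟨(Continuous.homeoOfEquivCompactToT2 (f := Equiv.ofBijective f ⟨hinj, hsurj⟩) hf).symm⟩

end Pool.Agent.Helper183.Collar
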