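import Pool.Agent.Helper183_Collar.Polar

set_option autoImplicit false

namespace Pool.Agent.Helper183.Collar

open Set Filter Topology

/-- Half of the bump. -/
noncomputable def psip (a r : ℝ) : ℝ := max 0 (min (r / a) ((2 - r) / (2 - a)))

noncomputable def psi (a τ : ℝ) : ℝ := psip a τ - psip a (-τ)

noncomputable def Phi (a b τ : ℝ) : ℝ := τ + (b - a) * psi a τ

lemma psip_nonneg (a r : ℝ) : 0 ≤ psip a r := le_max_left _ _

lemma psip_le_one {a : ℝ} (ha : 0 ≤ a) (ha2 : a < 2) (r : ℝ) : psip a r ≤ 1 := by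
  unfold psip
  apply max_le zero_le_one
  rcases ha.eq_or_lt with h | h
  · subst h; simp
  rcases le_total r a with h' | h'
  · exact (min_le_left _ _).trans (by rw [div_le_one h]; exact h')
  · refine (min_le_right _ _).trans ?_
    rw [div_le_one (by linarith)]; linarith

lemma psip_of_nonpos {a r : ℝ} (ha : 0 ≤ a) (hr : r ≤ 0) : psip a r = 0 := by
  unfold psip
  apply max_eq_left
  exact (min_le_left _ _).trans (div_nonpos_of_nonpos_of_nonneg hr ha)

lemma psi_of_nonneg {a τ : ℝ} (ha : 0 ≤ a) (hτ : 0 ≤ τ) : psi a τ = psip a τ := by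
  unfold psi; rw [psip_of_nonpos ha (by linarith : -τ ≤ 0), sub_zero]

lemma psi_neg (a τ : ℝ) : psi a (-τ) = -psi a τ := by
  unfold psi; rw [neg_neg]; ring

lemma abs_psi_le {a : ℝ} (ha : 0 ≤ a) (ha2 : a < 2) (τ : ℝ) : |psi a τ| ≤ 1 := by
  have key : ∀ τ, 0 ≤ τ → |psi a τ| ≤ 1 := by
    intro τ hτ
    rw [psi_of_nonneg ha hτ, abs_of_nonneg (psip_nonneg _ _)]
    exact psip_le_one ha ha2 τ
  rcases le_total 0 τ with h | h
  · exact key τ h
  · have := key (-τ) (by linarith)
    rwa [psi_neg, abs_neg] at this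

lemma psip_low {a τ : ℝ} (ha : 0 < a) (ha2 : a < 2) (h0 : 0 ≤ τ) (h : τ ≤ a) :
    psip a τ = τ / a := by
  unfold psip
  rw [min_eq_left, max_eq_right (div_nonneg h0 ha.le)]
  have h1 : τ / a ≤ 1 := by rw [div_le_one ha]; exact h
  have h2 : 1 ≤ (2 - τ) / (2 - a) := by rw [one_le_div (by linarith)]; linarith
  linarith

lemma psip_mid {a τ : ℝ} (ha : 0 < a) (ha2 : a < 2) (h : a ≤ τ) (h2 : τ ≤ 2) :
    psip a τ = (2 - τ) / (2 - a) := by
  unfold psip
  rw [min_eq_right, max_eq_right (div_nonneg (by linarith) (by linarith))]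
  have h1 : 1 ≤ τ / a := by rw [one_le_div ha]; exact h
  have h2 : (2 - τ) / (2 - a) ≤ 1 := by rw [div_le_one (by linarith)]; linarith
  linarith

lemma psip_high {a τ : ℝ} (ha2 : a < 2) (h2 : 2 ≤ τ) :
    psip a τ = 0 := by
  unfold psip
  apply max_eq_left
  exact (min_le_right _ _).trans (div_nonpos_of_nonpos_of_nonneg (by linarith) (by linarith))

lemma Phi_low {a b τ : ℝ} (ha : 0 < a) (ha2 : a < 2) (h0 : 0 ≤ τ) (h : τ ≤ a) :
    Phi a b τ = τ * b / a := by
  unfold Phi
  rw [psi_of_nonneg ha.le h0, psip_low ha ha2 h0 h]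
  field_simp
  ring

lemma Phi_mid {a b τ : ℝ} (ha : 0 < a) (ha2 : a < 2) (h : a ≤ τ) (h2 : τ ≤ 2) :
    2 - Phi a b τ = (2 - τ) * (2 - b) / (2 - a) := by
  unfold Phi
  rw [psi_of_nonneg ha.le (ha.le.trans h), psip_mid ha ha2 h h2]
  have : 2 - a ≠ 0 := by linarith
  field_simp
  ring

lemma Phi_high {a b τ : ℝ} (ha : 0 ≤ a) (ha2 : a < 2) (h2 : 2 ≤ τ) : Phi a b τ = τ := by
  unfold Phi
  rw [psi_of_nonneg ha (by linarith), psip_high ha2 h2]
  ring

lemma Phi_neg (a b τ : ℝ) : Phi a b (-τ) = -Phi a b τ := by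
  unfold Phi; rw [psi_neg]; ring

lemma Phi_inv_nonneg {a b τ : ℝ} (ha : 0 < a) (ha2 : a < 2) (hb : 0 < b) (hb2 : b < 2)
    (h0 : 0 ≤ τ) : Phi b a (Phi a b τ) = τ := by
  rcases le_total τ a with h | h
  · have e := Phi_low (b := b) ha ha2 h0 h
    have h1 : 0 ≤ Phi a b τ := by rw [e]; positivity
    have h2 : Phi a b τ ≤ b := by
      rw [e, div_le_iff₀ ha]; nlinarith
    rw [Phi_low hb hb2 h1 h2, e]
    field_simp
  rcases le_total τ 2 with h' | h'
  · have e := Phi_mid (b := b) ha ha2 h h'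
    have h1 : 0 ≤ 2 - Phi a b τ := by
      rw [e]
      exact div_nonneg (mul_nonneg (by linarith) (by linarith)) (by linarith)
    have h2 : 2 - Phi a b τ ≤ 2 - b := by
      rw [e, div_le_iff₀ (by linarith)]
      nlinarith
    have e2 := Phi_mid (a := b) (b := a) (τ := Phi a b τ) hb hb2 (by linarith) (by linarith)
    rw [e] at e2
    have h3 : 2 - a ≠ 0 := by linarith
    have h4 : 2 - b ≠ 0 := by linarith
    have h5 : (2 - τ) * (2 - b) / (2 - a) * (2 - a) / (2 - b) = 2 - τ := by
      field_simp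
    rw [h5] at e2
    linarith
  · rw [Phi_high ha.le ha2 h', Phi_high hb.le hb2 h']

lemma Phi_inv {a b : ℝ} (ha : 0 ≤ a) (ha2 : a < 2) (hb : 0 ≤ b) (hb2 : b < 2)
    (hab : a = 0 ↔ b = 0) (τ : ℝ) : Phi b a (Phi a b τ) = τ := by
  rcases ha.eq_or_lt with h | h
  · have hb0 : b = 0 := hab.1 h.symm
    subst hb0
    rw [← h]
    simp [Phi]
  have hb' : 0 < b := by
    rcases hb.eq_or_lt with h' | h'
    · have := hab.2 h'.symm; linarith
    · exact h'
  rcases le_total 0 τ with h0 | h0
  · exact Phi_inv_nonneg h ha2 hb' hb2 h0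
  · have := Phi_inv_nonneg h ha2 hb' hb2 (τ := -τ) (by linarith)
    rw [Phi_neg, Phi_neg] at this
    linarith

lemma Phi_gt {a b : ℝ} (ha : 0 ≤ a) (ha2 : a < 2) (hb : 0 ≤ b) (hb2 : b < 2)
    (hab : a = 0 ↔ b = 0) {τ : ℝ} (hτ : -2 < τ) : -2 < Phi a b τ := by
  rcases ha.eq_or_lt with h | h
  · have hb0 : b = 0 := hab.1 h.symm
    subst hb0
    rw [← h]
    simpa [Phi] using hτ
  rcases le_total 0 τ with h0 | h0
  · rcases le_total τ a with h1 | h1
    · rw [Phi_low h ha2 h0 h1]
      have : 0 ≤ τ * b / a := by positivity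
      linarith
    rcases le_total τ 2 with h2 | h2
    · have e := Phi_mid (b := b) h ha2 h1 h2
      have : (2 - τ) * (2 - b) / (2 - a) < 4 := by
        rw [div_lt_iff₀ (by linarith)]
        nlinarith
      linarith
    · rw [Phi_high ha ha2 h2]; linarith
  · have e : Phi a b τ = -Phi a b (-τ) := by rw [Phi_neg, neg_neg]
    rw [e]
    rcases le_total (-τ) a with h1 | h1
    · rw [Phi_low h ha2 (by linarith) h1]
      have : -τ * b / a < 2 := by
        rw [div_lt_iff₀ h]
        nlinarith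
      linarith
    · have e := Phi_mid (b := b) h ha2 h1 (by linarith)
      have : 0 < (2 - -τ) * (2 - b) / (2 - a) :=
        div_pos (mul_pos (by linarith) (by linarith)) (by linarith)
      linarith

lemma Phi_self {a b : ℝ} (ha : 0 ≤ a) (ha2 : a < 2) (hab : a = 0 ↔ b = 0) :
    Phi a b a = b := by
  rcases ha.eq_or_lt with h | h
  · have hb0 : b = 0 := hab.1 h.symm
    subst hb0
    rw [← h]
    simp [Phi]
  · rw [Phi_low h ha2 h.le le_rfl]
    field_simp

lemma Phi_two {a b : ℝ} (ha : 0 ≤ a) (ha2 : a < 2) : Phi a b (-2) = -2 := by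
  rw [Phi_neg, Phi_high ha ha2 le_rfl]

/-- Joint continuity. -/
lemma continuous_Phi {X : Type*} [TopologicalSpace X] (W w t : X → ℝ)
    (hW : Continuous W) (hw : Continuous w) (ht : Continuous t)
    (W0 : ∀ x, 0 ≤ W x) (W2 : ∀ x, W x < 2) (hWw : ∀ x, W x = 0 ↔ w x = 0) :
    Continuous (fun x => Phi (W x) (w x) (t x)) := by
  rw [continuous_iff_continuousAt]
  intro x
  by_cases hx : W x = 0
  · have hwx := (hWw x).1 hx
    have hval : Phi (W x) (w x) (t x) = t x := by rw [hx, hwx]; simp [Phi]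
    have hd : Tendsto (fun y => Phi (W y) (w y) (t y) - t y) (𝓝 x) (𝓝 0) := by
      have h1 : Tendsto (fun y => |w y - W y|) (𝓝 x) (𝓝 0) := by
        have : Continuous (fun y => |w y - W y|) := by fun_prop
        have := this.tendsto x
        simpa [hx, hwx] using this
      refine squeeze_zero_norm (fun y => ?_) h1
      have : Phi (W y) (w y) (t y) - t y = (w y - W y) * psi (W y) (t y) := by
        unfold Phi; ring
      rw [this, Real.norm_eq_abs, abs_mul]
      have h2 := abs_psi_le (W0 y) (W2 y) (t y)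
      have h3 := abs_nonneg (w y - W y)
      nlinarith
    have h4 := hd.add (ht.tendsto x)
    simp only [sub_add_cancel, zero_add] at h4
    show Tendsto _ _ (𝓝 (Phi (W x) (w x) (t x)))
    rw [hval]
    exact h4
  · have hpos : 0 < W x := lt_of_le_of_ne (W0 x) (Ne.symm hx)
    have h2 : 2 - W x ≠ 0 := by have := W2 x; linarith
    have hp : ∀ r : X → ℝ, Continuous r → ContinuousAt (fun y => psip (W y) (r y)) x := by
      intro r hr
      unfold psip
      have c1 : ContinuousAt (fun y => r y / W y) x := hr.continuousAt.div hW.continuousAt hx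
      have c2 : ContinuousAt (fun y => (2 - r y) / (2 - W y)) x :=
        (by fun_prop : ContinuousAt (fun y => 2 - r y) x).div
          (by fun_prop : ContinuousAt (fun y => 2 - W y) x) h2
      exact continuousAt_const.max (c1.min c2)
    unfold Phi psi
    have c1 := hp t ht
    have c2 := hp (fun y => - t y) (by fun_prop)
    exact ht.continuousAt.add
      ((hw.continuousAt.sub hW.continuousAt).mul (c1.sub c2))

section

variable (a b : ℝ) (hab : a < b) (gi go : ℝ × Circle → ℝ)

/-- The surface between two radial graphs. -/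
def pillow (a b : ℝ) (gi go : ℝ × Circle → ℝ) : Set (ℂ × ℝ) :=
  {p | ∃ (s : ℝ) (u : Circle), a ≤ s ∧ s ≤ b ∧
    (p = (gi (s, u) • (u : ℂ), s) ∨ p = (go (s, u) • (u : ℂ), s))}

/-- The round torus in the coordinates `ℂ × ℝ`. -/
def roundTorus : Set (ℂ × ℝ) := {p | (‖p.1‖ - 2) ^ 2 + p.2 ^ 2 = 1}

theorem pillow_unknotted (ci : Continuous gi) (co : Continuous go) (hab : a < b)
    (pi : ∀ x, 0 < gi x) (hlt : ∀ s u, a < s → s < b → gi (s, u) < go (s, u))
    (heq : ∀ s u, (s ≤ a ∨ b ≤ s) → gi (s, u) = go (s, u)) :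
    ∃ H : (ℂ × ℝ) ≃ₜ (ℂ × ℝ), H '' pillow a b gi go = roundTorus := by
  have hle : ∀ x, gi x ≤ go x := by
    rintro ⟨s, u⟩
    by_cases h1 : a < s
    · by_cases h2 : s < b
      · exact (hlt s u h1 h2).le
      · exact (heq s u (Or.inr (not_lt.1 h2))).le
    · exact (heq s u (Or.inl (not_lt.1 h1))).le
  have po : ∀ x, 0 < go x := fun x => (pi x).trans_le (hle x)
  have ps : ∀ x, 0 < gi x + go x := fun x => add_pos (pi x) (po x)
  -- step 1 : linear rescaling
  let κ : ℝ × Circle → ℝ := fun x => 4 / (gi x + go x)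
  have hκ : Continuous κ := continuous_const.div (ci.add co) (fun x => (ps x).ne')
  have κpos : ∀ x, 0 < κ x := fun x => div_pos (by norm_num) (ps x)
  let κ' : ℝ × Circle → ℝ := fun x => (gi x + go x) / 4
  have hκ' : Continuous κ' := by fun_prop
  have κpos' : ∀ x, 0 < κ' x := fun x => div_pos (ps x) (by norm_num)
  have κκ : ∀ x, κ' x * κ x = 1 := by
    intro x
    have := (ps x).ne'
    simp only [κ, κ']; field_simp
  let H1 := polarHomeo (fun x => κ (x.1, x.2.1) * x.2.2) (fun x => κ' (x.1, x.2.1) * x.2.2)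
    (by fun_prop) (by fun_prop) (by intro s u; simp) (by intro s u; simp)
    (by intro s u t ht; exact mul_pos (κpos _) ht) (by intro s u t ht; exact mul_pos (κpos' _) ht)
    (by intro s u t ht; simp only [← mul_assoc, κκ, one_mul])
    (by
      intro s u t ht
      simp only [← mul_assoc]
      rw [mul_comm (κ _), κκ, one_mul])
  -- step 2
  let W : ℝ × Circle → ℝ := fun x => 2 * (go x - gi x) / (gi x + go x)
  have hW : Continuous W := (continuous_const.mul (co.sub ci)).div (ci.add co)
    (fun x => (ps x).ne')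
  have W0 : ∀ x, 0 ≤ W x := fun x =>
    div_nonneg (mul_nonneg (by norm_num) (sub_nonneg.2 (hle x))) (ps x).le
  have W2 : ∀ x, W x < 2 := by
    intro x
    simp only [W]
    rw [div_lt_iff₀ (ps x)]
    nlinarith [pi x]
  have Wzero : ∀ s u, W (s, u) = 0 ↔ (s ≤ a ∨ b ≤ s) := by
    intro s u
    constructor
    · intro h
      by_contra hc
      push Not at hc
      have h1 := hlt s u hc.1 hc.2
      have : 0 < W (s, u) := div_pos (by linarith) (ps _)
      linarith
    · intro h
      simp only [W]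
      rw [heq s u h]; simp
  have hba : 0 < b - a := by linarith
  let σ : ℝ → ℝ := fun s => (2 * s - a - b) / (b - a)
  let w : ℝ → ℝ := fun s => Real.sqrt (1 - σ s ^ 2)
  have hσ : Continuous σ := by
    simp only [σ]
    exact (by fun_prop : Continuous fun s : ℝ => 2 * s - a - b).div_const _
  have hw : Continuous w := by simp only [w]; fun_prop
  have w0 : ∀ s, 0 ≤ w s := fun s => Real.sqrt_nonneg _
  have w2 : ∀ s, w s < 2 := by
    intro s
    have : w s ≤ 1 := by
      simp only [w]
      exact Real.sqrt_le_iff.2 ⟨by norm_num, by nlinarith [sq_nonneg (σ s)]⟩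
    linarith
  have σle : ∀ s, (s ≤ a ∨ b ≤ s) ↔ 1 - σ s ^ 2 ≤ 0 := by
    intro s
    have e : 1 - σ s ^ 2 = 4 * ((s - a) * (b - s)) / (b - a) ^ 2 := by
      simp only [σ]
      field_simp
      ring
    rw [e]
    constructor
    · intro h
      apply div_nonpos_of_nonpos_of_nonneg _ (sq_nonneg _)
      rcases h with h | h
      · nlinarith [mul_nonneg (sub_nonneg.2 h) (by linarith : 0 ≤ b - s)]
      · nlinarith [mul_nonneg (sub_nonneg.2 h) (by linarith : 0 ≤ s - a)]
    · intro h
      by_contra hc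
      push Not at hc
      have : 0 < 4 * ((s - a) * (b - s)) / (b - a) ^ 2 := by
        apply div_pos _ (by positivity)
        have := mul_pos (sub_pos.2 hc.1) (sub_pos.2 hc.2)
        linarith
      linarith
  have wzero : ∀ s, w s = 0 ↔ (s ≤ a ∨ b ≤ s) := by
    intro s
    rw [σle]
    simp only [w]
    exact Real.sqrt_eq_zero'
  have hWw : ∀ s u, W (s, u) = 0 ↔ w s = 0 := fun s u => (Wzero s u).trans (wzero s).symm
  let H2 := polarHomeo (fun x => 2 + Phi (W (x.1, x.2.1)) (w x.1) (x.2.2 - 2))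
    (fun x => 2 + Phi (w x.1) (W (x.1, x.2.1)) (x.2.2 - 2))
    (continuous_const.add (continuous_Phi _ _ _ (by fun_prop) (by fun_prop) (by fun_prop)
      (fun x => W0 _) (fun x => W2 _) (fun x => hWw _ _)))
    (continuous_const.add (continuous_Phi _ _ _ (by fun_prop) (by fun_prop) (by fun_prop)
      (fun x => w0 _) (fun x => w2 _) (fun x => (hWw _ _).symm)))
    (by intro s u; simp only [zero_sub]; rw [Phi_two (W0 _) (W2 _)]; norm_num)
    (by intro s u; simp only [zero_sub]; rw [Phi_two (w0 _) (w2 _)]; norm_num)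
    (by
      intro s u t ht
      have := Phi_gt (W0 (s, u)) (W2 (s, u)) (w0 s) (w2 s) (hWw s u) (τ := t - 2) (by linarith)
      simp only []; linarith)
    (by
      intro s u t ht
      have := Phi_gt (w0 s) (w2 s) (W0 (s, u)) (W2 (s, u)) (hWw s u).symm (τ := t - 2)
        (by linarith)
      simp only []; linarith)
    (by
      intro s u t ht
      simp only [add_sub_cancel_left]
      rw [Phi_inv (W0 _) (W2 _) (w0 _) (w2 _) (hWw s u)]; ring)
    (by
      intro s u t ht
      simp only [add_sub_cancel_left]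
      rw [Phi_inv (w0 _) (w2 _) (W0 _) (W2 _) (hWw s u).symm]; ring)
  -- step 3 : affine change of height
  let H3 : (ℂ × ℝ) ≃ₜ (ℂ × ℝ) :=
    { toFun := fun p => (p.1, (2 * p.2 - a - b) / (b - a))
      invFun := fun p => (p.1, (p.2 * (b - a) + a + b) / 2)
      left_inv := by
        intro p
        refine Prod.ext rfl ?_
        show ((2 * p.2 - a - b) / (b - a) * (b - a) + a + b) / 2 = p.2
        field_simp; ring
      right_inv := by
        intro p
        refine Prod.ext rfl ?_
        show (2 * ((p.2 * (b - a) + a + b) / 2) - a - b) / (b - a) = p.2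
        field_simp; ring
      continuous_toFun := by
        apply continuous_fst.prodMk
        exact (by fun_prop : Continuous fun p : ℂ × ℝ => 2 * p.2 - a - b).div_const _
      continuous_invFun := by fun_prop }
  refine ⟨H1.trans (H2.trans H3), ?_⟩
  have c1 : ∀ (s : ℝ) (u : Circle), H1 (gi (s, u) • (u : ℂ), s) = ((2 - W (s, u)) • (u : ℂ), s) := by
    intro s u
    have : H1 (gi (s, u) • (u : ℂ), s) = ((κ (s, u) * gi (s, u)) • (u : ℂ), s) :=
      polarMap_smul (fun x => κ (x.1, x.2.1) * x.2.2) s (gi (s, u)) u (pi (s, u))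
    rw [this]
    congr 2
    have := (ps (s, u)).ne'
    simp only [κ, W]; field_simp; ring
  have c2 : ∀ (s : ℝ) (u : Circle), H1 (go (s, u) • (u : ℂ), s) = ((2 + W (s, u)) • (u : ℂ), s) := by
    intro s u
    have : H1 (go (s, u) • (u : ℂ), s) = ((κ (s, u) * go (s, u)) • (u : ℂ), s) :=
      polarMap_smul (fun x => κ (x.1, x.2.1) * x.2.2) s (go (s, u)) u (po (s, u))
    rw [this]
    congr 2
    have := (ps (s, u)).ne'
    simp only [κ, W]; field_simp; ring
  have d1 : ∀ (s : ℝ) (u : Circle), H2 ((2 - W (s, u)) • (u : ℂ), s) = ((2 - w s) • (u : ℂ), s) := by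
    intro s u
    have := W2 (s, u)
    have e : H2 ((2 - W (s, u)) • (u : ℂ), s)
        = ((2 + Phi (W (s, u)) (w s) ((2 - W (s, u)) - 2)) • (u : ℂ), s) :=
      polarMap_smul (fun x => 2 + Phi (W (x.1, x.2.1)) (w x.1) (x.2.2 - 2)) s (2 - W (s, u)) u
        (by linarith)
    rw [e]
    have e2 : (2 - W (s, u)) - 2 = - W (s, u) := by ring
    rw [e2, Phi_neg, Phi_self (W0 _) (W2 _) (hWw s u)]
    rfl
  have d2 : ∀ (s : ℝ) (u : Circle), H2 ((2 + W (s, u)) • (u : ℂ), s) = ((2 + w s) • (u : ℂ), s) := by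
    intro s u
    have := W0 (s, u)
    have e : H2 ((2 + W (s, u)) • (u : ℂ), s)
        = ((2 + Phi (W (s, u)) (w s) ((2 + W (s, u)) - 2)) • (u : ℂ), s) :=
      polarMap_smul (fun x => 2 + Phi (W (x.1, x.2.1)) (w x.1) (x.2.2 - 2)) s (2 + W (s, u)) u
        (by linarith)
    rw [e, add_sub_cancel_left, Phi_self (W0 _) (W2 _) (hWw s u)]
  have f : ∀ (y : ℂ) (s : ℝ), H3 (y, s) = (y, σ s) := fun y s => rfl
  ext p
  constructor
  · rintro ⟨q, ⟨s, u, h1, h2, h | h⟩, rfl⟩
    · subst h
      show H3 (H2 (H1 _)) ∈ roundTorus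
      rw [c1, d1, f]
      have hs : 0 ≤ 1 - σ s ^ 2 := by
        by_contra hc
        push Not at hc
        rcases (σle s).2 hc.le with h | h
        · have : s = a := le_antisymm h h1
          subst this
          have : σ s = -1 := by simp only [σ]; field_simp; ring
          rw [this] at hc; norm_num at hc
        · have : s = b := le_antisymm h2 h
          subst this
          have : σ s = 1 := by simp only [σ]; field_simp; ring
          rw [this] at hc; norm_num at hc
      have hn : 0 ≤ 2 - w s := by have := w2 s; linarith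
      show (‖(2 - w s) • (u : ℂ)‖ - 2) ^ 2 + σ s ^ 2 = 1
      rw [norm_smul_circle _ hn]
      have := Real.sq_sqrt hs
      have : w s ^ 2 = 1 - σ s ^ 2 := this
      nlinarith
    · subst h
      show H3 (H2 (H1 _)) ∈ roundTorus
      rw [c2, d2, f]
      have hs : 0 ≤ 1 - σ s ^ 2 := by
        by_contra hc
        push Not at hc
        rcases (σle s).2 hc.le with h | h
        · have : s = a := le_antisymm h h1
          subst this
          have : σ s = -1 := by simp only [σ]; field_simp; ring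
          rw [this] at hc; norm_num at hc
        · have : s = b := le_antisymm h2 h
          subst this
          have : σ s = 1 := by simp only [σ]; field_simp; ring
          rw [this] at hc; norm_num at hc
      have hn : 0 ≤ 2 + w s := by have := w0 s; linarith
      show (‖(2 + w s) • (u : ℂ)‖ - 2) ^ 2 + σ s ^ 2 = 1
      rw [norm_smul_circle _ hn]
      have := Real.sq_sqrt hs
      have : w s ^ 2 = 1 - σ s ^ 2 := this
      nlinarith
  · intro hp
    obtain ⟨y, r⟩ := p
    have hp : (‖y‖ - 2) ^ 2 + r ^ 2 = 1 := hp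
    set s := (r * (b - a) + a + b) / 2 with hs
    have hσs : σ s = r := by
      simp only [σ, hs]; field_simp; ring
    have hr1 : -1 ≤ r := by nlinarith [sq_nonneg (‖y‖ - 2)]
    have hr2 : r ≤ 1 := by nlinarith [sq_nonneg (‖y‖ - 2)]
    have h1 : a ≤ s := by rw [hs]; nlinarith
    have h2 : s ≤ b := by rw [hs]; nlinarith
    have hw' : w s = |‖y‖ - 2| := by
      simp only [w, hσs]
      have : 1 - r ^ 2 = (‖y‖ - 2) ^ 2 := by linarith
      rw [this, Real.sqrt_sq_eq_abs]
    rcases le_total 2 ‖y‖ with h | h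
    · rw [abs_of_nonneg (by linarith)] at hw'
      refine ⟨(go (s, dir y) • (dir y : ℂ), s), ⟨s, dir y, h1, h2, Or.inr rfl⟩, ?_⟩
      show H3 (H2 (H1 _)) = _
      rw [c2, d2, f, hσs, hw']
      have : 2 + (‖y‖ - 2) = ‖y‖ := by ring
      rw [this, norm_smul_dir]
    · rw [abs_of_nonpos (by linarith)] at hw'
      refine ⟨(gi (s, dir y) • (dir y : ℂ), s), ⟨s, dir y, h1, h2, Or.inl rfl⟩, ?_⟩
      show H3 (H2 (H1 _)) = _
      rw [c1, d1, f, hσs, hw']
      have : 2 - -(‖y‖ - 2) = ‖y‖ := by ring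
      rw [this, norm_smul_dir]

end

end Pool.Agent.Helper183.Collar
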